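import Mathlib
import Pool.Agent.H943.KF.Gen

/-!
# The idempotents of a field of endomorphisms of a factor
-/

set_option autoImplicit false
set_option linter.unusedSectionVars false

namespace Pool.Agent.H943.KP

open Matrix Module Pool.Agent.H204R3.CM Pool.Agent.H194R3.CM Pool.Agent.W437.HC
  Pool.Agent.W437.HD Pool.Agent.W437.HQ Pool.Agent.W548.Odd Pool.Agent.TH125 Pool.Agent.Y4
  Pool.Agent.Y4.G Pool.Agent.Y4.K Pool.Agent.H943.KS Pool.Agent.H943.KF

open Pool.Agent.Y4.H (exists_prims LZ Ct map_smul_aut' D_mem_LZ Dσ_mem_LZ)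

variable {g : ℕ} {Z : Matrix (Fin g) (Fin g) ℂ}

section

variable {F : Type} [Field F] [NumberField F] (j : F →ₙ+* MQ g)

/-- The idempotent of an embedding. -/
noncomputable def ptn (τ : F →+* ℂ) : Matrix (Fin g ⊕ Fin g) (Fin g ⊕ Fin g) ℂ :=
  ∑ i, τ (db F i) • cq (j (finBasis ℚ F i))

theorem jn_smul (r : ℚ) (x : F) : j (r • x) = r • j x := map_rat_smul j r x

theorem sum_ptn : ∑ τ, ptn j τ = cq (j 1) := by
  unfold ptn
  rw [Finset.sum_comm]
  have h1 : ∀ i, ∑ τ : F →+* ℂ, τ (db F i) • cq (j (finBasis ℚ F i)) =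
      cq (j (Algebra.trace ℚ F (db F i * 1) • finBasis ℚ F i)) := by
    intro i
    rw [← Finset.sum_smul, sum_emb, jn_smul, cq_smul, mul_one]
  rw [Finset.sum_congr rfl fun i _ => h1 i, ← cq_sum, ← map_sum, trace_mul_db]

theorem j_ptn (τ : F →+* ℂ) (a : F) : cq (j a) * ptn j τ = τ a • ptn j τ := by
  unfold ptn
  rw [Finset.mul_sum, Finset.smul_sum]
  have h1 : ∀ i, cq (j a) * (τ (db F i) • cq (j (finBasis ℚ F i))) =
      ∑ k, (τ (db F i) * ((Algebra.trace ℚ F (db F k * (a * finBasis ℚ F i)) : ℚ) : ℂ)) •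
        cq (j (finBasis ℚ F k)) := by
    intro i
    rw [Matrix.mul_smul, ← cq_mul, ← map_mul]
    conv_lhs => rw [← trace_mul_db (a * finBasis ℚ F i)]
    rw [map_sum, cq_sum, Finset.smul_sum]
    refine Finset.sum_congr rfl fun k _ => ?_
    rw [jn_smul, cq_smul, smul_smul]
  rw [Finset.sum_congr rfl fun i _ => h1 i, Finset.sum_comm]
  refine Finset.sum_congr rfl fun k _ => ?_
  rw [← Finset.sum_smul, smul_smul]
  congr 1
  have h2 : τ (a * db F k) = ∑ i, τ (Algebra.trace ℚ F ((a * db F k) * finBasis ℚ F i) • db F i) := by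
    rw [← map_sum, trace_db_mul]
  rw [← map_mul, h2]
  refine Finset.sum_congr rfl fun i _ => ?_
  rw [map_rat_smul]
  rw [Rat.smul_def, mul_comm]
  congr 3
  ring

theorem ptn_j (τ : F →+* ℂ) (a : F) : ptn j τ * cq (j a) = τ a • ptn j τ := by
  rw [← j_ptn]
  unfold ptn
  rw [Finset.mul_sum, Finset.sum_mul]
  refine Finset.sum_congr rfl fun i _ => ?_
  rw [Matrix.mul_smul, Matrix.smul_mul, ← cq_mul, ← cq_mul, ← map_mul, ← map_mul, mul_comm]

/-- Orthogonality. -/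
theorem ptn_orth {τ τ' : F →+* ℂ} (h : τ ≠ τ') : ptn j τ * ptn j τ' = 0 := by
  obtain ⟨a, ha⟩ : ∃ a, τ a ≠ τ' a := by
    by_contra hcon
    push Not at hcon
    exact h (RingHom.ext hcon)
  have h1 : τ a • (ptn j τ * ptn j τ') = τ' a • (ptn j τ * ptn j τ') := by
    rw [← Matrix.smul_mul, ← ptn_j, mul_assoc, j_ptn, Matrix.mul_smul]
  have h2 : (τ a - τ' a) • (ptn j τ * ptn j τ') = 0 := by rw [sub_smul, h1, sub_self]
  exact (smul_eq_zero.1 h2).resolve_left (sub_ne_zero.2 ha)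

theorem ptn_idem (τ : F →+* ℂ) : ptn j τ * ptn j τ = ptn j τ := by
  classical
  have h0 : ptn j τ * cq (j 1) = ptn j τ := by rw [ptn_j, map_one, one_smul]
  conv_rhs => rw [← h0, ← sum_ptn j, Finset.mul_sum]
  rw [Finset.sum_eq_single τ]
  · intro τ' _ h
    exact ptn_orth j h.symm
  · intro h
    exact absurd (Finset.mem_univ τ) h

/-- The idempotent fixes the eigenvectors. -/
theorem ptn_fix {τ : F →+* ℂ} {m : Type} [Fintype m] {x : Matrix (Fin g ⊕ Fin g) m ℂ}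
    (h : ∀ a, cq (j a) * x = τ a • x) : ptn j τ * x = x := by
  classical
  have h0 : ∀ τ' : F →+* ℂ, τ' ≠ τ → ptn j τ' * x = 0 := by
    intro τ' hτ
    obtain ⟨a, ha⟩ : ∃ a, τ' a ≠ τ a := by
      by_contra hcon
      push Not at hcon
      exact hτ (RingHom.ext hcon)
    have h1 : τ' a • (ptn j τ' * x) = τ a • (ptn j τ' * x) := by
      rw [← Matrix.smul_mul, ← ptn_j, Matrix.mul_assoc, h, Matrix.mul_smul]
    have h2 : (τ' a - τ a) • (ptn j τ' * x) = 0 := by rw [sub_smul, h1, sub_self]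
    exact (smul_eq_zero.1 h2).resolve_left (sub_ne_zero.2 ha)
  have hx : cq (j 1) * x = x := by rw [h, map_one, one_smul]
  conv_rhs => rw [← hx, ← sum_ptn j, Matrix.sum_mul]
  rw [Finset.sum_eq_single τ]
  · intro τ' _ h1
    exact h0 τ' h1
  · intro h1
    exact absurd (Finset.mem_univ τ) h1

theorem ptn_map (τ : F →+* ℂ) (σ : ℂ ≃+* ℂ) :
    (ptn j τ).map (σ : ℂ →+* ℂ) = ptn j ((σ : ℂ →+* ℂ).comp τ) := by
  unfold ptn
  have h1 : ∀ (s : Finset (Fin (finrank ℚ F)))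
      (f : Fin (finrank ℚ F) → Matrix (Fin g ⊕ Fin g) (Fin g ⊕ Fin g) ℂ),
      (∑ i ∈ s, f i).map (σ : ℂ →+* ℂ) = ∑ i ∈ s, (f i).map (σ : ℂ →+* ℂ) := by
    intro s f
    exact map_sum ((σ : ℂ →+* ℂ).mapMatrix (m := Fin g ⊕ Fin g)) f s
  rw [h1]
  refine Finset.sum_congr rfl fun i _ => ?_
  rw [map_smul_aut', cq_map]
  rfl

end

section

variable {F : Type} [Field F] [NumberField F] (j : F →ₙ+* MQ g)

/-- The eigenspace of an embedding in the tangent space. -/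
def TFn (Z : Matrix (Fin g) (Fin g) ℂ) (j : F →ₙ+* MQ g) (τ : F →+* ℂ) :
    Submodule ℂ (Fin g → ℂ) where
  carrier := {t | ∀ (a : F) (N : Matrix (Fin g) (Fin g) ℂ), IsEndo Z (j a) N →
    N.mulVec t = τ a • t}
  zero_mem' := fun a M _ => by rw [mulVec_zero, smul_zero]
  add_mem' := fun {x y} hx hy a M h => by rw [mulVec_add, hx a M h, hy a M h, smul_add]
  smul_mem' := fun c x hx a M h => by rw [mulVec_smul, hx a M h, smul_comm]

variable {j} (M : Pol Z) (hE : ∀ a, ∃ N, IsEndo Z (j a) N)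
include M hE

theorem Ct_ptn (τ : F →+* ℂ) : Ct Z (ptn j τ) := by
  intro X hX
  unfold ptn
  rw [Finset.sum_mul, Finset.mul_sum]
  refine Finset.sum_congr rfl fun i _ => ?_
  obtain ⟨N, hN⟩ := hE (finBasis ℚ F i)
  rw [Matrix.smul_mul, Matrix.mul_smul, M.Ct_of_endo hN X hX]

theorem D_ptn (τ : F →+* ℂ) : DZ Z * ptn j τ = ptn j τ * DZ Z := (Ct_ptn M hE τ _ D_mem_LZ).symm

/-- The dimension of the eigenspace. -/
theorem dim_TFn (τ : F →+* ℂ) :
    ((finrank ℂ (TFn Z j τ) : ℕ) : ℂ) = trace ((2 : ℂ)⁻¹ • ((1 + DZ Z) * ptn j τ)) := by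
  obtain ⟨PT, hPT⟩ : ∃ PT, PT = (2 : ℂ)⁻¹ • ((1 + DZ Z) * ptn j τ) := ⟨_, rfl⟩
  have h1 := D_ptn M hE τ
  have h3 := DZ_sq M.isUnit
  have hid : PT * PT = PT := by
    have h2 := ptn_idem j τ
    have h4 : (1 + DZ Z) * (1 + DZ Z) = (2 : ℂ) • (1 + DZ Z) := by
      rw [mul_add, mul_one, add_mul, one_mul, h3, two_smul]
      abel
    have h5 : ptn j τ * (1 + DZ Z) = (1 + DZ Z) * ptn j τ := by
      rw [mul_add, add_mul, mul_one, one_mul, h1]
    rw [hPT, Matrix.smul_mul, Matrix.mul_smul, mul_assoc, ← mul_assoc (ptn j τ), h5,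
      mul_assoc _ (ptn j τ), h2, ← mul_assoc, h4, Matrix.smul_mul, smul_smul (2 : ℂ)⁻¹ 2,
      inv_mul_cancel₀ two_ne_zero, one_smul]
  rw [← hPT, trace_idemM hid]
  congr 1
  have hDP : DZ Z * PT = PT := by
    rw [hPT, Matrix.mul_smul, ← mul_assoc, mul_add, mul_one, h3, add_comm (DZ Z)]
  have hxP : ∀ a, cq (j a) * PT = τ a • PT := by
    intro a
    obtain ⟨N, hN⟩ := hE a
    rw [hPT, Matrix.mul_smul, ← mul_assoc, mul_add, mul_one, endo_comm M.isUnit hN,
      ← one_add_mul, mul_assoc, j_ptn, Matrix.mul_smul, smul_comm]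
  have hmem : ∀ x : Fin g ⊕ Fin g → ℂ, x ∈ LinearMap.range (mulVecLin PT) ↔
      DZ Z *ᵥ x = x ∧ ∀ a, cq (j a) *ᵥ x = τ a • x := by
    intro x
    constructor
    · rintro ⟨y, rfl⟩
      refine ⟨?_, fun a => ?_⟩
      · rw [mulVecLin_apply, mulVec_mulVec, hDP]
      · rw [mulVecLin_apply, mulVec_mulVec, hxP, smul_mulVec]
    · rintro ⟨h4, h5⟩
      have h6 : ptn j τ *ᵥ x = x := by
        have h7 := ptn_fix j (τ := τ) (m := Unit) (x := Matrix.of fun i (_ : Unit) => x i) (by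
          intro a
          ext i k
          exact congrFun (h5 a) i)
        funext i
        exact congrFun (congrFun h7 i) ()
      refine ⟨x, ?_⟩
      rw [mulVecLin_apply, hPT, smul_mulVec, ← mulVec_mulVec, h6, add_mulVec,
        one_mulVec, h4, ← two_smul ℂ, smul_smul, inv_mul_cancel₀ two_ne_zero, one_smul]
  set f := (mulVecLin (PZ Z)).domRestrict (LinearMap.range (mulVecLin PT)) with hf
  have hinj : Function.Injective f := by
    rw [← LinearMap.ker_eq_bot, LinearMap.ker_eq_bot']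
    rintro ⟨x, hx⟩ h
    apply Subtype.ext
    exact eq_zero_of_PZ M.isUnit ((hmem x).1 hx).1 h
  have hrange : LinearMap.range f = TFn Z j τ := by
    ext t
    constructor
    · rintro ⟨⟨x, hx⟩, rfl⟩ a N hN
      change N *ᵥ (PZ Z *ᵥ x) = τ a • (PZ Z *ᵥ x)
      have h1 := endo_PZ hN
      rw [mulVec_mulVec, ← h1, ← mulVec_mulVec, ((hmem x).1 hx).2, mulVec_smul]
    · intro ht
      obtain ⟨x, hx⟩ : ∃ x, x = (2 : ℂ)⁻¹ • ((1 + DZ Z) *ᵥ (r10 g *ᵥ t)) := ⟨_, rfl⟩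
      have h1 : DZ Z *ᵥ x = x := by
        rw [hx, mulVec_smul, mulVec_mulVec, mul_add, mul_one, DZ_sq M.isUnit, add_comm (DZ Z)]
      have h2 : PZ Z *ᵥ x = t := by
        rw [hx, mulVec_smul, mulVec_mulVec, Matrix.mul_add, Matrix.mul_one, PZ_DZ M.isUnit,
          mulVec_mulVec, Matrix.add_mul, PZ_r10, add_mulVec, one_mulVec, ← two_smul ℂ, smul_smul,
          inv_mul_cancel₀ two_ne_zero, one_smul]
      have h3 : ∀ a, cq (j a) *ᵥ x = τ a • x := by
        intro a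
        obtain ⟨N, hN⟩ := hE a
        rw [← sub_eq_zero]
        have hcomm := endo_comm M.isUnit hN
        refine eq_zero_of_PZ M.isUnit ?_ ?_
        · rw [mulVec_sub, mulVec_mulVec, ← hcomm, ← mulVec_mulVec, mulVec_smul, h1]
        · have h4 := endo_PZ hN
          rw [mulVec_sub, mulVec_mulVec, h4, ← mulVec_mulVec, h2, mulVec_smul, h2, ht a _ hN,
            sub_self]
      exact ⟨⟨x, (hmem x).2 ⟨h1, h3⟩⟩, h2⟩
  rw [← hrange, LinearMap.finrank_range_of_inj hinj]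

end


end Pool.Agent.H943.KP
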