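import Mathlib
import Pool.Agent.H943.KP.Idem

/-!
# Families of idempotents of the commutant
-/

set_option autoImplicit false
set_option linter.unusedSectionVars false

namespace Pool.Agent.H943.KP

open Matrix Module Pool.Agent.H204R3.CM Pool.Agent.H194R3.CM Pool.Agent.W437.HC
  Pool.Agent.W437.HD Pool.Agent.W437.HQ Pool.Agent.W548.Odd Pool.Agent.TH125 Pool.Agent.Y4
  Pool.Agent.Y4.G Pool.Agent.Y4.K Pool.Agent.H943.KS Pool.Agent.H943.KF

open Pool.Agent.Y4.H (exists_prims LZ Ct map_smul_aut' D_mem_LZ Dσ_mem_LZ)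

variable {g : ℕ} {Z : Matrix (Fin g) (Fin g) ℂ}

/-- A family of orthogonal idempotents of the commutant which is permuted by the automorphisms. -/
structure IdF (Z : Matrix (Fin g) (Fin g) ℂ) {Y : Type} [Fintype Y] [MulAction (RingAut ℂ) Y]
    (P : Y → Matrix (Fin g ⊕ Fin g) (Fin g ⊕ Fin g) ℂ) : Prop where
  ct : ∀ y, Ct Z (P y)
  idem : ∀ y, P y * P y = P y
  orth : ∀ y y', y ≠ y' → P y * P y' = 0
  map : ∀ (σ : RingAut ℂ) (y : Y), (P y).map (σ : ℂ →+* ℂ) = P (σ • y)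
  sum : ∑ y, P y = 1

/-- The multiplicity of a member at an idempotent. -/
noncomputable def rkP {Y : Type} (P : Y → Matrix (Fin g ⊕ Fin g) (Fin g ⊕ Fin g) ℂ) (φ : Pr Z)
    (y : Y) : ℕ :=
  finrank ℂ (Vp Z φ (P y))

section

variable (M : Pol Z) {I : Type} [Fintype I] {ε : I → Pr Z} (Fm : Pol.Fam ε)
  {Y : Type} [Fintype Y] [MulAction (RingAut ℂ) Y]
  {P : Y → Matrix (Fin g ⊕ Fin g) (Fin g ⊕ Fin g) ℂ} (hP : IdF Z P)
include M Fm hP

theorem ce_P_comm (φ : Pr Z) (y : Y) : P y * M.ce ε φ = M.ce ε φ * P y :=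
  ((M.ce_central Fm φ).2 _ (hP.ct y)).symm

theorem lkP_idem (φ : Pr Z) (y : Y) :
    (M.ce ε φ * P y) * (M.ce ε φ * P y) = M.ce ε φ * P y := by
  have h1 := ce_P_comm M Fm hP φ y
  calc (M.ce ε φ * P y) * (M.ce ε φ * P y) =
      M.ce ε φ * (P y * M.ce ε φ) * P y := by noncomm_ring
  _ = (M.ce ε φ * M.ce ε φ) * (P y * P y) := by rw [h1]; noncomm_ring
  _ = _ := by rw [M.ce_idem Fm, hP.idem]

theorem lkP_map (φ : Pr Z) (y : Y) (σ : RingAut ℂ) :
    (M.ce ε φ * P y).map (σ : ℂ →+* ℂ) = M.ce ε (M.act σ φ) * P (σ • y) := by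
  rw [Matrix.map_mul, ce_act M Fm, hP.map]

theorem trace_lkP (φ : Pr Z) (y : Y) :
    trace (M.ce ε φ * P y) = (((mu φ + mu (M.bar φ)) * rkP P φ y : ℕ) : ℂ) :=
  (rank_idem M Fm (hP.ct y) (hP.idem y) φ).1

theorem trace_lkP' (φ : Pr Z) (y : Y) :
    trace ((2 : ℂ)⁻¹ • ((1 + DZ Z) * (M.ce ε φ * P y))) = ((mu φ * rkP P φ y : ℕ) : ℂ) :=
  (rank_idem M Fm (hP.ct y) (hP.idem y) φ).2

theorem rkP_eqv {φ ψ : Pr Z} (h : Eqv φ ψ) (y : Y) : rkP P φ y = rkP P ψ y := by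
  have h1 := trace_lkP M Fm hP φ y
  have h2 := trace_lkP M Fm hP ψ y
  rw [ce_eqv M (ε := ε) h, h2, M.mu_eqv h, M.mu_eqv (M.eqv_bar h)] at h1
  have h3 : (mu ψ + mu (M.bar ψ)) * rkP P ψ y = (mu ψ + mu (M.bar ψ)) * rkP P φ y := by
    exact_mod_cast h1
  exact (Nat.eq_of_mul_eq_mul_left (M.mu_pos ψ) h3).symm

theorem rkP_act (φ : Pr Z) (y : Y) (σ : RingAut ℂ) :
    rkP P (M.act σ φ) (σ • y) = rkP P φ y := by
  have h1 := trace_lkP M Fm hP (M.act σ φ) (σ • y)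
  rw [← lkP_map M Fm hP] at h1
  have h2 : trace ((M.ce ε φ * P y).map (σ : ℂ →+* ℂ)) = σ (trace (M.ce ε φ * P y)) :=
    (AddMonoidHom.map_trace (σ : ℂ →+* ℂ).toAddMonoidHom _).symm
  rw [h2, trace_lkP M Fm hP φ y, map_natCast, M.mu_act] at h1
  have h3 : (mu φ + mu (M.bar φ)) * rkP P φ y =
      (mu φ + mu (M.bar φ)) * rkP P (M.act σ φ) (σ • y) := by
    exact_mod_cast h1
  exact (Nat.eq_of_mul_eq_mul_left (M.mu_pos φ) h3).symm

theorem lkP_iff (φ : Pr Z) (y : Y) : M.ce ε φ * P y ≠ 0 ↔ rkP P φ y ≠ 0 := by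
  have h1 := trace_lkP M Fm hP φ y
  constructor
  · intro h h0
    rw [h0, mul_zero, Nat.cast_zero, trace_idemM (lkP_idem M Fm hP φ y)] at h1
    have h2 : finrank ℂ (LinearMap.range (mulVecLin (M.ce ε φ * P y))) = 0 := by
      exact_mod_cast h1
    apply h
    rw [Submodule.finrank_eq_zero, LinearMap.range_eq_bot] at h2
    apply Matrix.toLin'.injective
    rw [map_zero]
    exact h2
  · intro h h0
    rw [h0, trace_zero] at h1
    have h2 : (mu φ + mu (M.bar φ)) * rkP P φ y = 0 := by exact_mod_cast h1.symm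
    rcases Nat.mul_eq_zero.1 h2 with h3 | h3
    · exact (M.mu_pos φ).ne' h3
    · exact h h3

theorem rkP_conj (φ : Pr Z) (y : Y) :
    rkP P (M.bar φ) ((conjEq : RingAut ℂ) • y) = rkP P φ y := by
  rw [← rkP_act M Fm hP φ y conjEq, rkP_eqv M Fm hP (M.act_conj φ)]

theorem exists_rkP (φ : Pr Z) : ∃ y, rkP P φ y ≠ 0 := by
  by_contra hcon
  push Not at hcon
  have h1 : M.ce ε φ = 0 := by
    rw [← mul_one (M.ce ε φ), ← hP.sum, Finset.mul_sum]
    refine Finset.sum_eq_zero fun y _ => ?_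
    by_contra h2
    exact (lkP_iff M Fm hP φ y).1 h2 (hcon y)
  have h2 := M.ce_mul Fm (φ := φ) (ψ := φ)
  rw [h1, zero_mul, if_pos (Eqv.refl φ)] at h2
  exact φ.ne h2.symm


end

/-- The multiplicity of a member at a class. -/
noncomputable def clRkP {Y : Type} (P : Y → Matrix (Fin g ⊕ Fin g) (Fin g ⊕ Fin g) ℂ) (x : Cl Z)
    (y : Y) : ℕ := open Classical in
  if h : ∃ φ : Pr Z, cl φ = x then rkP P h.choose y else 0

section

variable (M : Pol Z) {I : Type} [Fintype I] {ε : I → Pr Z} (Fm : Pol.Fam ε)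
  {Y : Type} [Fintype Y] [MulAction (RingAut ℂ) Y]
  {P : Y → Matrix (Fin g ⊕ Fin g) (Fin g ⊕ Fin g) ℂ} (hP : IdF Z P)
include M Fm hP

theorem rkP_cl (φ : Pr Z) (y : Y) : clRkP P (cl φ) y = rkP P φ y := by
  classical
  have h : ∃ ψ : Pr Z, cl ψ = cl φ := ⟨φ, rfl⟩
  unfold clRkP
  rw [dif_pos h]
  exact rkP_eqv M Fm hP (cl_eq.1 h.choose_spec) y

/-- The dimension of the tangent part. -/
theorem tan_cls [Fintype (Cl Z)] (y : Y) :
    trace ((2 : ℂ)⁻¹ • ((1 + DZ Z) * P y)) = ((∑ x, clMu M x * clRkP P x y : ℕ) : ℂ) := by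
  have h3 : P y = ∑ x : Cl Z, ceC M ε x * P y := by
    rw [← Finset.sum_mul, sum_ceC M Fm, one_mul]
  conv_lhs => rw [h3]
  rw [Finset.mul_sum, Finset.smul_sum, trace_sum, Nat.cast_sum]
  refine Finset.sum_congr rfl fun x _ => ?_
  obtain ⟨φ, rfl⟩ := cl_surj x
  rw [ceC_cl, mu_cl, rkP_cl M Fm hP]
  exact trace_lkP' M Fm hP φ y

/-- The dimension of the part of the homology. -/
theorem hom_cls [Fintype (Cl Z)] (y : Y) :
    trace (P y) = ((∑ x, (clMu M x + clMu M (clBar M x)) * clRkP P x y : ℕ) : ℂ) := by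
  have h3 : P y = ∑ x : Cl Z, ceC M ε x * P y := by
    rw [← Finset.sum_mul, sum_ceC M Fm, one_mul]
  conv_lhs => rw [h3]
  rw [trace_sum, Nat.cast_sum]
  refine Finset.sum_congr rfl fun x _ => ?_
  obtain ⟨φ, rfl⟩ := cl_surj x
  rw [ceC_cl, rkP_cl M Fm hP, trace_lkP M Fm hP φ y, bar_cl, mu_cl, mu_cl]

end

end Pool.Agent.H943.KP
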