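import Mathlib
import Pool.Agent.H943.KP.Fam

/-!
# The data of a family of factors
-/

set_option autoImplicit false
set_option linter.unusedSectionVars false

namespace Pool.Agent.H943.KP

open Matrix Module Pool.Agent.H204R3.CM Pool.Agent.H194R3.CM Pool.Agent.W437.HC
  Pool.Agent.W437.HD Pool.Agent.W437.HQ Pool.Agent.W548.Odd Pool.Agent.TH125 Pool.Agent.Y4
  Pool.Agent.Y4.G Pool.Agent.Y4.K Pool.Agent.H943.KS Pool.Agent.H943.KF

open Pool.Agent.Y4.H (exists_prims LZ Ct map_smul_aut' D_mem_LZ Dσ_mem_LZ)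

/-- A normal subgroup of index prime to `N` in a stabilizer is transitive on the fibre, if its
order divides `N`. -/
theorem fib_trN' {G X Y : Type} [Group G] [MulAction G X] [MulAction G Y] [Fintype X]
    {H : Subgroup G} (hn : H.Normal) {N : ℕ} {π : X → Y}
    (hπ : ∀ (σ : G) x, π (σ • x) = σ • π x)
    (htr : ∀ x x' : X, ∃ σ : G, σ • x = x') {x x' : X}
    (hco : Nat.Coprime N (H.relIndex (MulAction.stabilizer G (π x)))) (hxx : π x = π x')
    (hb : Nat.card {z // π z = π x} ∣ N) : ∃ σ ∈ H, σ • x = x' := by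
  classical
  let K : Subgroup G := MulAction.stabilizer G (π x)
  let S : Subgroup G := MulAction.stabilizer G x
  have h1 : S.relIndex K = Nat.card {z // π z = π x} := by
    have h2 : S.relIndex K = (MulAction.orbit K x).ncard := by
      rw [← MulAction.index_stabilizer]
      unfold Subgroup.relIndex
      congr 1
    have h3 : MulAction.orbit K x = {z | π z = π x} := by
      ext z
      constructor
      · rintro ⟨σ, rfl⟩
        change π ((σ : G) • x) = π x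
        rw [hπ]
        exact σ.2
      · intro hz
        obtain ⟨σ, rfl⟩ := htr x z
        refine ⟨⟨σ, ?_⟩, rfl⟩
        change σ • π x = π x
        rw [← hπ]
        exact hz
    rw [h2, h3]
    rfl
  have h2 : (H ⊔ S).relIndex K ∣ S.relIndex K := Subgroup.relIndex_dvd_of_le_left K le_sup_right
  have h3 : (H ⊔ S).relIndex K ∣ H.relIndex K := Subgroup.relIndex_dvd_of_le_left K le_sup_left
  have h5 : (H ⊔ S).relIndex K = 1 := by
    rw [h1] at h2
    exact Nat.eq_one_of_dvd_coprimes hco (h2.trans hb) h3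
  have h6 : K ≤ H ⊔ S := Subgroup.relIndex_eq_one.1 h5
  obtain ⟨σ, rfl⟩ := htr x x'
  have hσ : σ ∈ K := by
    change σ • π x = π x
    rw [← hπ]
    exact hxx.symm
  obtain ⟨h, hh, s, hs, rfl⟩ := Subgroup.mem_sup_of_normal_left.1 (h6 hσ)
  refine ⟨h, hh, ?_⟩
  rw [mul_smul, MulAction.mem_stabilizer_iff.1 hs]

/-- The data over a base. -/
structure DatM {G X Y ι : Type} [Group G] [MulAction G X] [MulAction G Y] [Fintype X] [Fintype Y]
    [DecidableEq Y] (κ : Y → ι)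
    (H : Subgroup G) (π : X → Y) (c : X → X) (c' : Y → Y) (r : X → ℕ) (n' : ι → ℕ)
    (t : Y → ℕ) (N : ι → ℕ) : Prop where
  normal : H.Normal
  triv : ∀ σ ∈ H, ∀ y : Y, σ • y = y
  cop : ∀ y : Y, Nat.Coprime (N (κ y)) (H.relIndex (MulAction.stabilizer G y))
  kg : ∀ (σ : G) y, κ (σ • y) = κ y
  kc : ∀ y, κ (c' y) = κ y
  eqv : ∀ (σ : G) x, π (σ • x) = σ • π x
  tr : ∀ x x' : X, κ (π x) = κ (π x') → ∃ σ : G, σ • x = x'
  surj : ∀ y, ∃ x, π x = y
  cc : ∀ x, c (c x) = x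
  cg : ∀ (σ : G) x, c (σ • x) = σ • c x
  pc : ∀ x, π (c x) = c' (π x)
  trH : ∀ x z, π x = π z → ∃ σ ∈ H, σ • x = z
  sum : ∀ x, r x + r (c x) = n' (κ (π x))
  fib : ∀ y, ∑ x : {x // π x = y}, r x = t y
  card : ∀ y, n' (κ y) * Fintype.card {x // π x = y} = N (κ y)

/-- The conclusion. -/
structure ConM {G X : Type} [Group G] [MulAction G X] [Fintype X] (c : X → X) (r : X → ℕ) :
    Prop where
  cop : ∀ x : X, ∃ σ : G, Nat.Coprime (r (σ • x)) (r (c (σ • x)))
  sep : ∀ x y : X, y ≠ x → y ≠ c x → r x + r (c x) = r y + r (c y) → r x + r (c x) ≠ 1 →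
    (∀ σ : G, r (σ • x) = r (σ • y) ∨
    (r (σ • x) * r (c (σ • x)) = 0 ∧ r (σ • y) * r (c (σ • y)) = 0)) → False
  nd : ∀ lam : X → ℂ, (∀ x, lam (c x) = - lam x) →
    (∀ σ : G, ∑ x, ((r (σ • x) : ℂ) - r (c (σ • x))) * lam x = 0) → lam = 0

variable {g : ℕ} {Z : Matrix (Fin g) (Fin g) ℂ}

section

variable (M : Pol Z) {Y : Type} [Fintype Y] [MulAction (RingAut ℂ) Y] [DecidableEq Y]
  {P : Y → Matrix (Fin g ⊕ Fin g) (Fin g ⊕ Fin g) ℂ} (hP : IdF Z P)
  {ι : Type}
include M hP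

/-- **The data of a family of factors.** -/
theorem dat_fam
    (κ : Y → ι) (hκ : ∀ (σ : RingAut ℂ) y, κ (σ • y) = κ y)
    (n N : ι → ℕ) (t : Y → ℕ) (hN0 : ∀ i, 0 < N i) (hn0 : ∀ i, 0 < n i)
    (hpair : ∀ (φ ψ : Pr Z) (y y' : Y), κ y = κ y' → rkP P φ y ≠ 0 → rkP P ψ y' ≠ 0 →
      ∃ σ : RingAut ℂ, Eqv (M.act σ φ) ψ ∧ σ • y = y')
    (hdeg : ∀ (φ : Pr Z) (y : Y), rkP P φ y ≠ 0 → n (κ y) ≤ rkP P φ y)
    (hdim : ∀ y, trace (P y) = ((n (κ y) * N (κ y) : ℕ) : ℂ))
    (hsig : ∀ y, trace ((2 : ℂ)⁻¹ • ((1 + DZ Z) * P y)) = ((n (κ y) * t y : ℕ) : ℂ))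
    (hcop : ∀ y : Y, Nat.Coprime (N (κ y)) (Nat.card
      {π : (MulAction.toPermHom (RingAut ℂ) Y).range // (π : Equiv.Perm Y) y = y}))
    (hplace : (∀ y, t y + t ((conjEq : RingAut ℂ) • y) = N (κ y)) →
      ∀ i, ∃ y, κ y = i ∧ Nat.Coprime (t y) (N i))
    (hsepY : (∀ y, t y + t ((conjEq : RingAut ℂ) • y) = N (κ y)) →
      (∀ y y' : Y, κ y = κ y' → ∃ σ : RingAut ℂ, σ • y = y') →
      ∀ y y' : Y, y ≠ y' → ∃ σ : RingAut ℂ, t (σ • y) ≠ t (σ • y')) :
    ∃ (_ : Fintype (Cl Z)) (H : Subgroup (RingAut ℂ)) (π : Cl Z → Y) (n' : ι → ℕ),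
      (∀ y, t y + t ((conjEq : RingAut ℂ) • y) = N (κ y)) ∧
      (∀ y y' : Y, κ y = κ y' → ∃ σ : RingAut ℂ, σ • y = y') ∧
      (letI := clAct M
       DatM κ H π (clBar M) (fun y => (conjEq : RingAut ℂ) • y) (clMu M) n' t N) := by
  classical
  obtain ⟨I, hI, ε, f1, f2, f3⟩ := M.exists_family
  have Fm : Pol.Fam ε := ⟨f1, f2, f3⟩
  have : Finite (Cl Z) := cl_finite M
  let _ : Fintype (Cl Z) := Fintype.ofFinite _
  let _ := clAct M
  have hsmx : ∀ (σ : RingAut ℂ) (φ : Pr Z), σ • cl φ = cl (M.act σ φ) := fun _ _ => rfl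
  -- the multiplicities
  have R1 : ∀ (σ : RingAut ℂ) (x : Cl Z) (y : Y), clRkP P (σ • x) (σ • y) = clRkP P x y := by
    intro σ x y
    obtain ⟨φ, rfl⟩ := cl_surj x
    rw [hsmx, rkP_cl M Fm hP, rkP_cl M Fm hP, rkP_act M Fm hP]
  have R2 : ∀ (x : Cl Z) (y : Y), clRkP P (clBar M x) ((conjEq : RingAut ℂ) • y) =
      clRkP P x y := by
    intro x y
    obtain ⟨φ, rfl⟩ := cl_surj x
    rw [bar_cl, rkP_cl M Fm hP, rkP_cl M Fm hP, rkP_conj M Fm hP]
  have R3 : ∀ {x x' : Cl Z} {y y' : Y}, κ y = κ y' → clRkP P x y ≠ 0 → clRkP P x' y' ≠ 0 →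
      ∃ σ : RingAut ℂ, σ • x = x' ∧ σ • y = y' := by
    intro x x' y y' hk h1 h2
    obtain ⟨φ, rfl⟩ := cl_surj x
    obtain ⟨ψ, rfl⟩ := cl_surj x'
    rw [rkP_cl M Fm hP] at h1 h2
    obtain ⟨σ, h3, h4⟩ := hpair φ ψ y y' hk h1 h2
    exact ⟨σ, cl_eq.2 h3, h4⟩
  have R4 : ∀ {x x' : Cl Z} {y y' : Y}, κ y = κ y' → clRkP P x y ≠ 0 → clRkP P x' y' ≠ 0 →
      clRkP P x y = clRkP P x' y' := by
    intro x x' y y' hk h1 h2
    obtain ⟨σ, rfl, rfl⟩ := R3 hk h1 h2
    rw [R1]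
  have R5 : ∀ (x : Cl Z) (y : Y), clRkP P x y ≠ 0 → n (κ y) ≤ clRkP P x y := by
    intro x y h
    obtain ⟨φ, rfl⟩ := cl_surj x
    rw [rkP_cl M Fm hP] at h ⊢
    exact hdeg φ y h
  have D1 : ∀ y, ∑ x : Cl Z, (clMu M x + clMu M (clBar M x)) * clRkP P x y =
      n (κ y) * N (κ y) := by
    intro y
    have h1 := hom_cls M Fm hP y
    rw [hdim] at h1
    exact_mod_cast h1.symm
  have D2 : ∀ y, ∑ x : Cl Z, clMu M x * clRkP P x y = n (κ y) * t y := by
    intro y
    have h1 := tan_cls M Fm hP y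
    rw [hsig] at h1
    exact_mod_cast h1.symm
  have hcc : ∀ x : Cl Z, clBar M (clBar M x) = x := by
    intro x
    obtain ⟨φ, rfl⟩ := cl_surj x
    rw [bar_cl, bar_cl, M.bar_bar]
  have hcg : ∀ (σ : RingAut ℂ) (x : Cl Z), clBar M (σ • x) = σ • clBar M x := by
    intro σ x
    obtain ⟨φ, rfl⟩ := cl_surj x
    change cl (M.bar (M.act σ φ)) = cl (M.act σ (M.bar φ))
    rw [M.bar_act]
  have tsum : ∀ y, t y + t ((conjEq : RingAut ℂ) • y) = N (κ y) := by
    intro y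
    have h1 : ∑ x : Cl Z, clMu M x * clRkP P x ((conjEq : RingAut ℂ) • y) =
        ∑ x : Cl Z, clMu M (clBar M x) * clRkP P x y := by
      refine Fintype.sum_equiv
        { toFun := clBar M, invFun := clBar M, left_inv := hcc, right_inv := hcc } _ _ fun x => ?_
      change _ = clMu M (clBar M (clBar M x)) * clRkP P (clBar M x) y
      rw [hcc, ← R2 (clBar M x) y, hcc]
    have h2 : n (κ y) * (t y + t ((conjEq : RingAut ℂ) • y)) = n (κ y) * N (κ y) := by
      have h3 := D2 ((conjEq : RingAut ℂ) • y)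
      rw [hκ] at h3
      rw [mul_add, ← D2, ← h3, h1, ← Finset.sum_add_distrib, ← D1 y]
      refine Finset.sum_congr rfl fun x _ => ?_
      rw [← add_mul]
    exact Nat.eq_of_mul_eq_mul_left (hn0 _) h2
  have Rex : ∀ y : Y, ∃ x : Cl Z, clRkP P x y ≠ 0 := by
    intro y
    by_contra hcon
    push Not at hcon
    have h1 := D1 y
    rw [Finset.sum_eq_zero (fun x _ => by rw [hcon x, mul_zero])] at h1
    have h2 : 0 < n (κ y) * N (κ y) := Nat.mul_pos (hn0 _) (hN0 _)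
    omega
  have htrY : ∀ y y' : Y, κ y = κ y' → ∃ σ : RingAut ℂ, σ • y = y' := by
    intro y y' h
    obtain ⟨x1, hx1⟩ := Rex y
    obtain ⟨x2, hx2⟩ := Rex y'
    obtain ⟨σ, -, hσ⟩ := R3 h hx1 hx2
    exact ⟨σ, hσ⟩
  -- the base points
  choose y₀ hy₀ hcopN using hplace tsum
  choose x₀ hx₀ using fun i => Rex (y₀ i)
  obtain ⟨ρ, hρdef⟩ : ∃ ρ : ι → ℕ, ρ = fun i => clRkP P (x₀ i) (y₀ i) := ⟨_, rfl⟩
  have hρ : ∀ (x : Cl Z) (y : Y), clRkP P x y ≠ 0 → clRkP P x y = ρ (κ y) := by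
    intro x y h
    rw [hρdef]
    exact R4 (hy₀ _).symm h (hx₀ _)
  obtain ⟨n', hn'def⟩ : ∃ n' : ι → ℕ,
      n' = fun i => clMu M (x₀ i) + clMu M (clBar M (x₀ i)) := ⟨_, rfl⟩
  have hmuact : ∀ (σ : RingAut ℂ) (x : Cl Z),
      clMu M (σ • x) + clMu M (clBar M (σ • x)) = clMu M x + clMu M (clBar M x) := by
    intro σ x
    obtain ⟨φ, rfl⟩ := cl_surj x
    change mu (M.act σ φ) + mu (M.bar (M.act σ φ)) = mu φ + mu (M.bar φ)
    rw [M.mu_act]
  have hmu : ∀ (x : Cl Z) (y : Y), clRkP P x y ≠ 0 →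
      clMu M x + clMu M (clBar M x) = n' (κ y) := by
    intro x y h
    obtain ⟨σ, h1, -⟩ := R3 (hy₀ (κ y)) (hx₀ (κ y)) h
    rw [hn'def, ← h1, hmuact]
  have hnρ : ∀ i, n i ≤ ρ i := by
    intro i
    have h1 := R5 (x₀ i) (y₀ i) (hx₀ i)
    rw [hρ _ _ (hx₀ i), hy₀] at h1
    exact h1
  have hind : ∀ (f : Cl Z → ℕ) (y : Y), ∑ x : Cl Z, f x * clRkP P x y =
      ρ (κ y) * ∑ x ∈ Finset.univ.filter (fun x : Cl Z => clRkP P x y ≠ 0), f x := by
    intro f y
    rw [Finset.sum_filter, Finset.mul_sum]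
    refine Finset.sum_congr rfl fun x _ => ?_
    by_cases h : clRkP P x y = 0
    · rw [h, if_neg (not_not.2 rfl)]
      ring
    · rw [if_pos h, hρ x y h, mul_comm]
  have hmusum : ∀ y, ∑ x ∈ Finset.univ.filter (fun x : Cl Z => clRkP P x y ≠ 0),
      (clMu M x + clMu M (clBar M x)) =
      ∑ x ∈ Finset.univ.filter (fun x : Cl Z => clRkP P x y ≠ 0), n' (κ y) :=
    fun y => Finset.sum_congr rfl fun x hx => hmu x y (Finset.mem_filter.1 hx).2
  -- the multiplicity is the degree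
  have hρn : ∀ i, ρ i = n i := by
    intro i
    have e1 := D2 (y₀ i)
    rw [hind] at e1
    have e2 := D1 (y₀ i)
    rw [hind (fun x => clMu M x + clMu M (clBar M x))] at e2
    rw [hmusum] at e2
    rw [hy₀] at e1 e2
    have hs : 0 < ρ i := by
      have := hnρ i
      have := hn0 i
      omega
    obtain ⟨h, a, b, hh, hab, hsa, hnb⟩ := Nat.exists_coprime' (m := ρ i) (n := n i)
      (Nat.gcd_pos_of_pos_left _ hs)
    have e3 : a * (∑ x ∈ Finset.univ.filter (fun x : Cl Z => clRkP P x (y₀ i) ≠ 0), clMu M x) =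
        b * t (y₀ i) := by
      apply Nat.eq_of_mul_eq_mul_right hh
      calc a * (∑ x ∈ Finset.univ.filter (fun x : Cl Z => clRkP P x (y₀ i) ≠ 0), clMu M x) * h =
          a * h * (∑ x ∈ Finset.univ.filter (fun x : Cl Z => clRkP P x (y₀ i) ≠ 0), clMu M x) := by ring
      _ = b * h * t (y₀ i) := by rw [← hsa, ← hnb, e1]
      _ = b * t (y₀ i) * h := by ring
    have e4 : a * (∑ x ∈ Finset.univ.filter (fun x : Cl Z => clRkP P x (y₀ i) ≠ 0), n' i) =
        b * N i := by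
      apply Nat.eq_of_mul_eq_mul_right hh
      calc a * (∑ x ∈ Finset.univ.filter (fun x : Cl Z => clRkP P x (y₀ i) ≠ 0), n' i) * h =
          a * h * (∑ x ∈ Finset.univ.filter (fun x : Cl Z => clRkP P x (y₀ i) ≠ 0), n' i) := by ring
      _ = b * h * N i := by rw [← hsa, ← hnb, e2]
      _ = b * N i * h := by ring
    have d1 : a ∣ t (y₀ i) := hab.dvd_of_dvd_mul_left ⟨_, e3.symm⟩
    have d2 : a ∣ N i := hab.dvd_of_dvd_mul_left ⟨_, e4.symm⟩
    have ha : a = 1 := Nat.eq_one_of_dvd_coprimes (hcopN i) d1 d2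
    rw [ha, one_mul] at hsa
    have h1 : ρ i ∣ n i := ⟨b, by rw [hnb, hsa, mul_comm]⟩
    have h2 := Nat.le_of_dvd (hn0 i) h1
    have h3 := hnρ i
    omega
  have D1' : ∀ y : Y, n' (κ y) * (Finset.univ.filter (fun x : Cl Z => clRkP P x y ≠ 0)).card =
      N (κ y) := by
    intro y
    have h1 := D1 y
    rw [hind (fun x => clMu M x + clMu M (clBar M x)), hmusum, Finset.sum_const, smul_eq_mul,
      hρn] at h1
    rw [mul_comm]
    exact Nat.eq_of_mul_eq_mul_left (hn0 _) h1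
  have D2' : ∀ y : Y, ∑ x ∈ Finset.univ.filter (fun x : Cl Z => clRkP P x y ≠ 0), clMu M x = t y := by
    intro y
    have h1 := D2 y
    rw [hind, hρn] at h1
    exact Nat.eq_of_mul_eq_mul_left (hn0 _) h1
  -- the subgroup which acts trivially on the embeddings
  obtain ⟨H, hH⟩ : ∃ H : Subgroup (RingAut ℂ),
      H = (MulAction.toPermHom (RingAut ℂ) Y).ker := ⟨_, rfl⟩
  have hHn : H.Normal := by
    rw [hH]
    infer_instance
  have hHt : ∀ σ ∈ H, ∀ y : Y, σ • y = y := by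
    intro σ hσ y
    rw [hH, MonoidHom.mem_ker] at hσ
    exact congrArg (fun e : Equiv.Perm Y => e y) hσ
  have hHi : ∀ y : Y, Nat.Coprime (N (κ y))
      (H.relIndex (MulAction.stabilizer (RingAut ℂ) y)) := by
    intro y
    rw [hH, ker_rel]
    exact hcop y
  -- the linked pairs
  have hfib : ∀ (x z : Cl Z) (y : Y), clRkP P x y ≠ 0 → clRkP P z y ≠ 0 →
      ∃ σ ∈ H, σ • x = z := by
    intro x z y hx hz
    let W : Type := {w : Cl Z × Y // clRkP P w.1 w.2 ≠ 0 ∧ κ w.2 = κ y}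
    let _ : Fintype W :=
      inferInstanceAs (Fintype {w : Cl Z × Y // clRkP P w.1 w.2 ≠ 0 ∧ κ w.2 = κ y})
    let _ : MulAction (RingAut ℂ) W :=
      { smul := fun σ w => ⟨(σ • w.1.1, σ • w.1.2), by
          rw [R1, hκ]
          exact w.2⟩
        one_smul := fun w => Subtype.ext (Prod.ext (one_smul _ w.1.1) (one_smul _ w.1.2))
        mul_smul := fun σ ρ w => Subtype.ext (Prod.ext (mul_smul σ ρ w.1.1)
          (mul_smul σ ρ w.1.2)) }
    obtain ⟨σ, hσ, h1⟩ := fib_trN' (G := RingAut ℂ) (X := W) (Y := Y) (H := H) hHn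
      (N := N (κ y)) (π := fun w => w.1.2) (fun _ _ => rfl) (by
        intro w w'
        obtain ⟨σ, h1, h2⟩ := R3 (w.2.2.trans w'.2.2.symm) w.2.1 w'.2.1
        exact ⟨σ, Subtype.ext (Prod.ext h1 h2)⟩) (x := ⟨(x, y), hx, rfl⟩)
        (x' := ⟨(z, y), hz, rfl⟩) (hHi y) rfl (by
        refine Dvd.intro_left (n' (κ y)) ?_
        rw [← D1' y, Nat.card_eq_fintype_card, ← Fintype.card_coe]
        congr 1
        exact Fintype.card_congr
          { toFun := fun w => ⟨w.1.1.1, by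
              have h2 : w.1.1.2 = y := w.2
              have h3 := w.1.2.1
              rw [h2] at h3
              exact Finset.mem_filter.2 ⟨Finset.mem_univ _, h3⟩⟩
            invFun := fun z => ⟨⟨(z.1, y), (Finset.mem_filter.1 z.2).2, rfl⟩, rfl⟩
            left_inv := by
              rintro ⟨⟨⟨z, τ'⟩, h2, h2'⟩, h3⟩
              have h4 : τ' = y := h3
              subst h4
              rfl
            right_inv := fun z => rfl })
    exact ⟨σ, hσ, congrArg (fun w : W => w.1.1) h1⟩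
  -- each class is linked with one member
  have U : ∀ (x : Cl Z) (y y' : Y), clRkP P x y ≠ 0 → clRkP P x y' ≠ 0 → y = y' := by
    intro x y y' h1 h2
    by_contra hne
    obtain ⟨σ, hσ⟩ := hsepY tsum htrY y y' hne
    apply hσ
    rw [← D2', ← D2']
    congr 1
    ext z
    simp only [Finset.mem_filter, Finset.mem_univ, true_and]
    have h3 : clRkP P (σ • x) (σ • y) ≠ 0 := by rwa [R1]
    have h4 : clRkP P (σ • x) (σ • y') ≠ 0 := by rwa [R1]
    constructor
    · intro h5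
      obtain ⟨ρ, hρ, rfl⟩ := hfib _ _ _ h3 h5
      rw [← hHt ρ hρ (σ • y'), R1]
      exact h4
    · intro h5
      obtain ⟨ρ, hρ, rfl⟩ := hfib _ _ _ h4 h5
      rw [← hHt ρ hρ (σ • y), R1]
      exact h3
  have Ex : ∀ x : Cl Z, ∃ y : Y, clRkP P x y ≠ 0 := by
    intro x
    obtain ⟨φ, rfl⟩ := cl_surj x
    obtain ⟨y, hy⟩ := exists_rkP M Fm hP φ
    exact ⟨y, by rwa [rkP_cl M Fm hP]⟩
  choose π hπ using Ex
  have hπ' : ∀ (x : Cl Z) (y : Y), π x = y ↔ clRkP P x y ≠ 0 := by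
    intro x y
    constructor
    · rintro rfl
      exact hπ x
    · intro h
      exact U x _ _ (hπ x) h
  have hfilt : ∀ y, Finset.univ.filter (fun x => π x = y) =
      Finset.univ.filter (fun x : Cl Z => clRkP P x y ≠ 0) := by
    intro y
    ext x
    simp only [Finset.mem_filter, Finset.mem_univ, true_and, hπ']
  have eqv : ∀ (σ : RingAut ℂ) (x : Cl Z), π (σ • x) = σ • π x := by
    intro σ x
    rw [hπ', R1]
    exact hπ x
  exact ⟨inferInstance, H, π, n', tsum, htrY,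
    { normal := hHn
      triv := hHt
      cop := hHi
      kg := hκ
      kc := fun y => hκ _ y
      eqv := eqv
      tr := by
        intro x x' h
        obtain ⟨σ, h1, -⟩ := R3 h (hπ x) (hπ x')
        exact ⟨σ, h1⟩
      surj := by
        intro y
        obtain ⟨x, hx⟩ := Rex y
        exact ⟨x, (hπ' x y).2 hx⟩
      cc := hcc
      cg := hcg
      pc := by
        intro x
        rw [hπ', R2]
        exact hπ x
      trH := fun x z hxz => hfib x z (π z) (by rw [← hxz]; exact hπ x) (hπ z)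
      sum := fun x => hmu x _ (hπ x)
      fib := by
        intro y
        rw [← D2', ← hfilt]
        exact (Finset.sum_subtype _ (fun x => by simp) _).symm
      card := by
        intro y
        rw [Fintype.card_subtype, hfilt, D1'] }⟩

end

/-- The conditions of the criterion follow from the combinatorial conditions. -/
theorem conds_of_conM (M : Pol Z) [Fintype (Cl Z)]
    (S : letI := clAct M
      ConM (G := RingAut ℂ) (clBar M) (clMu M)) :
    M.Cop ∧ M.Sep ∧ M.Nd := by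
  classical
  let _ := clAct M
  refine ⟨?_, ?_, ?_⟩
  · intro φ
    obtain ⟨σ, hσ⟩ := S.cop (cl φ)
    exact ⟨σ, hσ⟩
  · intro φ ψ h1 h2 h3 h4 h5
    exfalso
    refine S.sep (cl φ) (cl ψ) (fun h => h1 (cl_eq.1 h)) (fun h => h2 (cl_eq.1 h)) h3 h4 ?_
    intro σ
    exact h5 σ
  · intro J hJ η Fη lam hl1 hl2 hl3 φ
    have hcbar : ∀ ψ : Pr Z, cnt η (M.bar ψ) = cnt η ψ := by
      intro ψ
      rw [← cnt_act M Fη conjEq ψ, cnt_eqv (M.act_conj ψ)]
    let lam' : Cl Z → ℂ := fun x => Quotient.liftOn' (s₁ := prSetoid Z) x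
      (fun ψ => (cnt η ψ : ℂ) * lam ψ) (fun a b h => by
        change (cnt η a : ℂ) * lam a = (cnt η b : ℂ) * lam b
        rw [cnt_eqv h, hl1 a b h])
    have h0 : lam' = 0 := by
      refine S.nd lam' ?_ ?_
      · intro x
        obtain ⟨ψ, rfl⟩ := cl_surj x
        change (cnt η (M.bar ψ) : ℂ) * lam (M.bar ψ) = -((cnt η ψ : ℂ) * lam ψ)
        rw [hcbar, hl2]
        ring
      · intro σ
        have h2 := hl3 σ
        rw [← Finset.sum_fiberwise (s := Finset.univ) (fun i => cl (η i))] at h2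
        rw [← h2]
        refine Finset.sum_congr rfl fun x _ => ?_
        obtain ⟨ψ, rfl⟩ := cl_surj x
        change ((mu (M.act σ ψ) : ℂ) - mu (M.bar (M.act σ ψ))) * ((cnt η ψ : ℂ) * lam ψ) = _
        have h3 : ∀ i ∈ Finset.univ.filter (fun i => cl (η i) = cl ψ),
            ((mu (M.act σ (η i)) : ℂ) - mu (M.bar (M.act σ (η i)))) * lam (η i) =
            ((mu (M.act σ ψ) : ℂ) - mu (M.bar (M.act σ ψ))) * lam ψ := by
          intro i hi
          have h4 : Eqv (η i) ψ := cl_eq.1 (Finset.mem_filter.1 hi).2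
          rw [M.mu_eqv (M.eqv_act h4 σ), M.mu_eqv (M.eqv_bar (M.eqv_act h4 σ)), hl1 _ _ h4]
        rw [Finset.sum_congr rfl h3, Finset.sum_const, nsmul_eq_mul]
        have h5 : (Finset.univ.filter (fun i => cl (η i) = cl ψ)).card = cnt η ψ := by
          unfold cnt
          congr 1
          ext i
          simp only [Finset.mem_filter, Finset.mem_univ, true_and, cl_eq]
        rw [h5]
        ring
    have h1 := congrFun h0 (cl φ)
    have h2 : (cnt η φ : ℂ) * lam φ = 0 := h1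
    exact (mul_eq_zero.1 h2).resolve_left (Nat.cast_ne_zero.2 (cnt_pos M Fη _).ne')

end Pool.Agent.H943.KP
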