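import Mathlib
import Pool.Agent.H943.KP.Gen

/-!
# Averages over coprime blocks
-/

set_option autoImplicit false
set_option linter.unusedSectionVars false

open Finset MulAction

namespace Pool.Agent.H943.KP

/-- A subgroup of index prime to the order of a transitive set is transitive. -/
theorem tr_of_cop {Γ Y : Type} [Group Γ] [MulAction Γ Y] [Fintype Y]
    (htr : ∀ x y : Y, ∃ γ : Γ, γ • x = y) (K : Subgroup Γ)
    (hco : Nat.Coprime (Fintype.card Y) K.index) (x y : Y) : ∃ γ ∈ K, γ • x = y := by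
  classical
  have h1 : (stabilizer Γ x).index = Fintype.card Y := by
    rw [index_stabilizer, ← Nat.card_eq_fintype_card, ← Set.ncard_univ]
    congr 1
    refine Set.eq_univ_of_forall fun z => ?_
    obtain ⟨γ, hγ⟩ := htr x z
    exact ⟨γ, hγ⟩
  have h2 : (stabilizer Γ x).relIndex K * K.index = ((stabilizer Γ x) ⊓ K).index := by
    rw [← Subgroup.inf_relIndex_right, Subgroup.relIndex_mul_index inf_le_right]
  have h3 : Fintype.card Y ∣ (stabilizer Γ x).relIndex K * K.index := by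
    rw [h2, ← h1]
    exact Subgroup.index_dvd_of_le inf_le_left
  have h5 : Fintype.card Y ∣ (stabilizer Γ x).relIndex K := hco.dvd_of_dvd_mul_right h3
  have h6 : (stabilizer Γ x).relIndex K = (orbit K x).ncard := by
    rw [← index_stabilizer]
    unfold Subgroup.relIndex
    congr 1
  have h7 : (orbit K x).ncard ≤ Fintype.card Y := by
    rw [← Nat.card_eq_fintype_card, ← Set.ncard_univ]
    exact Set.ncard_le_ncard (Set.subset_univ _)
  have h8 : 0 < (orbit K x).ncard := by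
    rw [Set.ncard_pos]
    exact ⟨x, mem_orbit_self x⟩
  have h9 : (orbit K x).ncard = Fintype.card Y :=
    le_antisymm h7 (Nat.le_of_dvd h8 (by rw [← h6]; exact h5))
  have h10 : orbit K x = Set.univ := by
    refine Set.eq_of_subset_of_ncard_le (Set.subset_univ _) ?_
    rw [Set.ncard_univ, Nat.card_eq_fintype_card, h9]
  obtain ⟨γ, hγ⟩ : y ∈ orbit K x := by
    rw [h10]
    trivial
  exact ⟨γ, γ.2, hγ⟩

/-- Sums over a group. -/
theorem sum_grp {Γ V : Type} [Group Γ] [Fintype Γ] [MulAction Γ V] (W : Finset V)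
    (hW : ∀ γ : Γ, ∀ w ∈ W, γ • w ∈ W) {w₀ : V} (htr : ∀ w ∈ W, ∃ γ : Γ, γ • w₀ = w)
    (f : V → ℝ) :
    (W.card : ℝ) * ∑ γ : Γ, f (γ • w₀) = Fintype.card Γ * ∑ w ∈ W, f w := by
  have h1 : ∀ w ∈ W, ∑ γ : Γ, f (γ • w) = ∑ γ : Γ, f (γ • w₀) := by
    intro w hw
    obtain ⟨δ, rfl⟩ := htr w hw
    refine Fintype.sum_equiv (Equiv.mulRight δ) _ _ fun γ => ?_
    rw [Equiv.coe_mulRight, mul_smul]
  have h2 : ∀ γ : Γ, ∑ w ∈ W, f (γ • w) = ∑ w ∈ W, f w := by
    intro γ
    refine Finset.sum_bij' (fun w _ => γ • w) (fun w _ => γ⁻¹ • w) (fun w hw => hW γ w hw)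
      (fun w hw => hW γ⁻¹ w hw) (fun w _ => inv_smul_smul γ w) (fun w _ => smul_inv_smul γ w)
      (fun w _ => rfl)
  calc (W.card : ℝ) * ∑ γ : Γ, f (γ • w₀) = ∑ w ∈ W, ∑ γ : Γ, f (γ • w) := by
        rw [Finset.sum_congr rfl h1, Finset.sum_const, nsmul_eq_mul]
  _ = ∑ γ : Γ, ∑ w ∈ W, f (γ • w) := Finset.sum_comm
  _ = _ := by rw [Finset.sum_congr rfl fun γ _ => h2 γ, Finset.sum_const, nsmul_eq_mul,
      Finset.card_univ]

section

variable {G X Y : Type} [Group G] [MulAction G X] [MulAction G Y] [Fintype X] [Fintype Y]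
  [DecidableEq Y] {H : Subgroup G} {π : X → Y}
  (htriv : ∀ σ ∈ H, ∀ y : Y, σ • y = y) (heqv : ∀ (σ : G) x, π (σ • x) = σ • π x)
  (htrH : ∀ x z, π x = π z → ∃ σ ∈ H, σ • x = z)
include htriv heqv htrH

/-- The group is transitive on the products of the fibres of coprime orders. -/
theorem tr_two {x z x' z' : X} (h : π x = π z) (h' : π x' = π z')
    (hco : Nat.Coprime (Fintype.card {w // π w = π z}) (Fintype.card {w // π w = π z'})) :
    ∃ σ ∈ H, σ • x = z ∧ σ • x' = z' := by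
  classical
  obtain ⟨σ, hσ, hσx⟩ := htrH x z h
  let A : ∀ y, MulAction H {w // π w = y} := fun y =>
    { smul := fun γ w => ⟨(γ : G) • w.1, by rw [heqv, w.2, htriv γ γ.2]⟩
      one_smul := fun w => Subtype.ext (one_smul G w.1)
      mul_smul := fun γ δ w => Subtype.ext (mul_smul (γ : G) (δ : G) w.1) }
  have htr : ∀ y (a b : {w // π w = y}), ∃ γ : H, (A y).smul γ a = b := by
    rintro y ⟨a, ha⟩ ⟨b, hb⟩
    obtain ⟨γ, hγ, h1⟩ := htrH a b (ha.trans hb.symm)
    exact ⟨⟨γ, hγ⟩, Subtype.ext h1⟩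
  let _ := A (π z)
  let _ := A (π z')
  have hidx : (stabilizer H (⟨z, rfl⟩ : {w // π w = π z})).index =
      Fintype.card {w // π w = π z} := by
    rw [index_stabilizer, ← Nat.card_eq_fintype_card, ← Set.ncard_univ]
    congr 1
    refine Set.eq_univ_of_forall fun w => ?_
    obtain ⟨γ, hγ⟩ := htr _ ⟨z, rfl⟩ w
    exact ⟨γ, hγ⟩
  have hσx' : π (σ • x') = π z' := by rw [heqv, htriv σ hσ, h']
  obtain ⟨γ, hγ, h1⟩ := tr_of_cop (Γ := H) (Y := {w // π w = π z'}) (htr _)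
    (stabilizer H (⟨z, rfl⟩ : {w // π w = π z})) (by rw [hidx]; exact hco.symm)
    ⟨σ • x', hσx'⟩ ⟨z', rfl⟩
  refine ⟨γ * σ, H.mul_mem γ.2 hσ, ?_, ?_⟩
  · rw [mul_smul, hσx]
    exact congrArg Subtype.val (mem_stabilizer_iff.1 hγ)
  · rw [mul_smul]
    exact congrArg Subtype.val h1

/-- **The average over a block.** -/
theorem avg_block (s lam : X → ℝ) (h : ∀ σ : G, ∑ x, s (σ • x) * lam x = 0)
    (A : X → Prop) [DecidablePred A]
    (hco : ∀ x x', A x → ¬ A x' →
      Nat.Coprime (Fintype.card {w // π w = π x}) (Fintype.card {w // π w = π x'})) (σ : G) :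
    ∑ x ∈ univ.filter A, s (σ • x) * lam x =
      ∑ x ∈ univ.filter A, lam x * ((∑ z ∈ univ.filter (fun z => π z = π x), s (σ • z)) /
        (univ.filter (fun z => π z = π x)).card) := by
  classical
  let Γ := (MulAction.toPermHom H X).range
  have hΓ : Finite Γ := inferInstance
  let _ : Fintype Γ := Fintype.ofFinite Γ
  have hΓH : ∀ γ : Γ, ∃ τ ∈ H, ∀ x : X, γ • x = τ • x := by
    rintro ⟨_, ⟨τ, rfl⟩⟩
    exact ⟨τ, τ.2, fun x => rfl⟩
  have hHΓ : ∀ τ ∈ H, ∃ γ : Γ, ∀ x : X, γ • x = τ • x := by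
    intro τ hτ
    exact ⟨⟨MulAction.toPermHom H X ⟨τ, hτ⟩, ⟨_, rfl⟩⟩, fun x => rfl⟩
  have hπΓ : ∀ (γ : Γ) (x : X), π (γ • x) = π x := by
    intro γ x
    obtain ⟨τ, hτ, h1⟩ := hΓH γ
    rw [h1, heqv, htriv τ hτ]
  let m : Y → ℝ := fun y => ((univ.filter (fun z => π z = y)).card : ℝ)
  let S1 : Y → ℝ := fun y => ∑ z ∈ univ.filter (fun z => π z = y), s (σ • z)
  have hm : ∀ x, m (π x) ≠ 0 := by
    intro x
    have h1 : 0 < (univ.filter (fun z => π z = π x)).card := Finset.card_pos.2 ⟨x, by simp⟩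
    exact Nat.cast_ne_zero.2 h1.ne'
  have hg0 : (Fintype.card Γ : ℝ) ≠ 0 := Nat.cast_ne_zero.2 Fintype.card_ne_zero
  have e1 : ∀ x, ∑ γ : Γ, s (σ • γ • x) = Fintype.card Γ * (S1 (π x) / m (π x)) := by
    intro x
    have h1 := sum_grp (Γ := Γ) (univ.filter (fun z => π z = π x)) (by
      intro γ w hw
      rw [mem_filter] at hw ⊢
      exact ⟨mem_univ _, by rw [hπΓ, hw.2]⟩) (w₀ := x) (by
      intro w hw
      rw [mem_filter] at hw
      obtain ⟨τ, hτ, h2⟩ := htrH x w hw.2.symm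
      obtain ⟨γ, hγ⟩ := hHΓ τ hτ
      exact ⟨γ, by rw [hγ, h2]⟩) (fun z => s (σ • z))
    change m (π x) * _ = Fintype.card Γ * S1 (π x) at h1
    rw [mul_div_assoc', eq_div_iff (hm x), ← h1]
    ring
  have e2 : ∀ x x', A x → ¬ A x' → ∑ γ : Γ, s (σ • γ • x) * s (σ • γ • x') =
      Fintype.card Γ * ((S1 (π x) / m (π x)) * (S1 (π x') / m (π x'))) := by
    intro x x' hx hx'
    have h1 := sum_grp (Γ := Γ) (V := X × X) ((univ.filter (fun z => π z = π x)) ×ˢ
      (univ.filter (fun z => π z = π x'))) (by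
      rintro γ ⟨w, w'⟩ hw
      rw [mem_product, mem_filter, mem_filter] at hw
      change (γ • w, γ • w') ∈ _
      rw [mem_product, mem_filter, mem_filter]
      exact ⟨⟨mem_univ _, by rw [hπΓ, hw.1.2]⟩, ⟨mem_univ _, by rw [hπΓ, hw.2.2]⟩⟩)
      (w₀ := (x, x')) (by
      rintro ⟨w, w'⟩ hw
      rw [mem_product, mem_filter, mem_filter] at hw
      have hw1 : π w = π x := hw.1.2
      have hw2 : π w' = π x' := hw.2.2
      obtain ⟨τ, hτ, h2, h3⟩ := tr_two htriv heqv htrH hw1.symm hw2.symm (by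
        rw [hw1, hw2]
        exact hco x x' hx hx')
      obtain ⟨γ, hγ⟩ := hHΓ τ hτ
      refine ⟨γ, ?_⟩
      change (γ • x, γ • x') = (w, w')
      rw [hγ, hγ, h2, h3]) (fun z => s (σ • z.1) * s (σ • z.2))
    rw [card_product, sum_product] at h1
    push_cast at h1
    change m (π x) * m (π x') * (∑ γ : Γ, s (σ • γ • x) * s (σ • γ • x')) = Fintype.card Γ *
      (∑ z ∈ univ.filter (fun z => π z = π x), ∑ y ∈ univ.filter (fun z => π z = π x'),
        s (σ • z) * s (σ • y)) at h1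
    rw [← sum_mul_sum] at h1
    change m (π x) * m (π x') * (∑ γ : Γ, s (σ • γ • x) * s (σ • γ • x')) = Fintype.card Γ *
      (S1 (π x) * S1 (π x')) at h1
    have h3 := hm x
    have h4 := hm x'
    field_simp
    linear_combination h1
  -- the partial sums
  let FA : Γ → ℝ := fun γ => ∑ x ∈ univ.filter A, s (σ • γ • x) * lam x
  let FB : Γ → ℝ := fun γ => ∑ x ∈ univ.filter (fun x => ¬ A x), s (σ • γ • x) * lam x
  obtain ⟨a, ha⟩ : ∃ a, a = ∑ x ∈ univ.filter A, lam x * (S1 (π x) / m (π x)) := ⟨_, rfl⟩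
  obtain ⟨b, hb⟩ : ∃ b, b = ∑ x ∈ univ.filter (fun x => ¬ A x), lam x * (S1 (π x) / m (π x)) :=
    ⟨_, rfl⟩
  have hFAB : ∀ γ, FA γ + FB γ = 0 := by
    intro γ
    obtain ⟨τ, -, hτ⟩ := hΓH γ
    have h1 := h (σ * τ)
    rw [← Finset.sum_filter_add_sum_filter_not univ A] at h1
    rw [← h1]
    refine congrArg₂ (· + ·) ?_ ?_
    · exact sum_congr rfl fun x _ => by rw [mul_smul, hτ]
    · exact sum_congr rfl fun x _ => by rw [mul_smul, hτ]
  have sA : ∑ γ, FA γ = Fintype.card Γ * a := by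
    rw [ha, mul_sum, sum_comm]
    refine sum_congr rfl fun x _ => ?_
    rw [← sum_mul, e1]
    ring
  have sB : ∑ γ, FB γ = Fintype.card Γ * b := by
    rw [hb, mul_sum, sum_comm]
    refine sum_congr rfl fun x _ => ?_
    rw [← sum_mul, e1]
    ring
  have hab : a + b = 0 := by
    have h1 : ∑ γ, (FA γ + FB γ) = 0 := sum_eq_zero fun γ _ => hFAB γ
    rw [sum_add_distrib, sA, sB, ← mul_add] at h1
    exact (mul_eq_zero.1 h1).resolve_left hg0
  have sAB : ∑ γ, FA γ * FB γ = Fintype.card Γ * (a * b) := by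
    have h1 : ∀ γ, FA γ * FB γ = ∑ x ∈ univ.filter A, ∑ x' ∈ univ.filter (fun x => ¬ A x),
        lam x * lam x' * (s (σ • γ • x) * s (σ • γ • x')) := by
      intro γ
      change (∑ x ∈ univ.filter A, s (σ • γ • x) * lam x) *
        (∑ x ∈ univ.filter (fun x => ¬ A x), s (σ • γ • x) * lam x) = _
      rw [sum_mul_sum]
      refine sum_congr rfl fun x _ => sum_congr rfl fun x' _ => ?_
      ring
    rw [sum_congr rfl fun γ _ => h1 γ, sum_comm, ha, hb, sum_mul_sum, mul_sum]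
    refine sum_congr rfl fun x hx => ?_
    rw [sum_comm, mul_sum]
    refine sum_congr rfl fun x' hx' => ?_
    rw [← mul_sum, e2 x x' (mem_filter.1 hx).2 (mem_filter.1 hx').2]
    ring
  have key : ∑ γ, (FA γ - a) ^ 2 = 0 := by
    have h1 : ∀ γ, (FA γ - a) ^ 2 = -(FA γ * FB γ) - 2 * a * FA γ + a ^ 2 := by
      intro γ
      have h2 : FA γ * FA γ = -(FA γ * FB γ) := by
        have h3 := hFAB γ
        linear_combination (FA γ) * h3
      linear_combination h2
    rw [sum_congr rfl fun γ _ => h1 γ, sum_add_distrib, sum_sub_distrib, sum_neg_distrib, sAB,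
      ← mul_sum, sA, sum_const, card_univ, nsmul_eq_mul]
    have h2 : b = - a := by linear_combination hab
    rw [h2]
    ring
  have h1 := (sum_eq_zero_iff_of_nonneg (fun γ _ => sq_nonneg (FA γ - a))).1 key 1 (mem_univ _)
  have h2 : FA 1 = a := sub_eq_zero.1 (pow_eq_zero_iff (two_ne_zero) |>.1 h1)
  rw [ha] at h2
  rw [← h2]
  exact sum_congr rfl fun x _ => by rw [one_smul]

end

end Pool.Agent.H943.KP
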