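import Mathlib
import Pool.Agent.H943.KP.Gen

/-!
# Factors with an action of a division algebra
-/

set_option autoImplicit false
set_option linter.unusedSectionVars false

namespace Pool.Agent.H943.KP

open Matrix Module Pool.Agent.H204R3.CM Pool.Agent.H194R3.CM Pool.Agent.W437.HC
  Pool.Agent.W437.HD Pool.Agent.W437.HQ Pool.Agent.W548.Odd Pool.Agent.TH125 Pool.Agent.Y4
  Pool.Agent.Y4.G Pool.Agent.Y4.K Pool.Agent.H943.KS Pool.Agent.H943.KF

open Pool.Agent.Y4.H (exists_prims LZ Ct map_smul_aut' D_mem_LZ Dσ_mem_LZ)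

variable {g : ℕ} {Z : Matrix (Fin g) (Fin g) ℂ}

/-- A factor with an action of a division algebra, simple over the algebra. -/
structure Bk (Z : Matrix (Fin g) (Fin g) ℂ) {D : Type} [DivisionRing D] (ρ : D →ₙ+* MQ g) :
    Prop where
  endo : ∀ x, ∃ N, IsEndo Z (ρ x) N
  com : ∀ X : MQ g, (∃ N, IsEndo Z X N) → ρ 1 * X = X → X * ρ 1 = X →
    (∀ x, X * ρ x = ρ x * X) → X ≠ 0 → ∃ Y, Y * X = ρ 1

/-- If the homology of the factor has dimension one over `D`, then every nonzero matrix which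
commutes with `D` is invertible. -/
theorem com_of_dim {D : Type} [DivisionRing D] [Algebra ℚ D] [Module.Finite ℚ D]
    (ρ : D →ₙ+* MQ g) (hdim : finrank ℚ D = (ρ 1).rank) {X : MQ g} (hX1 : ρ 1 * X = X)
    (hX2 : X * ρ 1 = X) (hX : ∀ x, X * ρ x = ρ x * X) (h0 : X ≠ 0) : ∃ Y, Y * X = ρ 1 := by
  have key : ∀ v : Fin g ⊕ Fin g → ℚ, ρ 1 *ᵥ v = v → X *ᵥ v = 0 → v = 0 := by
    intro v hv1 hv
    by_contra hv0
    let f : D →ₗ[ℚ] (Fin g ⊕ Fin g → ℚ) :=
      { toFun := fun x => ρ x *ᵥ v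
        map_add' := fun x y => by
          rw [map_add, add_mulVec]
        map_smul' := fun c x => by
          rw [map_rat_smul, smul_mulVec]
          rfl }
    have hf : Function.Injective f := by
      rw [injective_iff_map_eq_zero]
      intro x hx
      by_contra hne
      apply hv0
      calc v = ρ (x⁻¹ * x) *ᵥ v := by rw [inv_mul_cancel₀ hne, hv1]
      _ = 0 := by
        rw [map_mul, ← mulVec_mulVec]
        change ρ x⁻¹ *ᵥ (f x) = 0
        rw [hx, mulVec_zero]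
    have hsurj : LinearMap.range f = LinearMap.range (mulVecLin (ρ 1)) := by
      apply Submodule.eq_of_le_of_finrank_eq
      · rintro _ ⟨x, rfl⟩
        refine ⟨ρ x *ᵥ v, ?_⟩
        change ρ 1 *ᵥ (ρ x *ᵥ v) = ρ x *ᵥ v
        rw [mulVec_mulVec, ← map_mul, one_mul]
      · rw [LinearMap.finrank_range_of_inj hf, hdim]
        rfl
    apply h0
    rw [← hX2]
    apply Matrix.ext_of_mulVec_single
    intro i
    rw [zero_mulVec, ← mulVec_mulVec]
    have h2 : ρ 1 *ᵥ (Pi.single i 1) ∈ LinearMap.range f := by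
      rw [hsurj]
      exact ⟨_, rfl⟩
    obtain ⟨x, hx⟩ := h2
    rw [← hx]
    change X *ᵥ (ρ x *ᵥ v) = 0
    rw [mulVec_mulVec, hX x, ← mulVec_mulVec, hv, mulVec_zero]
  -- the inverse of `X + (1 - e)`
  have hee : ρ 1 * ρ 1 = ρ 1 := by rw [← map_mul, one_mul]
  have h1 : Function.Injective (mulVecLin (X + (1 - ρ 1))) := by
    rw [injective_iff_map_eq_zero]
    intro v hv
    have hv' : (X + (1 - ρ 1)) *ᵥ v = 0 := hv
    have h2 : X *ᵥ v = 0 := by
      have h3 : ρ 1 * (X + (1 - ρ 1)) = X := by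
        rw [mul_add, mul_sub, mul_one, hee, sub_self, add_zero, hX1]
      rw [← h3, ← mulVec_mulVec, hv', mulVec_zero]
    have h4 : ρ 1 *ᵥ v = v := by
      rw [add_mulVec, h2, zero_add, sub_mulVec, one_mulVec] at hv'
      exact (sub_eq_zero.1 hv').symm
    exact key v h4 h2
  obtain ⟨u, hu⟩ := Matrix.mulVec_injective_iff_isUnit.1 h1
  refine ⟨ρ 1 * ((u⁻¹ : (MQ g)ˣ) : MQ g), ?_⟩
  have h5 : X = (X + (1 - ρ 1)) * ρ 1 := by
    rw [add_mul, sub_mul, one_mul, hee, sub_self, add_zero, hX2]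
  calc ρ 1 * ((u⁻¹ : (MQ g)ˣ) : MQ g) * X = ρ 1 * (((u⁻¹ : (MQ g)ˣ) : MQ g) *
      ((X + (1 - ρ 1)) * ρ 1)) := by rw [← h5, mul_assoc]
  _ = ρ 1 := by
    rw [← mul_assoc ((u⁻¹ : (MQ g)ˣ) : MQ g), ← hu, Units.inv_mul, one_mul, hee]

section

variable (M : Pol Z) {D : Type} [DivisionRing D] {ρ : D →ₙ+* MQ g} (hB : Bk Z ρ)
  {F : Type} [Field F] [NumberField F] {j : F →+* D} (hj : ∀ a x, j a * x = x * j a)
  {I : Type} [Fintype I] {ε : I → Pr Z} (Fm : Pol.Fam ε)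

/-- The action of the field. -/
def fj (ρ : D →ₙ+* MQ g) (j : F →+* D) : F →ₙ+* MQ g :=
  ρ.comp (j : F →ₙ+* D)

omit [NumberField F] in
theorem fj_apply (ρ : D →ₙ+* MQ g) (j : F →+* D) (a : F) : fj ρ j a = ρ (j a) := rfl

omit [NumberField F] in
theorem fj_one (ρ : D →ₙ+* MQ g) (j : F →+* D) : fj ρ j 1 = ρ 1 := by
  rw [fj_apply, map_one]

theorem one_ptn (τ : F →+* ℂ) : cq (ρ 1) * ptn (fj ρ j) τ = ptn (fj ρ j) τ := by
  rw [← fj_one ρ j, j_ptn, map_one, one_smul]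

theorem ptn_one (τ : F →+* ℂ) : ptn (fj ρ j) τ * cq (ρ 1) = ptn (fj ρ j) τ := by
  rw [← fj_one ρ j, ptn_j, map_one, one_smul]

include hj in
theorem ptn_comm (τ : F →+* ℂ) (x : D) :
    cq (ρ x) * ptn (fj ρ j) τ = ptn (fj ρ j) τ * cq (ρ x) := by
  unfold ptn
  rw [Finset.sum_mul, Finset.mul_sum]
  refine Finset.sum_congr rfl fun i _ => ?_
  rw [Matrix.smul_mul, Matrix.mul_smul, ← cq_mul, ← cq_mul, fj_apply, ← map_mul, ← map_mul, hj]

include hB in
theorem endo_fj (a : F) : ∃ N, IsEndo Z (fj ρ j a) N := hB.endo _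

variable {Y : Type} [Fintype Y] [MulAction (RingAut ℂ) Y]
  {P : Y → Matrix (Fin g ⊕ Fin g) (Fin g ⊕ Fin g) ℂ} (hP : IdF Z P)
  {ν : (F →+* ℂ) → Y} (hν : ∀ τ, P (ν τ) = ptn (fj ρ j) τ)
  (hνa : ∀ (σ : RingAut ℂ) τ, σ • ν τ = ν ((σ : ℂ →+* ℂ).comp τ))

include M hB hj Fm hP hν hνa in
/-- **The linked pairs of a factor form one orbit.** -/
theorem pair_trP {φ ψ : Pr Z} {τ τ' : F →+* ℂ} (h1 : rkP P φ (ν τ) ≠ 0)
    (h2 : rkP P ψ (ν τ') ≠ 0) :
    ∃ σ : ℂ ≃+* ℂ, Eqv (M.act σ φ) ψ ∧ (σ : ℂ →+* ℂ).comp τ = τ' := by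
  classical
  by_contra hcon
  push Not at hcon
  rw [← lkP_iff M Fm hP, hν] at h1 h2
  obtain ⟨f, hf⟩ : ∃ f, f = fj ρ j := ⟨_, rfl⟩
  rw [← hf] at h1 h2
  have hlk : ∀ (φ : Pr Z) (τ : F →+* ℂ) (σ : ℂ ≃+* ℂ), (M.ce ε φ * ptn f τ).map (σ : ℂ →+* ℂ) =
      M.ce ε (M.act σ φ) * ptn f ((σ : ℂ →+* ℂ).comp τ) := by
    intro φ τ σ
    rw [Matrix.map_mul, ce_act M Fm, ptn_map]
  have hCt1 : ∀ x, Ct Z (cq (ρ x)) := by
    intro x
    obtain ⟨N, hN⟩ := hB.endo x
    exact M.Ct_of_endo hN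
  have hcec : ∀ (φ : Pr Z) x, M.ce ε φ * cq (ρ x) = cq (ρ x) * M.ce ε φ := by
    intro φ x
    exact (M.ce_central Fm φ).2 _ (hCt1 x)
  let C : Submodule ℂ (Matrix (Fin g ⊕ Fin g) (Fin g ⊕ Fin g) ℂ) :=
    { carrier := {X | Ct Z X ∧ (cq (ρ 1) * X = X ∧ X * cq (ρ 1) = X) ∧
        (∀ x, X * cq (ρ x) = cq (ρ x) * X) ∧
        ∀ σ : ℂ ≃+* ℂ, X * (M.ce ε (M.act σ φ) * ptn f ((σ : ℂ →+* ℂ).comp τ)) = 0}
      zero_mem' := ⟨fun X _ => by rw [zero_mul, mul_zero], ⟨mul_zero _, zero_mul _⟩, fun x => by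
        rw [zero_mul, mul_zero], fun σ => zero_mul _⟩
      add_mem' := fun {a b} ha hb => ⟨fun X hX => by
        rw [add_mul, mul_add, ha.1 X hX, hb.1 X hX],
        ⟨by rw [mul_add, ha.2.1.1, hb.2.1.1], by rw [add_mul, ha.2.1.2, hb.2.1.2]⟩,
        fun x => by rw [add_mul, mul_add, ha.2.2.1 x, hb.2.2.1 x], fun σ => by
          rw [add_mul, ha.2.2.2, hb.2.2.2, add_zero]⟩
      smul_mem' := fun r a ha => ⟨fun X hX => by
        rw [Matrix.smul_mul, Matrix.mul_smul, ha.1 X hX],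
        ⟨by rw [Matrix.mul_smul, ha.2.1.1], by rw [Matrix.smul_mul, ha.2.1.2]⟩, fun x => by
        rw [Matrix.smul_mul, Matrix.mul_smul, ha.2.2.1 x], fun σ => by
          rw [Matrix.smul_mul, ha.2.2.2, smul_zero]⟩ }
  have key : ∀ Y ∈ C, Y = 0 := by
    refine rational_induction C ?_ ?_ rfl ?_ ?_
    · rintro α X ⟨h3, h3', h4, h5⟩
      have hmap : ∀ A B : Matrix (Fin g ⊕ Fin g) (Fin g ⊕ Fin g) ℂ,
          (A * B).map (α : ℂ →+* ℂ) = A.map (α : ℂ →+* ℂ) * B.map (α : ℂ →+* ℂ) :=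
        fun A B => Matrix.map_mul
      refine ⟨InCm.aut h3 α, ⟨?_, ?_⟩, fun x => ?_, fun σ => ?_⟩
      · have h6 := congrArg (fun Y : Matrix _ _ ℂ => Y.map (α : ℂ →+* ℂ)) h3'.1
        simp only [hmap] at h6
        rw [cq_map] at h6
        exact h6
      · have h6 := congrArg (fun Y : Matrix _ _ ℂ => Y.map (α : ℂ →+* ℂ)) h3'.2
        simp only [hmap] at h6
        rw [cq_map] at h6
        exact h6
      · have h6 := congrArg (fun Y : Matrix _ _ ℂ => Y.map (α : ℂ →+* ℂ)) (h4 x)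
        simp only [hmap] at h6
        rw [cq_map] at h6
        exact h6
      · have h6 := congrArg (fun Y : Matrix _ _ ℂ => Y.map (α : ℂ →+* ℂ)) (h5 (σ.trans α.symm))
        rw [hmap, hlk, KF.map_zero'] at h6
        have h8 : M.act α (M.act (σ.trans α.symm) φ) = M.act σ φ := by
          apply Pr.ext
          rw [M.act_e, M.act_e, M.act_e]
          ext i k
          simp
        have h9 : (α : ℂ →+* ℂ).comp (((σ.trans α.symm : ℂ ≃+* ℂ) : ℂ →+* ℂ).comp τ) =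
            (σ : ℂ →+* ℂ).comp τ := by
          ext x
          simp
        rw [h8, h9] at h6
        exact h6
    · rintro u ⟨h3, h3', h4, h5⟩
      have hu0 : u = 0 := by
        by_contra hu0
        obtain ⟨v, hv⟩ := hB.com u (M.endo_of_Ct h3) (by
          apply cq_inj
          rw [cq_mul]
          exact h3'.1) (by
          apply cq_inj
          rw [cq_mul]
          exact h3'.2) (by
          intro x
          apply cq_inj
          rw [cq_mul, cq_mul]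
          exact h4 x) hu0
        have h7 := h5 (RingEquiv.refl ℂ)
        have h8 : M.act (RingEquiv.refl ℂ) φ = φ := by
          apply Pr.ext
          rw [M.act_e]
          ext i k
          simp
        have h9 : (((RingEquiv.refl ℂ : ℂ ≃+* ℂ) : ℂ →+* ℂ)).comp τ = τ := by
          ext x
          simp
        rw [h8, h9] at h7
        have h10 : cq u * (M.ce ε φ * ptn f τ) = 0 := h7
        apply h1
        have h11 : ptn f τ = cq (ρ 1) * ptn f τ := by rw [hf, one_ptn]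
        calc M.ce ε φ * ptn f τ = M.ce ε φ * cq (ρ 1) * ptn f τ := by
              rw [mul_assoc, ← h11]
        _ = cq (ρ 1) * (M.ce ε φ * ptn f τ) := by rw [hcec, mul_assoc]
        _ = cq v * (cq u * (M.ce ε φ * ptn f τ)) := by rw [← hv, cq_mul, mul_assoc]
        _ = 0 := by rw [h10, mul_zero]
      rw [hu0]
      exact cq_zero
    · intro X Y hX hY
      rw [hX, hY, add_zero]
    · intro c X hX
      rw [hX, smul_zero]
  apply h2
  apply key
  have hCtp : ∀ τ, Ct Z (ptn f τ) := by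
    intro τ
    rw [hf]
    exact Ct_ptn M (endo_fj hB) τ
  have hcp : ∀ (φ : Pr Z) (τ : F →+* ℂ), ptn f τ * M.ce ε φ = M.ce ε φ * ptn f τ :=
    fun φ τ => ((M.ce_central Fm φ).2 _ (hCtp τ)).symm
  refine ⟨?_, ⟨?_, ?_⟩, ?_, ?_⟩
  · exact InCm.mul (M.ce_central Fm ψ).1 (hCtp τ')
  · rw [← mul_assoc, ← hcec, mul_assoc, hf, one_ptn]
  · rw [mul_assoc, hf, ptn_one]
  · intro x
    rw [mul_assoc, hf, ← ptn_comm hj τ' x, ← mul_assoc, hcec, mul_assoc]
  · intro σ
    have h3 := hcp (M.act σ φ) τ'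
    calc M.ce ε ψ * ptn f τ' * (M.ce ε (M.act σ φ) * ptn f ((σ : ℂ →+* ℂ).comp τ)) =
        M.ce ε ψ * (ptn f τ' * M.ce ε (M.act σ φ)) * ptn f ((σ : ℂ →+* ℂ).comp τ) := by
          noncomm_ring
    _ = (M.ce ε ψ * M.ce ε (M.act σ φ)) * (ptn f τ' * ptn f ((σ : ℂ →+* ℂ).comp τ)) := by
      rw [h3]
      noncomm_ring
    _ = 0 := by
      by_cases h4 : Eqv (M.act σ φ) ψ
      · rw [ptn_orth f (hcon σ h4).symm, mul_zero]
      · rw [ce_ce M Fm, if_neg (fun h5 => h4 h5.symm), zero_mul]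

include M hB hj hν in
/-- The degree of `D` is at most the multiplicity of a linked pair. -/
theorem degree_le_rkP [Algebra ℚ D] [Module.Finite ℚ D] {n : ℕ}
    (hn : finrank ℚ D = n ^ 2 * finrank ℚ (Subalgebra.center ℚ D)) {φ : Pr Z} {τ : F →+* ℂ}
    (h : rkP P φ (ν τ) ≠ 0) : n ≤ rkP P φ (ν τ) := by
  have hCt : ∀ x : D, Ct Z (cq (ρ x)) := by
    intro x
    obtain ⟨N, hN⟩ := hB.endo x
    exact M.Ct_of_endo hN
  unfold rkP at h ⊢
  rw [hν] at h ⊢
  have : Nontrivial (Vp Z φ (ptn (fj ρ j) τ)) := by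
    rw [← finrank_pos_iff (R := ℂ)]
    exact Nat.pos_of_ne_zero h
  let ρ' : D →+* Module.End ℂ (Vp Z φ (ptn (fj ρ j) τ)) :=
    { toFun := fun x =>
        { toFun := fun y => ⟨cq (ρ x) * y.1, InCm.mul (hCt x) y.2.1, by
            rw [mul_assoc, y.2.2.1], by
            rw [← mul_assoc, ← ptn_comm hj τ x, mul_assoc, y.2.2.2]⟩
          map_add' := fun y z => Subtype.ext (mul_add _ _ _)
          map_smul' := fun r y => Subtype.ext (Matrix.mul_smul _ _ _) }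
      map_one' := by
        ext1 y
        apply Subtype.ext
        change cq (ρ 1) * y.1 = y.1
        rw [← y.2.2.2, ← mul_assoc, one_ptn]
      map_zero' := by
        ext1 y
        apply Subtype.ext
        change cq (ρ 0) * y.1 = 0
        rw [map_zero, cq_zero, zero_mul]
      map_mul' := fun a b => by
        ext1 y
        apply Subtype.ext
        change cq (ρ (a * b)) * y.1 = cq (ρ a) * (cq (ρ b) * y.1)
        rw [map_mul, cq_mul, mul_assoc]
      map_add' := fun a b => by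
        ext1 y
        apply Subtype.ext
        change cq (ρ (a + b)) * y.1 = cq (ρ a) * y.1 + cq (ρ b) * y.1
        rw [map_add, cq_add, add_mul] }
  exact degree_le' (D := D) (fun x hx => ⟨x⁻¹, mul_inv_cancel₀ hx⟩) ρ' hn

end

end Pool.Agent.H943.KP
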