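import Mathlib
import Pool.Agent.H943.KP.Avg
import Pool.Agent.H943.KF.Comb2

/-!
# The factors with the same prime
-/

set_option autoImplicit false
set_option linter.unusedSectionVars false

open Finset MulAction

namespace Pool.Agent.H943.KP

open Pool.Agent.H943.KS (sylow_tr)
open Pool.Agent.H943.KF (int_kernel)

variable {G X Y ι : Type} [Group G] [MulAction G X] [MulAction G Y] [Fintype X] [Fintype Y]
  [DecidableEq Y] {κ : Y → ι} {H : Subgroup G} {π : X → Y} {c : X → X} {c' : Y → Y}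
  {r : X → ℕ} {n' : ι → ℕ} {t : Y → ℕ} {N : ι → ℕ}
  (S : DatM κ H π c c' r n' t N)

/-- **The annihilator of the translates**, for functions supported on the factors of `A`. -/
theorem annP {p : ℕ} [hp : Fact p.Prime] (S : DatM κ H π c c' r n' t N) (A : ι → Prop)
    (hcard : ∀ y, A (κ y) → ∃ b, Fintype.card {x // π x = y} = p ^ b)
    (hF : ∀ L : Y → ZMod p, (∀ y, L (c' y) = - L y) → (∀ y, ¬ A (κ y) → L y = 0) →
      (∀ σ : G, ∑ y, (t (σ • y) : ZMod p) * L y = 0) → L = 0)
    (u : X → ZMod p) (hodd : ∀ x, u (c x) = - u x) (hsupp : ∀ x, ¬ A (κ (π x)) → u x = 0)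
    (hu : ∀ σ : G, ∑ x, (r (σ • x) : ZMod p) * u x = 0) : u = 0 := by
  classical
  by_contra hne
  obtain ⟨f, hf⟩ : ∃ f : X → ZMod p, f = fun x => (r x : ZMod p) := ⟨_, rfl⟩
  have hu' : ∀ σ : G, ∑ x, f (σ • x) * u x = 0 := by
    intro σ
    rw [hf]
    exact hu σ
  let φ : G →* (MulAction.toPermHom G X).range := (MulAction.toPermHom G X).rangeRestrict
  let Γ := (MulAction.toPermHom G X).range
  have hφ : Function.Surjective φ := MonoidHom.rangeRestrict_surjective _
  have hsm : ∀ (σ : G) (x : X), (φ σ : Γ) • x = σ • x := fun _ _ => rfl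
  have : Finite Γ := inferInstance
  let Hb : Subgroup Γ := H.map φ
  obtain ⟨P0⟩ : Nonempty (Sylow p Hb) := inferInstance
  obtain ⟨P, hP⟩ : ∃ P : Subgroup Γ, P = (P0 : Subgroup Hb).map Hb.subtype := ⟨_, rfl⟩
  have hPp : IsPGroup p P := by
    rw [hP]
    exact P0.isPGroup'.map _
  have hfib : ∀ x z : X, A (κ (π z)) → π x = π z → ∃ γ ∈ P, γ • x = z := by
    intro x z hz hxz
    let _ : MulAction Hb {w // π w = π z} :=
      { smul := fun γ w => ⟨(γ : Γ) • w.1, by
          obtain ⟨σ, hσ, hσγ⟩ := γ.2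
          rw [← hσγ, hsm, S.eqv, S.triv σ hσ]
          exact w.2⟩
        one_smul := fun w => Subtype.ext (one_smul Γ w.1)
        mul_smul := fun γ δ w => Subtype.ext (mul_smul (γ : Γ) (δ : Γ) w.1) }
    obtain ⟨b, hb⟩ := hcard (π z) hz
    obtain ⟨γ, hγ, hγx⟩ := sylow_tr (Γ := Hb) hb (by
      rintro ⟨w, hw⟩ ⟨w', hw'⟩
      obtain ⟨σ, hσ, h1⟩ := S.trH w w' (hw.trans hw'.symm)
      exact ⟨⟨φ σ, ⟨σ, hσ, rfl⟩⟩, Subtype.ext h1⟩) P0 ⟨x, hxz⟩ ⟨z, rfl⟩
    exact ⟨γ, by rw [hP]; exact ⟨γ, hγ, rfl⟩, congrArg Subtype.val hγx⟩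
  have hcΓ : ∀ (γ : Γ) (x : X), c (γ • x) = γ • c x := by
    intro γ x
    obtain ⟨σ, rfl⟩ := hφ γ
    exact S.cg σ x
  have hkΓ : ∀ (γ : Γ) (x : X), κ (π (γ • x)) = κ (π x) := by
    intro γ x
    obtain ⟨σ, rfl⟩ := hφ γ
    rw [hsm, S.eqv, S.kg]
  let W : AddSubgroup (X → ZMod p) :=
    { carrier := {y | (∀ x, y (c x) = - y x) ∧ (∀ x, ¬ A (κ (π x)) → y x = 0) ∧
        ∀ γ : Γ, ∑ x, f (γ • x) * y x = 0}
      add_mem' := fun {u v} hu hv => ⟨fun x => by
          simp only [Pi.add_apply, hu.1, hv.1]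
          ring, fun x hx => by
          rw [Pi.add_apply, hu.2.1 x hx, hv.2.1 x hx, add_zero], fun γ => by
          simp only [Pi.add_apply, mul_add, sum_add_distrib, hu.2.2 γ, hv.2.2 γ, add_zero]⟩
      zero_mem' := ⟨fun x => by simp, fun x _ => rfl, fun γ => by simp⟩
      neg_mem' := fun {u} hu => ⟨fun x => by simp only [Pi.neg_apply, hu.1], fun x hx => by
        rw [Pi.neg_apply, hu.2.1 x hx, neg_zero], fun γ => by
        simp only [Pi.neg_apply, mul_neg, sum_neg_distrib, hu.2.2 γ, neg_zero]⟩ }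
  have hact : ∀ (γ : Γ) (u : X → ZMod p), u ∈ W → (fun x => u (γ⁻¹ • x)) ∈ W := by
    intro γ u hu
    refine ⟨fun x => ?_, fun x hx => ?_, fun δ => ?_⟩
    · change u (γ⁻¹ • c x) = - u (γ⁻¹ • x)
      rw [← hcΓ, hu.1]
    · exact hu.2.1 _ (by rwa [hkΓ])
    · have h1 := hu.2.2 (δ * γ)
      rw [← h1]
      refine Fintype.sum_equiv (MulAction.toPerm γ⁻¹) _ _ fun x => ?_
      rw [MulAction.toPerm_apply, mul_smul, smul_inv_smul]
  let _ : MulAction (P : Subgroup Γ) W :=
    { smul := fun γ u => ⟨fun x => (u : X → ZMod p) ((γ : Γ)⁻¹ • x), hact γ u u.2⟩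
      one_smul := fun u => Subtype.ext (by
        funext x
        change (u : X → ZMod p) (((1 : (P : Subgroup Γ)) : Γ)⁻¹ • x) = _
        rw [Subgroup.coe_one, inv_one, one_smul])
      mul_smul := fun γ δ u => Subtype.ext (by
        funext x
        change (u : X → ZMod p) (((γ * δ : (P : Subgroup Γ)) : Γ)⁻¹ • x) =
          (u : X → ZMod p) ((δ : Γ)⁻¹ • (γ : Γ)⁻¹ • x)
        rw [Subgroup.coe_mul, mul_inv_rev, mul_smul]) }
  have hsm' : ∀ (γ : (P : Subgroup Γ)) (u : W) (x : X),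
      ((γ • u : W) : X → ZMod p) x = (u : X → ZMod p) ((γ : Γ)⁻¹ • x) := fun _ _ _ => rfl
  have h0 : (0 : W) ∈ fixedPoints (P : Subgroup Γ) W := by
    intro γ
    apply Subtype.ext
    funext x
    rw [hsm']
    rfl
  have huW : u ∈ W := ⟨hodd, hsupp, fun γ => by
    obtain ⟨σ, rfl⟩ := hφ γ
    exact hu' σ⟩
  have hd : p ∣ Nat.card W := by
    have h1 : Nat.card W ∣ Nat.card (X → ZMod p) := AddSubgroup.card_addSubgroup_dvd_card W
    rw [Nat.card_fun, Nat.card_zmod] at h1
    obtain ⟨k, -, hk⟩ := (Nat.dvd_prime_pow hp.out).1 h1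
    rcases Nat.eq_zero_or_pos k with h2 | h2
    · exfalso
      rw [h2, pow_zero, Nat.card_eq_one_iff_unique] at hk
      have := hk.1
      exact hne (congrArg Subtype.val (Subsingleton.elim (⟨u, huW⟩ : W) 0))
    · rw [hk]
      exact dvd_pow_self p h2.ne'
  obtain ⟨v, hv, hv0⟩ := hPp.exists_fixed_point_of_prime_dvd_card_of_fixed_point W hd h0
  have hconst : ∀ x z, π x = π z → (v : X → ZMod p) x = (v : X → ZMod p) z := by
    intro x z hxz
    by_cases hz : A (κ (π z))
    · obtain ⟨γ, hγP, hγ⟩ := hfib x z hz hxz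
      have h1 := hv ⟨γ, hγP⟩
      have h2 := congrFun (congrArg Subtype.val h1) z
      rw [hsm'] at h2
      rw [← h2, ← hγ]
      change _ = (v : X → ZMod p) (γ⁻¹ • γ • x)
      rw [inv_smul_smul]
    · rw [v.2.2.1 z hz, v.2.2.1 x (by rwa [hxz])]
  choose s hs using S.surj
  have hvs : ∀ x, (v : X → ZMod p) x = (v : X → ZMod p) (s (π x)) := fun x =>
    hconst _ _ (hs (π x)).symm
  have hL : (fun y => (v : X → ZMod p) (s y)) = 0 := by
    refine hF _ (fun y => ?_) (fun y hy => ?_) (fun σ => ?_)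
    · rw [← v.2.1 (s y)]
      apply hconst
      rw [hs, S.pc, hs]
    · exact v.2.2.1 _ (by rwa [hs])
    · have h1 := v.2.2.2 (φ σ)
      rw [← h1, ← Finset.sum_fiberwise (s := univ) π (fun x => f (φ σ • x) * (v : X → ZMod p) x)]
      refine sum_congr rfl fun y _ => ?_
      have h2 : ∀ x ∈ univ.filter (fun x => π x = y), f (φ σ • x) * (v : X → ZMod p) x =
          f (σ • x) * (v : X → ZMod p) (s y) := by
        intro x hx
        rw [hvs x, (mem_filter.1 hx).2, hsm]
      rw [sum_congr rfl h2, ← sum_mul]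
      congr 1
      have h3 : (t (σ • y) : ZMod p) = ∑ x ∈ univ.filter (fun x => π x = σ • y), f x := by
        rw [← S.fib, Nat.cast_sum, hf]
        exact (Finset.sum_subtype _ (fun x => by simp) (fun x => (r x : ZMod p))).symm
      rw [h3]
      symm
      refine Finset.sum_bij' (fun x _ => σ • x) (fun x _ => σ⁻¹ • x) ?_ ?_ ?_ ?_ ?_
      · intro x hx
        rw [mem_filter] at hx ⊢
        exact ⟨mem_univ _, by rw [S.eqv, hx.2]⟩
      · intro x hx
        rw [mem_filter] at hx ⊢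
        exact ⟨mem_univ _, by rw [S.eqv, hx.2, inv_smul_smul]⟩
      · intro x _
        exact inv_smul_smul σ x
      · intro x _
        exact smul_inv_smul σ x
      · intro x _
        rfl
  apply hv0
  apply Subtype.ext
  funext x
  change (0 : ZMod p) = _
  rw [hvs x]
  exact (congrFun hL (π x)).symm

section

variable {p : ℕ} [hp : Fact p.Prime] (hp2 : p ≠ 2) {A : ι → Prop}
  (hcard : ∀ y, A (κ y) → ∃ b, Fintype.card {x // π x = y} = p ^ b)
  (hF : ∀ L : Y → ZMod p, (∀ y, L (c' y) = - L y) → (∀ y, ¬ A (κ y) → L y = 0) →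
    (∀ σ : G, ∑ y, (t (σ • y) : ZMod p) * L y = 0) → L = 0)
include S hp2 hcard hF

omit S hcard hF in
theorem two_neP : (2 : ZMod p) ≠ 0 := by
  intro h
  have h1 : ((2 : ℕ) : ZMod p) = 0 := by exact_mod_cast h
  rw [ZMod.natCast_eq_zero_iff] at h1
  exact hp2 ((Nat.prime_dvd_prime_iff_eq hp.out Nat.prime_two).1 h1)

/-- **Nondegeneracy** for functions supported on the factors of `A`. -/
theorem ndP (lam : X → ℂ) (hodd : ∀ x, lam (c x) = - lam x)
    (hsupp : ∀ x, ¬ A (κ (π x)) → lam x = 0)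
    (h : ∀ σ : G, ∑ x, ((r (σ • x) : ℂ) - r (c (σ • x))) * lam x = 0) : lam = 0 := by
  classical
  let B : G ⊕ X ⊕ X → X → ℤ := Sum.elim (fun σ x => (r (σ • x) : ℤ) - r (c (σ • x)))
    (Sum.elim (fun z x => (if x = z then 1 else 0) + (if x = c z then 1 else 0))
      (fun z x => if ¬ A (κ (π z)) then (if x = z then 1 else 0) else 0))
  refine int_kernel (p := p) B ?_ lam ?_
  · intro u hu
    have hodd' : ∀ x, u (c x) = - u x := by
      intro x
      have h1 := hu (Sum.inr (Sum.inl x))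
      simp only [B, Sum.elim_inr, Sum.elim_inl, Int.cast_add, Int.cast_ite, Int.cast_one,
        Int.cast_zero, add_mul, sum_add_distrib, ite_mul, one_mul, zero_mul, sum_ite_eq', mem_univ,
        if_true] at h1
      exact eq_neg_of_add_eq_zero_right h1
    have hsupp' : ∀ x, ¬ A (κ (π x)) → u x = 0 := by
      intro x hx
      have h1 := hu (Sum.inr (Sum.inr x))
      simp only [B, Sum.elim_inr, if_pos hx, Int.cast_ite, Int.cast_one,
        Int.cast_zero, ite_mul, one_mul, zero_mul, sum_ite_eq', mem_univ, if_true] at h1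
      exact h1
    refine annP S A hcard hF u hodd' hsupp' fun σ => ?_
    have h1 := hu (Sum.inl σ)
    simp only [B, Sum.elim_inl, Int.cast_sub, Int.cast_natCast, sub_mul, sum_sub_distrib] at h1
    have h2 : ∑ x, (r (c (σ • x)) : ZMod p) * u x = - ∑ x, (r (σ • x) : ZMod p) * u x := by
      rw [← sum_neg_distrib]
      refine Fintype.sum_equiv
        { toFun := c, invFun := c, left_inv := S.cc, right_inv := S.cc } _ _ fun x => ?_
      change _ = - ((r (σ • c x) : ZMod p) * u (c x))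
      rw [hodd', ← S.cg]
      ring
    rw [h2, sub_neg_eq_add, ← two_mul] at h1
    exact (mul_eq_zero.1 h1).resolve_left (two_neP hp2)
  · rintro (σ | z | z)
    · rw [← h σ]
      refine sum_congr rfl fun x _ => ?_
      simp only [B, Sum.elim_inl, Int.cast_sub, Int.cast_natCast]
    · simp only [B, Sum.elim_inr, Sum.elim_inl, Int.cast_add, Int.cast_ite, Int.cast_one,
        Int.cast_zero, add_mul, sum_add_distrib, ite_mul, one_mul, zero_mul, sum_ite_eq', mem_univ,
        if_true]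
      rw [hodd]
      ring
    · by_cases hz : A (κ (π z))
      · simp only [B, Sum.elim_inr, if_neg (not_not.2 hz), Int.cast_zero, zero_mul,
          sum_const_zero]
      · simp only [B, Sum.elim_inr, if_pos hz, Int.cast_ite, Int.cast_one,
          Int.cast_zero, ite_mul, one_mul, zero_mul, sum_ite_eq', mem_univ, if_true]
        exact hsupp z hz

/-- **Separation** for the factors of `A`. -/
theorem sepP {x y : X} (hx : A (κ (π x))) (hy : A (κ (π y))) (h1 : y ≠ x) (h2 : y ≠ c x)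
    {m : ℕ} (hm : ∃ a, m = p ^ a) (hsx : r x + r (c x) = m) (hsy : r y + r (c y) = m)
    (hn : m ≠ 1) (h : ∀ σ : G, r (σ • x) = r (σ • y) ∨
      (r (σ • x) * r (c (σ • x)) = 0 ∧ r (σ • y) * r (c (σ • y)) = 0)) : False := by
  classical
  obtain ⟨a, ha⟩ := hm
  have ha0 : a ≠ 0 := by
    rintro rfl
    exact hn (by rw [ha, pow_zero])
  have hn0 : (m : ZMod p) = 0 := by
    rw [ha, Nat.cast_pow, ZMod.natCast_self, zero_pow ha0]
  have hinv : ∀ (σ : G) z, r (σ • z) + r (c (σ • z)) = r z + r (c z) := by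
    intro σ z
    rw [S.sum, S.sum, S.eqv, S.kg]
  have hrc : ∀ z, r z + r (c z) = m → (r (c z) : ZMod p) = - r z := fun z hz => by
    have h5 := congrArg (fun m : ℕ => (m : ZMod p)) hz
    simp only [Nat.cast_add] at h5
    rw [hn0] at h5
    linear_combination h5
  have hdef : ∀ z, r z + r (c z) = m → r z * r (c z) = 0 → (r z : ZMod p) = 0 := by
    intro z hz' hz
    rcases mul_eq_zero.1 hz with h5 | h5
    · rw [h5, Nat.cast_zero]
    · have h6 := hrc z hz'
      rw [h5, Nat.cast_zero] at h6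
      linear_combination h6
  have hcong : ∀ σ : G, (r (σ • x) : ZMod p) = r (σ • y) := by
    intro σ
    rcases h σ with h5 | ⟨h5, h6⟩
    · rw [h5]
    · rw [hdef _ ((hinv σ x).trans hsx) h5, hdef _ ((hinv σ y).trans hsy) h6]
  have hcx : c x ≠ x := by
    intro h3
    rw [h3] at hsx
    have h4 : 2 ∣ p ^ a := ⟨r x, by rw [← ha]; omega⟩
    have h5 := Nat.Prime.dvd_of_dvd_pow Nat.prime_two h4
    exact hp2 ((Nat.prime_dvd_prime_iff_eq Nat.prime_two hp.out).1 h5).symm
  have h3 : c y ≠ x := by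
    intro h3
    apply h2
    rw [← h3, S.cc]
  have hkc : ∀ z, κ (π (c z)) = κ (π z) := by
    intro z
    rw [S.pc, S.kc]
  have key := annP S A hcard hF
    (Pi.single x 1 - Pi.single (c x) 1 - Pi.single y 1 + Pi.single (c y) 1)
    (by
      intro z
      have e1 : ∀ w, (c z = w) ↔ (z = c w) := fun w =>
        ⟨fun h => by rw [← h, S.cc], fun h => by rw [h, S.cc]⟩
      have e2 : ∀ w, (c z = c w) ↔ (z = w) := fun w =>
        ⟨fun h => by rw [← S.cc z, h, S.cc], fun h => by rw [h]⟩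
      simp only [Pi.add_apply, Pi.sub_apply, Pi.single_apply, e2, e1]
      ring)
    (by
      intro z hz
      have e1 : z ≠ x := fun h => hz (by rw [h]; exact hx)
      have e2 : z ≠ y := fun h => hz (by rw [h]; exact hy)
      have e3 : z ≠ c x := fun h => hz (by rw [h, hkc]; exact hx)
      have e4 : z ≠ c y := fun h => hz (by rw [h, hkc]; exact hy)
      simp only [Pi.add_apply, Pi.sub_apply, Pi.single_apply, if_neg e1, if_neg e2, if_neg e3,
        if_neg e4]
      ring)
    (by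
      intro σ
      simp only [Pi.add_apply, Pi.sub_apply, mul_add, mul_sub, sum_add_distrib, sum_sub_distrib,
        Pi.single_apply, mul_ite, mul_one, mul_zero, sum_ite_eq', mem_univ, if_true]
      have e1 : (r (σ • c x) : ZMod p) = - r (σ • x) := by
        rw [← S.cg, hrc _ ((hinv σ x).trans hsx)]
      have e2 : (r (σ • c y) : ZMod p) = - r (σ • y) := by
        rw [← S.cg, hrc _ ((hinv σ y).trans hsy)]
      rw [e1, e2, hcong]
      ring)
  have h4 := congrFun key x
  simp only [Pi.add_apply, Pi.sub_apply, Pi.single_apply, if_true, Pi.zero_apply] at h4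
  rw [if_neg hcx.symm, if_neg h1.symm, if_neg h3.symm] at h4
  simp at h4

end

end Pool.Agent.H943.KP
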