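import Mathlib
import Pool.Agent.H943.KP.ModP

/-!
# The conditions for a product
-/

set_option autoImplicit false
set_option linter.unusedSectionVars false

open Finset MulAction

namespace Pool.Agent.H943.KP

variable {G X Y ι : Type} [Group G] [MulAction G X] [MulAction G Y] [Fintype X] [Fintype Y]
  [DecidableEq Y] {κ : Y → ι} {H : Subgroup G} {π : X → Y} {c : X → X} {c' : Y → Y}
  {r : X → ℕ} {n' : ι → ℕ} {t : Y → ℕ} {N : ι → ℕ}
  (S : DatM κ H π c c' r n' t N)
include S

theorem cc' (y : Y) : c' (c' y) = y := by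
  obtain ⟨x, rfl⟩ := S.surj y
  rw [← S.pc, ← S.pc, S.cc]

theorem cg' (σ : G) (y : Y) : c' (σ • y) = σ • c' y := by
  obtain ⟨x, rfl⟩ := S.surj y
  rw [← S.eqv, ← S.pc, S.cg, S.eqv, S.pc]

/-- The sum of the translate over a fibre. -/
theorem sum_fib (σ : G) (y : Y) :
    ∑ z ∈ univ.filter (fun z => π z = y), ((r (σ • z) : ℝ) - r (c (σ • z))) =
      (t (σ • y) : ℝ) - t (c' (σ • y)) := by
  classical
  have h1 : ∑ z ∈ univ.filter (fun z => π z = y), ((r (σ • z) : ℝ) - r (c (σ • z))) =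
      ∑ z ∈ univ.filter (fun z => π z = σ • y), ((r z : ℝ) - r (c z)) := by
    refine Finset.sum_bij' (fun x _ => σ • x) (fun x _ => σ⁻¹ • x) ?_ ?_ ?_ ?_ ?_
    · intro x hx
      rw [mem_filter] at hx ⊢
      exact ⟨mem_univ _, by rw [S.eqv, hx.2]⟩
    · intro x hx
      rw [mem_filter] at hx ⊢
      exact ⟨mem_univ _, by rw [S.eqv, hx.2, inv_smul_smul]⟩
    · intro x _
      exact inv_smul_smul σ x
    · intro x _
      exact smul_inv_smul σ x
    · intro x _
      rfl
  have h2 : ∀ y, ∑ z ∈ univ.filter (fun z => π z = y), (r z : ℝ) = t y := by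
    intro y
    rw [← S.fib, Nat.cast_sum]
    exact Finset.sum_subtype _ (fun x => by simp) (fun x => (r x : ℝ))
  have h3 : ∀ y, ∑ z ∈ univ.filter (fun z => π z = y), (r (c z) : ℝ) =
      ∑ z ∈ univ.filter (fun z => π z = c' y), (r z : ℝ) := by
    intro y
    refine Finset.sum_bij' (fun x _ => c x) (fun x _ => c x) ?_ ?_ ?_ ?_ ?_
    · intro x hx
      rw [mem_filter] at hx ⊢
      exact ⟨mem_univ _, by rw [S.pc, hx.2]⟩
    · intro x hx
      rw [mem_filter] at hx ⊢
      exact ⟨mem_univ _, by rw [S.pc, hx.2, cc' S]⟩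
    · intro x _
      exact S.cc x
    · intro x _
      exact S.cc x
    · intro x _
      rfl
  rw [h1, sum_sub_distrib, h2, h3, h2]

/-- **The blocks** are separated by the averages. -/
theorem block_zero
    (hQ : ∀ L : Y → ℂ, (∀ y, L (c' y) = - L y) →
      (∀ σ : G, ∑ y, (t (σ • y) : ℂ) * L y = 0) → L = 0)
    (A : ι → Prop) (hA : ∀ i k, A i → ¬ A k → Nat.Coprime (N i) (N k))
    (lam : X → ℝ) (hodd : ∀ x, lam (c x) = - lam x)
    (h : ∀ σ : G, ∑ x, ((r (σ • x) : ℝ) - r (c (σ • x))) * lam x = 0) (σ : G) :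
    open Classical in
    ∑ x ∈ univ.filter (fun x => A (κ (π x))), ((r (σ • x) : ℝ) - r (c (σ • x))) * lam x = 0 := by
  classical
  obtain ⟨m, hm⟩ : ∃ m : Y → ℝ, m = fun y => ((univ.filter (fun z => π z = y)).card : ℝ) :=
    ⟨_, rfl⟩
  obtain ⟨L, hL⟩ : ∃ L : Y → ℝ, L = fun y =>
    (∑ x ∈ univ.filter (fun z => π z = y), lam x) / m y := ⟨_, rfl⟩
  have hdvd : ∀ y, Fintype.card {w // π w = y} ∣ N (κ y) := fun y =>
    Dvd.intro_left _ (S.card y)
  have key : ∀ (A : ι → Prop), (∀ i k, A i → ¬ A k → Nat.Coprime (N i) (N k)) → ∀ σ : G,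
      ∑ x ∈ univ.filter (fun x => A (κ (π x))), ((r (σ • x) : ℝ) - r (c (σ • x))) * lam x =
      ∑ y, if A (κ y) then ((t (σ • y) : ℝ) - t (c' (σ • y))) * L y else 0 := by
    intro A hA σ
    have h1 := avg_block S.triv S.eqv S.trH (fun x => (r x : ℝ) - r (c x)) lam h
      (fun x => A (κ (π x))) (fun x x' hx hx' =>
        Nat.Coprime.coprime_dvd_left (hdvd _) (Nat.Coprime.coprime_dvd_right (hdvd _)
          (hA _ _ hx hx'))) σ
    rw [h1, Finset.sum_filter, ← Finset.sum_fiberwise (s := univ) π]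
    refine sum_congr rfl fun y _ => ?_
    by_cases hy : A (κ y)
    · rw [if_pos hy]
      have h2 : ∀ x ∈ univ.filter (fun x => π x = y),
          (if A (κ (π x)) then lam x * ((∑ z ∈ univ.filter (fun z => π z = π x),
            ((r (σ • z) : ℝ) - r (c (σ • z)))) / (univ.filter (fun z => π z = π x)).card)
            else 0) = lam x * (((t (σ • y) : ℝ) - t (c' (σ • y))) / m y) := by
        intro x hx
        have hx' := (mem_filter.1 hx).2
        rw [hx', if_pos hy, sum_fib S, hm]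
      rw [sum_congr rfl h2, ← sum_mul, hL]
      ring
    · rw [if_neg hy]
      refine sum_eq_zero fun x hx => ?_
      have hx' := (mem_filter.1 hx).2
      rw [hx', if_neg hy]
  -- the function on the base is zero
  have hLc : ∀ y, L (c' y) = - L y := by
    intro y
    have e1 : ∑ x ∈ univ.filter (fun z => π z = c' y), lam x =
        - ∑ x ∈ univ.filter (fun z => π z = y), lam x := by
      rw [← sum_neg_distrib]
      refine Finset.sum_bij' (fun x _ => c x) (fun x _ => c x) ?_ ?_ ?_ ?_ ?_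
      · intro x hx
        rw [mem_filter] at hx ⊢
        exact ⟨mem_univ _, by rw [S.pc, hx.2, cc' S]⟩
      · intro x hx
        rw [mem_filter] at hx ⊢
        exact ⟨mem_univ _, by rw [S.pc, hx.2]⟩
      · intro x _
        exact S.cc x
      · intro x _
        exact S.cc x
      · intro x _
        rw [hodd, neg_neg]
    have e2 : m (c' y) = m y := by
      rw [hm]
      change ((univ.filter (fun z => π z = c' y)).card : ℝ) = (univ.filter (fun z => π z = y)).card
      congr 1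
      refine Finset.card_bij' (fun x _ => c x) (fun x _ => c x) ?_ ?_ ?_ ?_
      · intro x hx
        rw [mem_filter] at hx ⊢
        exact ⟨mem_univ _, by rw [S.pc, hx.2, cc' S]⟩
      · intro x hx
        rw [mem_filter] at hx ⊢
        exact ⟨mem_univ _, by rw [S.pc, hx.2]⟩
      · intro x _
        exact S.cc x
      · intro x _
        exact S.cc x
    rw [hL]
    change (∑ x ∈ univ.filter (fun z => π z = c' y), lam x) / m (c' y) = _
    rw [e1, e2, neg_div]
  have hL0 : L = 0 := by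
    have h1 := hQ (fun y => (L y : ℂ)) (fun y => by
      rw [hLc]
      push_cast
      rfl) (fun σ => by
      have h2 := key (fun _ => True) (fun _ _ _ h => absurd trivial h) σ
      simp only [if_true, filter_true] at h2
      rw [h σ] at h2
      have h3 : ∑ y, ((t (σ • y) : ℝ) - t (c' (σ • y))) * L y = 2 * ∑ y, (t (σ • y) : ℝ) * L y := by
        have h4 : ∑ y, (t (c' (σ • y)) : ℝ) * L y = - ∑ y, (t (σ • y) : ℝ) * L y := by
          rw [← sum_neg_distrib]
          refine Fintype.sum_equiv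
            { toFun := c', invFun := c', left_inv := cc' S, right_inv := cc' S } _ _ fun y => ?_
          change _ = - ((t (σ • c' y) : ℝ) * L (c' y))
          rw [hLc, cg' S]
          ring
        simp only [sub_mul, sum_sub_distrib]
        rw [h4]
        ring
      rw [h3] at h2
      have h5 : ∑ y, (t (σ • y) : ℝ) * L y = 0 := by linarith
      have h6 : ((∑ y, (t (σ • y) : ℝ) * L y : ℝ) : ℂ) = 0 := by rw [h5, Complex.ofReal_zero]
      push_cast at h6
      exact h6)
    funext y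
    have h2 := congrFun h1 y
    exact Complex.ofReal_eq_zero.1 h2
  rw [key A hA σ]
  refine sum_eq_zero fun y _ => ?_
  rw [hL0]
  simp

/-- The blocks for complex functions. -/
theorem block_zeroC
    (hQ : ∀ L : Y → ℂ, (∀ y, L (c' y) = - L y) →
      (∀ σ : G, ∑ y, (t (σ • y) : ℂ) * L y = 0) → L = 0)
    (A : ι → Prop) (hA : ∀ i k, A i → ¬ A k → Nat.Coprime (N i) (N k))
    (lam : X → ℂ) (hodd : ∀ x, lam (c x) = - lam x)
    (h : ∀ σ : G, ∑ x, ((r (σ • x) : ℂ) - r (c (σ • x))) * lam x = 0) (σ : G) :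
    open Classical in
    ∑ x, ((r (σ • x) : ℂ) - r (c (σ • x))) * (if A (κ (π x)) then lam x else 0) = 0 := by
  classical
  have e1 : ∀ x (z : ℂ), (((r x : ℂ) - r (c x)) * z).re = ((r x : ℝ) - r (c x)) * z.re := by
    intro x z
    have h2 : ((r x : ℂ) - r (c x)) = (((r x : ℝ) - r (c x) : ℝ) : ℂ) := by push_cast; rfl
    rw [h2, Complex.re_ofReal_mul]
  have e2 : ∀ x (z : ℂ), (((r x : ℂ) - r (c x)) * z).im = ((r x : ℝ) - r (c x)) * z.im := by
    intro x z
    have h2 : ((r x : ℂ) - r (c x)) = (((r x : ℝ) - r (c x) : ℝ) : ℂ) := by push_cast; rfl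
    rw [h2, Complex.im_ofReal_mul]
  have h1 := block_zero S hQ A hA (fun x => (lam x).re) (fun x => by rw [hodd, Complex.neg_re])
    (fun σ => by
      have h2 := congrArg Complex.re (h σ)
      rw [Complex.re_sum] at h2
      simp only [e1, Complex.zero_re] at h2
      exact h2) σ
  have h2 := block_zero S hQ A hA (fun x => (lam x).im) (fun x => by rw [hodd, Complex.neg_im])
    (fun σ => by
      have h2 := congrArg Complex.im (h σ)
      rw [Complex.im_sum] at h2
      simp only [e2, Complex.zero_im] at h2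
      exact h2) σ
  rw [Finset.sum_filter] at h1 h2
  apply Complex.ext
  · rw [Complex.re_sum, Complex.zero_re, ← h1]
    refine sum_congr rfl fun x _ => ?_
    rw [e1]
    split_ifs
    · rfl
    · rw [Complex.zero_re, mul_zero]
  · rw [Complex.im_sum, Complex.zero_im, ← h2]
    refine sum_congr rfl fun x _ => ?_
    rw [e2]
    split_ifs
    · rfl
    · rw [Complex.zero_im, mul_zero]

/-- **The conditions for a product.** -/
theorem conM
    (f1 : ∀ x, ∃ σ : G, Nat.Coprime (r (σ • x)) (r (c (σ • x))))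
    (f2 : ∀ x y, κ (π x) = κ (π y) → y ≠ x → y ≠ c x → n' (κ (π x)) ≠ 1 →
      (∀ σ : G, r (σ • x) = r (σ • y) ∨
      (r (σ • x) * r (c (σ • x)) = 0 ∧ r (σ • y) * r (c (σ • y)) = 0)) → False)
    (f3 : ∀ i, ∀ lam : X → ℂ, (∀ x, lam (c x) = - lam x) → (∀ x, κ (π x) ≠ i → lam x = 0) →
      (∀ σ : G, ∑ x, ((r (σ • x) : ℂ) - r (c (σ • x))) * lam x = 0) → lam = 0)
    (hpp : ∀ i k, i ≠ k → Nat.Coprime (N i) (N k) ∨
      ∃ p : ℕ, p.Prime ∧ p ≠ 2 ∧ (∃ a, N i = p ^ a) ∧ ∃ b, N k = p ^ b)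
    (hQ : (∃ i k : ι, i ≠ k) → ∀ L : Y → ℂ, (∀ y, L (c' y) = - L y) →
      (∀ σ : G, ∑ y, (t (σ • y) : ℂ) * L y = 0) → L = 0)
    (hM : ∀ p : ℕ, p.Prime → p ≠ 2 → (∃ i k : ι, i ≠ k ∧ p ∣ N i ∧ p ∣ N k) →
      ∀ L : Y → ZMod p, (∀ y, L (c' y) = - L y) → (∀ y, ¬ p ∣ N (κ y) → L y = 0) →
      (∀ σ : G, ∑ y, (t (σ • y) : ZMod p) * L y = 0) → L = 0) :
    ConM (G := G) c r := by
  classical
  -- the factors divisible by `p`
  have hpow : ∀ p : ℕ, p.Prime → (∃ i k : ι, i ≠ k ∧ p ∣ N i ∧ p ∣ N k) →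
      ∀ l, p ∣ N l → ∃ a, N l = p ^ a := by
    rintro p hp ⟨i, k, hik, hi, hk⟩ l hl
    obtain ⟨m, hm1, hm2⟩ : ∃ m, l ≠ m ∧ p ∣ N m := by
      by_cases h : l = i
      · exact ⟨k, by rw [h]; exact hik, hk⟩
      · exact ⟨i, h, hi⟩
    rcases hpp l m hm1 with h1 | ⟨q, hq, -, ⟨a, ha⟩, -⟩
    · exact absurd (Nat.eq_one_of_dvd_coprimes h1 hl hm2) hp.one_lt.ne'
    · rw [ha] at hl
      have h2 := (Nat.prime_dvd_prime_iff_eq hp hq).1 (hp.dvd_of_dvd_pow hl)
      exact ⟨a, by rw [ha, h2]⟩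
  have hncp : ∀ i k, i ≠ k → ¬ Nat.Coprime (N i) (N k) →
      ∃ p : ℕ, p.Prime ∧ p ≠ 2 ∧ p ∣ N i ∧ p ∣ N k := by
    intro i k hik hnc
    obtain ⟨p, hp, hp2, ⟨a, ha⟩, ⟨b, hb⟩⟩ := (hpp i k hik).resolve_left hnc
    refine ⟨p, hp, hp2, ?_, ?_⟩
    · rw [ha]
      refine dvd_pow_self p ?_
      rintro rfl
      apply hnc
      rw [ha, pow_zero]
      exact Nat.coprime_one_left _
    · rw [hb]
      refine dvd_pow_self p ?_
      rintro rfl
      apply hnc
      rw [hb, pow_zero]
      exact Nat.coprime_one_right _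
  have hcardp : ∀ p : ℕ, p.Prime → (∃ i k : ι, i ≠ k ∧ p ∣ N i ∧ p ∣ N k) → ∀ y, p ∣ N (κ y) →
      ∃ b, Fintype.card {x // π x = y} = p ^ b := by
    intro p hp hik y hy
    obtain ⟨a, ha⟩ := hpow p hp hik _ hy
    have h1 := S.card y
    rw [ha] at h1
    obtain ⟨b, -, hb⟩ := (Nat.dvd_prime_pow hp).1 (h1 ▸ dvd_mul_left _ _ :
      Fintype.card {x // π x = y} ∣ p ^ a)
    exact ⟨b, hb⟩
  refine ⟨f1, ?_, ?_⟩
  · intro x y h1 h2 h3 h4 h5
    by_cases hk : κ (π x) = κ (π y)
    · exact f2 x y hk h1 h2 (by rw [← S.sum]; exact h4) h5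
    · by_cases h6 : Nat.Coprime (N (κ (π x))) (N (κ (π y)))
      · apply h4
        have e1 : r x + r (c x) ∣ N (κ (π x)) := by
          rw [S.sum]
          exact Dvd.intro _ (S.card (π x))
        have e2 : r x + r (c x) ∣ N (κ (π y)) := by
          rw [h3, S.sum]
          exact Dvd.intro _ (S.card (π y))
        exact Nat.eq_one_of_dvd_coprimes h6 e1 e2
      · obtain ⟨p, hp, hp2, h6, h7⟩ := hncp _ _ hk h6
        have : Fact p.Prime := ⟨hp⟩
        have hik : ∃ i k : ι, i ≠ k ∧ p ∣ N i ∧ p ∣ N k := ⟨_, _, hk, h6, h7⟩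
        refine sepP S hp2 (A := fun i => p ∣ N i) (hcardp p hp hik)
          (hM p hp hp2 hik) (x := x) (y := y) h6 h7 h1 h2
          (m := r x + r (c x)) ?_ rfl h3.symm h4 h5
        rw [S.sum]
        obtain ⟨a, ha⟩ := hpow p hp hik _ h6
        have h8 := S.card (π x)
        rw [ha] at h8
        obtain ⟨b, -, hb⟩ := (Nat.dvd_prime_pow hp).1 (h8 ▸ dvd_mul_right _ _ :
          n' (κ (π x)) ∣ p ^ a)
        exact ⟨b, hb⟩
  · intro lam hodd h
    have hkc : ∀ x, κ (π (c x)) = κ (π x) := fun x => by rw [S.pc, S.kc]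
    funext x
    rw [Pi.zero_apply]
    by_cases hex : ∃ k, k ≠ κ (π x)
    swap
    · push Not at hex
      exact congrFun (f3 (κ (π x)) lam hodd (fun z hz => absurd (hex _) hz) h) x
    obtain ⟨k0, hk0⟩ := hex
    have hQ' := hQ ⟨_, _, hk0⟩
    by_cases hnc : ∃ k, k ≠ κ (π x) ∧ ¬ Nat.Coprime (N (κ (π x))) (N k)
    · obtain ⟨k, hk, hnc⟩ := hnc
      obtain ⟨p, hp, hp2, h6, h7⟩ := hncp _ _ hk.symm hnc
      have : Fact p.Prime := ⟨hp⟩
      have hik : ∃ i k : ι, i ≠ k ∧ p ∣ N i ∧ p ∣ N k := ⟨_, _, hk.symm, h6, h7⟩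
      have hA : ∀ i k, p ∣ N i → ¬ p ∣ N k → Nat.Coprime (N i) (N k) := by
        intro i k hi hk'
        obtain ⟨a, ha⟩ := hpow p hp hik _ hi
        rw [ha]
        exact Nat.Coprime.pow_left a ((Nat.Prime.coprime_iff_not_dvd hp).2 hk')
      have h8 := ndP S hp2 (A := fun i => p ∣ N i) (hcardp p hp hik)
        (hM p hp hp2 hik)
        (fun x => if p ∣ N (κ (π x)) then lam x else 0) (fun z => by
          rw [hkc, hodd]
          split_ifs
          · rfl
          · rw [neg_zero]) (fun z hz => if_neg hz)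
        (fun σ => by
          have h9 := block_zeroC S hQ' (fun i => p ∣ N i) hA lam hodd h σ
          convert h9)
      have h9 := congrFun h8 x
      simp only [if_pos h6, Pi.zero_apply] at h9
      exact h9
    · push Not at hnc
      have h8 := f3 (κ (π x)) (fun z => if κ (π z) = κ (π x) then lam z else 0) (fun z => by
          rw [hkc, hodd]
          split_ifs
          · rfl
          · rw [neg_zero]) (fun z hz => if_neg hz)
        (fun σ => by
          have h9 := block_zeroC S hQ' (fun i => i = κ (π x)) (by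
            rintro i k rfl hk
            exact hnc k hk) lam hodd h σ
          convert h9)
      have h9 := congrFun h8 x
      simp only [if_true, Pi.zero_apply] at h9
      exact h9

end Pool.Agent.H943.KP
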