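import Mathlib
import Pool.Agent.H943.KP.Block

/-!
# The family of the idempotents of the factors
-/

set_option autoImplicit false
set_option linter.unusedSectionVars false

namespace Pool.Agent.H943.KP

open Matrix Module Pool.Agent.H204R3.CM Pool.Agent.H194R3.CM Pool.Agent.W437.HC
  Pool.Agent.W437.HD Pool.Agent.W437.HQ Pool.Agent.W548.Odd Pool.Agent.TH125 Pool.Agent.Y4
  Pool.Agent.Y4.G Pool.Agent.Y4.K Pool.Agent.H943.KS Pool.Agent.H943.KF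

open Pool.Agent.Y4.H (exists_prims LZ Ct map_smul_aut' D_mem_LZ Dσ_mem_LZ)

variable {g : ℕ} {Z : Matrix (Fin g) (Fin g) ℂ}

/-- The embeddings of the fields of a family. -/
abbrev Em {ι : Type} (F : ι → Type) [∀ i, Field (F i)] : Type := Σ i, (F i →+* ℂ)

/-- The action of the automorphisms of `ℂ` on the embeddings. -/
@[reducible] def emAct {ι : Type} (F : ι → Type) [∀ i, Field (F i)] :
    MulAction (RingAut ℂ) (Em F) where
  smul σ y := ⟨y.1, (σ : ℂ →+* ℂ).comp y.2⟩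
  one_smul y := by
    obtain ⟨i, τ⟩ := y
    change (⟨i, _⟩ : Em F) = ⟨i, τ⟩
    congr 1
  mul_smul σ ρ y := by
    obtain ⟨i, τ⟩ := y
    change (⟨i, _⟩ : Em F) = ⟨i, _⟩
    congr 1

variable {ι : Type} [Fintype ι] {D : ι → Type} [∀ i, DivisionRing (D i)]
  {F : ι → Type} [∀ i, Field (F i)] [∀ i, NumberField (F i)]
  (ρ : ∀ i, D i →ₙ+* MQ g) (j : ∀ i, F i →+* D i)

/-- The idempotents of the family. -/
noncomputable def PP (y : Em F) : Matrix (Fin g ⊕ Fin g) (Fin g ⊕ Fin g) ℂ :=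
  ptn (fj (ρ y.1) (j y.1)) y.2

variable {ρ j} (M : Pol Z) (hB : ∀ i, Bk Z (ρ i))
  (horth : ∀ i k, i ≠ k → ρ i 1 * ρ k 1 = 0) (hsum : ∑ i, ρ i 1 = 1)

include M hB horth hsum in
theorem idF_of : @IdF g Z (Em F) _ (emAct F) (PP ρ j) := by
  classical
  let _ := emAct F
  refine ⟨?_, ?_, ?_, ?_, ?_⟩
  · rintro ⟨i, τ⟩
    exact Ct_ptn M (endo_fj (hB i)) τ
  · rintro ⟨i, τ⟩
    exact ptn_idem _ τ
  · rintro ⟨i, τ⟩ ⟨k, τ'⟩ h
    by_cases hik : i = k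
    · subst hik
      exact ptn_orth _ fun h1 => h (congrArg (Sigma.mk i) h1)
    · change ptn (fj (ρ i) (j i)) τ * ptn (fj (ρ k) (j k)) τ' = 0
      rw [← ptn_one (ρ := ρ i) τ, ← one_ptn (ρ := ρ k) τ', mul_assoc,
        ← mul_assoc (cq (ρ i 1)), ← cq_mul, horth i k hik, cq_zero, zero_mul, mul_zero]
  · rintro σ ⟨i, τ⟩
    exact ptn_map _ τ σ
  · rw [Fintype.sum_sigma]
    have h1 : ∀ i, ∑ τ : F i →+* ℂ, PP ρ j ⟨i, τ⟩ = cq (ρ i 1) := by
      intro i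
      have h2 := sum_ptn (fj (ρ i) (j i))
      rw [fj_one] at h2
      exact h2
    rw [Finset.sum_congr rfl fun i _ => h1 i, ← cq_sum, hsum, cq_one]

omit [Fintype ι] in
/-- The dimension of the part of the homology. -/
theorem dim_ptn {i : ι} {d N : ℕ} (hdim : (ρ i 1).rank = finrank ℚ (F i) * (d * N))
    (τ : F i →+* ℂ) : trace (PP ρ j ⟨i, τ⟩) = ((d * N : ℕ) : ℂ) := by
  classical
  change trace (ptn (fj (ρ i) (j i)) τ) = _
  obtain ⟨f, hf⟩ : ∃ f, f = fj (ρ i) (j i) := ⟨_, rfl⟩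
  rw [← hf]
  have h0 : ∀ τ' : F i →+* ℂ, trace (ptn f τ') = trace (ptn f τ) := by
    intro τ'
    obtain ⟨σ, rfl⟩ := exists_aut_emb τ τ'
    have h3 : trace ((ptn f τ).map (σ : ℂ →+* ℂ)) = σ (trace (ptn f τ)) :=
      (AddMonoidHom.map_trace (σ : ℂ →+* ℂ).toAddMonoidHom _).symm
    rw [← ptn_map, h3, trace_idemM (ptn_idem f τ), map_natCast]
  have h1 : trace (∑ τ' : F i →+* ℂ, ptn f τ') = (((ρ i 1).rank : ℕ) : ℂ) := by
    rw [sum_ptn, hf, fj_one, trace_cq]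
    have h2 : trace (ρ i 1) = (((ρ i 1).rank : ℕ) : ℚ) := by
      have h3 : IsIdempotentElem (Matrix.mulVecLin (ρ i 1)) := by
        change Matrix.mulVecLin (ρ i 1) ∘ₗ Matrix.mulVecLin (ρ i 1) = _
        rw [← Matrix.mulVecLin_mul, ← map_mul, one_mul]
      have h4 := (LinearMap.IsIdempotentElem.isProj_range _ h3).trace
      have h5 : LinearMap.trace ℚ (Fin g ⊕ Fin g → ℚ) (Matrix.mulVecLin (ρ i 1)) =
          trace (ρ i 1) := by
        rw [← Matrix.toLin'_apply', Matrix.trace_toLin'_eq]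
      rw [← h5, h4]
      rfl
    rw [h2]
    push_cast
    rfl
  rw [trace_sum, Finset.sum_congr rfl fun τ' _ => h0 τ', Finset.sum_const, Finset.card_univ,
    nsmul_eq_mul, NumberField.Embeddings.card, hdim] at h1
  have h2 : ((finrank ℚ (F i) : ℕ) : ℂ) ≠ 0 := Nat.cast_ne_zero.2 finrank_pos.ne'
  apply mul_left_cancel₀ h2
  rw [h1]
  push_cast
  ring

include M hB horth hsum in
/-- **The data of a product.** -/
theorem dat_main [DecidableEq (Em F)] [∀ i, Algebra ℚ (D i)] [∀ i, Module.Finite ℚ (D i)]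
    (hj : ∀ i a x, j i a * x = x * j i a) (n N : ι → ℕ) (t : ∀ i, (F i →+* ℂ) → ℕ)
    (hdeg : ∀ i, finrank ℚ (D i) = n i ^ 2 * finrank ℚ (Subalgebra.center ℚ (D i)))
    (hdim : ∀ i, (ρ i 1).rank = finrank ℚ (F i) * (n i * N i))
    (hsig : ∀ i τ, finrank ℂ (TFn Z (fj (ρ i) (j i)) τ) = n i * t i τ) (hN0 : ∀ i, 0 < N i)
    (hcop : ∀ y : Em F, Nat.Coprime (N y.1) (Nat.card
      {π : (@MulAction.toPermHom (RingAut ℂ) (Em F) _ (emAct F)).range //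
        (π : Equiv.Perm (Em F)) y = y}))
    (hplace : (∀ i τ, t i τ + t i ((starRingEnd ℂ).comp τ) = N i) →
      ∀ i, ∃ τ, Nat.Coprime (t i τ) (N i))
    (hsepY : (∀ i τ, t i τ + t i ((starRingEnd ℂ).comp τ) = N i) →
      (∀ i (τ τ' : F i →+* ℂ), ∃ σ : RingAut ℂ, (σ : ℂ →+* ℂ).comp τ = τ') →
      ∀ y y' : Em F, y ≠ y' → ∃ σ : RingAut ℂ,
        t y.1 ((σ : ℂ →+* ℂ).comp y.2) ≠ t y'.1 ((σ : ℂ →+* ℂ).comp y'.2)) :
    ∃ (_ : Fintype (Cl Z)) (H : Subgroup (RingAut ℂ)) (π : Cl Z → Em F) (n' : ι → ℕ),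
      (∀ i τ, t i τ + t i ((starRingEnd ℂ).comp τ) = N i) ∧
      (∀ i (τ τ' : F i →+* ℂ), ∃ σ : RingAut ℂ, (σ : ℂ →+* ℂ).comp τ = τ') ∧
      (letI := clAct M
       letI := emAct F
       DatM (Sigma.fst : Em F → ι) H π (clBar M)
        (fun y => (⟨y.1, (starRingEnd ℂ).comp y.2⟩ : Em F)) (clMu M) n'
        (fun y => t y.1 y.2) N) := by
  classical
  let _ := emAct F
  have hP := idF_of (j := j) M hB horth hsum
  obtain ⟨I, hI, ε, f1, f2, f3⟩ := M.exists_family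
  have Fm : Pol.Fam ε := ⟨f1, f2, f3⟩
  have hn0 : ∀ i, 0 < n i := by
    intro i
    rcases Nat.eq_zero_or_pos (n i) with h | h
    · have h1 := hdeg i
      rw [h] at h1
      have h2 : 0 < finrank ℚ (D i) := finrank_pos
      simp at h1
      omega
    · exact h
  have hact : ∀ (σ : RingAut ℂ) i (τ : F i →+* ℂ), σ • (⟨i, τ⟩ : Em F) =
      ⟨i, (σ : ℂ →+* ℂ).comp τ⟩ := fun _ _ _ => rfl
  obtain ⟨i1, H, π, n', tsum, htr, S⟩ := dat_fam M hP (Sigma.fst : Em F → ι) (fun _ _ => rfl) n N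
    (fun y => t y.1 y.2) hN0 hn0 (by
      rintro φ ψ ⟨i, τ⟩ ⟨k, τ'⟩ hk h1 h2
      have hk' : i = k := hk
      subst hk'
      obtain ⟨σ, h3, h4⟩ := pair_trP M (hB i) (hj i) Fm hP (ν := fun τ => (⟨i, τ⟩ : Em F))
        (fun τ => rfl) (fun σ τ => rfl) h1 h2
      refine ⟨σ, h3, ?_⟩
      rw [hact]
      exact congrArg (Sigma.mk i) h4) (by
      rintro φ ⟨i, τ⟩ h
      exact degree_le_rkP M (hB i) (hj i) (ν := fun τ => (⟨i, τ⟩ : Em F)) (fun τ => rfl)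
        (hdeg i) h) (by
      rintro ⟨i, τ⟩
      exact dim_ptn (hdim i) τ) (by
      rintro ⟨i, τ⟩
      change _ = ((n i * t i τ : ℕ) : ℂ)
      rw [← hsig]
      exact (dim_TFn M (endo_fj (hB i)) τ).symm) hcop (by
      intro h1 i
      obtain ⟨τ, hτ⟩ := hplace (fun i τ => h1 ⟨i, τ⟩) i
      exact ⟨⟨i, τ⟩, rfl, hτ⟩) (by
      intro h1 h2 y y' hne
      exact hsepY (fun i τ => h1 ⟨i, τ⟩) (fun i τ τ' => by
        obtain ⟨σ, hσ⟩ := h2 ⟨i, τ⟩ ⟨i, τ'⟩ rfl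
        rw [hact] at hσ
        exact ⟨σ, eq_of_heq (Sigma.mk.inj hσ).2⟩) y y' hne)
  refine ⟨i1, H, π, n', fun i τ => tsum ⟨i, τ⟩, fun i τ τ' => ?_, ?_⟩
  · obtain ⟨σ, hσ⟩ := htr ⟨i, τ⟩ ⟨i, τ'⟩ rfl
    rw [hact] at hσ
    exact ⟨σ, eq_of_heq (Sigma.mk.inj hσ).2⟩
  · exact S

end Pool.Agent.H943.KP
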