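import Mathlib
import Pool.Agent.H943.KP.Link
import Pool.Agent.H943.KF.Fin3

/-!
# The factors of the data
-/

set_option autoImplicit false
set_option linter.unusedSectionVars false

namespace Pool.Agent.H943.KP

open Matrix Module Pool.Agent.H204R3.CM Pool.Agent.H194R3.CM Pool.Agent.W437.HC
  Pool.Agent.W437.HD Pool.Agent.W437.HQ Pool.Agent.W548.Odd Pool.Agent.TH125 Pool.Agent.Y4
  Pool.Agent.Y4.G Pool.Agent.Y4.K Pool.Agent.H943.KS Pool.Agent.H943.KF

open NumberField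

section

variable {F : Type} [Field F] [NumberField F] [IsCMField F] {N : ℕ} {t : (F →+* ℂ) → ℕ}
  (h3 : 3 ≤ N) (hsum : ∀ τ, t τ + t ((starRingEnd ℂ).comp τ) = N)
include h3 hsum

theorem con_goodA (hA : GoodA N t) [DecidableEq (F →+* ℂ)]
    {X : Type} [Fintype X] [MulAction (RingAut ℂ) X]
    {H : Subgroup (RingAut ℂ)} {π : X → (F →+* ℂ)} {c : X → X} {r : X → ℕ} {n' : ℕ}
    (S : letI := embAct F
      Dat H π c (fun τ => (starRingEnd ℂ).comp τ) r n' t N) : Con (G := RingAut ℂ) c r n' := by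
  classical
  obtain ⟨τ₀, hc, h12, hdef⟩ := hA
  have hgood := good_of h3 hc h12
  let _ := embAct F
  have S' : SigA (G := RingAut ℂ) H π c (fun τ => (starRingEnd ℂ).comp τ) r n' t N τ₀ :=
    { normal := S.normal
      triv := S.triv
      eqv := S.eqv
      tr := S.tr
      surj := S.surj
      cc := S.cc
      cg := S.cg
      pc := S.pc
      ne := fun τ => cm_ne τ
      trH := S.trH
      sum := S.sum
      fib := S.fib
      card := S.card
      def0 := hdef
      good := hgood }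
  exact
    { cop := S'.cop
      sep := fun x y h1 h2 h4 h5 => S'.sep h1 h2 h4 h5
      nd := S'.nd }

theorem place_goodA (hA : GoodA N t) : ∃ τ, Nat.Coprime (t τ) N := by
  obtain ⟨τ₀, hc, -⟩ := hA
  exact ⟨τ₀, hc⟩

theorem sepY_goodA (hA : GoodA N t)
    (htr : ∀ (τ τ' : F →+* ℂ), ∃ σ : RingAut ℂ, (σ : ℂ →+* ℂ).comp τ = τ')
    (τ τ' : F →+* ℂ) (hne : τ ≠ τ') : ∃ σ : RingAut ℂ,
      t ((σ : ℂ →+* ℂ).comp τ) ≠ t ((σ : ℂ →+* ℂ).comp τ') := by
  obtain ⟨τ₀, hc, h12, hdef⟩ := hA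
  have hgood := good_of h3 hc h12
  have ht0 : t τ₀ ≠ 0 := by
    intro h
    rw [h, Nat.coprime_zero_left] at hc
    omega
  have htN : t τ₀ ≠ N := by
    intro h
    rw [h, Nat.coprime_self] at hc
    omega
  obtain ⟨σ, hσ⟩ := htr τ τ₀
  refine ⟨σ, fun h => ?_⟩
  rw [hσ] at h
  have h1 : (σ : ℂ →+* ℂ).comp τ' ≠ τ₀ := by
    intro h2
    apply hne
    rw [← hσ] at h2
    ext x
    apply σ.injective
    exact (congrArg (fun f : F →+* ℂ => f x) h2).symm
  by_cases h2 : (σ : ℂ →+* ℂ).comp τ' = (starRingEnd ℂ).comp τ₀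
  · rw [h2] at h
    have h4 := hsum τ₀
    rw [← h] at h4
    exact hgood.two (by omega)
  · rcases hdef _ h1 h2 with h4 | h4
    · exact ht0 (h.trans h4)
    · exact htN (h.trans h4)

omit [IsCMField F] h3 hsum in
theorem odd_pow {p k : ℕ} (hp : p.Prime) (hp2 : p ≠ 2) (hN : N = p ^ k) : ¬ 2 ∣ N := by
  intro h
  rw [hN] at h
  have h1 := Nat.Prime.dvd_of_dvd_pow Nat.prime_two h
  exact hp2 ((Nat.prime_dvd_prime_iff_eq Nat.prime_two hp).1 h1).symm

theorem gen_goodB {p k : ℕ} (hp : p.Prime) (hp2 : p ≠ 2) (hN : N = p ^ k)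
    (hB : (∃ τ₀ : F →+* ℂ, ¬ p ∣ t τ₀ ∧ ∀ τ, τ ≠ τ₀ → τ ≠ (starRingEnd ℂ).comp τ₀ → p ∣ t τ) ∨
      ∀ L : (F →+* ℂ) → ZMod p, (∀ τ, L ((starRingEnd ℂ).comp τ) = - L τ) →
        (∀ σ : ℂ ≃+* ℂ, ∑ τ, (t ((σ : ℂ →+* ℂ).comp τ) : ZMod p) * L τ = 0) → L = 0) :
    ∀ L : (F →+* ℂ) → ZMod p, (∀ τ, L ((starRingEnd ℂ).comp τ) = - L τ) →
        (∀ σ : ℂ ≃+* ℂ, ∑ τ, (t ((σ : ℂ →+* ℂ).comp τ) : ZMod p) * L τ = 0) → L = 0 := by
  have : Fact p.Prime := ⟨hp⟩
  rcases hB with ⟨τ₀, h6, h7⟩ | h6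
  · exact one_place hp2 hN t hsum h6 h7
  · exact h6

theorem con_goodB (hB : GoodB N t) [DecidableEq (F →+* ℂ)]
    {X : Type} [Fintype X] [MulAction (RingAut ℂ) X]
    {H : Subgroup (RingAut ℂ)} {π : X → (F →+* ℂ)} {c : X → X} {r : X → ℕ} {n' : ℕ}
    (S : letI := embAct F
      Dat H π c (fun τ => (starRingEnd ℂ).comp τ) r n' t N) : Con (G := RingAut ℂ) c r n' := by
  classical
  obtain ⟨p, k, hp, hp2, hN, hB⟩ := hB
  have : Fact p.Prime := ⟨hp⟩
  have hk : k ≠ 0 := by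
    rintro rfl
    rw [pow_zero] at hN
    omega
  have hpN : p ∣ N := by
    rw [hN]
    exact dvd_pow_self p hk
  have hgen := gen_goodB h3 hsum hp hp2 hN hB
  let _ := embAct F
  have hpow : ∀ τ, ∃ b, Fintype.card {x // π x = τ} = p ^ b := by
    intro τ
    have h1 := S.card τ
    rw [hN] at h1
    obtain ⟨b, -, hb⟩ := (Nat.dvd_prime_pow hp).1 (h1 ▸ dvd_mul_left _ _ :
      Fintype.card {x // π x = τ} ∣ p ^ k)
    exact ⟨b, hb⟩
  have S' : SigF (G := RingAut ℂ) H p π c (fun τ => (starRingEnd ℂ).comp τ) r n' t :=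
    { normal := S.normal
      triv := S.triv
      cop := fun y => Nat.Coprime.coprime_dvd_left hpN (S.cop y)
      eqv := S.eqv
      tr := S.tr
      surj := S.surj
      card := hpow
      cc := S.cc
      cg := S.cg
      pc := S.pc
      odd := hp2
      sum := S.sum
      pow := by
        obtain ⟨τ₁⟩ : Nonempty (F →+* ℂ) := inferInstance
        have h1 := S.card τ₁
        rw [hN] at h1
        obtain ⟨a, -, ha⟩ := (Nat.dvd_prime_pow hp).1 (h1 ▸ dvd_mul_right _ _ : n' ∣ p ^ k)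
        exact ⟨a, ha⟩
      fib := S.fib
      gen := hgen }
  exact
    { cop := copF S'
      sep := fun x y h1 h2 h4 h5 => sepF S' h1 h2 h4 h5
      nd := ndF S' }

theorem place_goodB (hB : GoodB N t) : ∃ τ, Nat.Coprime (t τ) N := by
  obtain ⟨p, k, hp, hp2, hN, hB⟩ := hB
  have : Fact p.Prime := ⟨hp⟩
  have hgen := gen_goodB h3 hsum hp hp2 hN hB
  by_contra hcon
  push Not at hcon
  obtain ⟨τ₁⟩ : Nonempty (F →+* ℂ) := inferInstance
  have hdiv : ∀ τ, p ∣ t τ := by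
    intro τ
    by_contra h1
    apply hcon τ
    rw [hN]
    exact Nat.Coprime.pow_right k
      ((Nat.coprime_comm).1 ((Nat.Prime.coprime_iff_not_dvd hp).2 h1))
  classical
  have h1 := hgen (Pi.single τ₁ 1 - Pi.single ((starRingEnd ℂ).comp τ₁) 1) (by
      intro z
      have e1 : ∀ w, ((starRingEnd ℂ).comp z = w) ↔ (z = (starRingEnd ℂ).comp w) := fun w =>
        ⟨fun h => by rw [← h, KF.conj_conj], fun h => by rw [h, KF.conj_conj]⟩
      have e2 : ∀ w, ((starRingEnd ℂ).comp z = (starRingEnd ℂ).comp w) ↔ (z = w) := fun w =>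
        ⟨fun h => by rw [← KF.conj_conj z, h, KF.conj_conj], fun h => by rw [h]⟩
      simp only [Pi.sub_apply, Pi.single_apply, e2, e1]
      ring) (by
      intro σ
      refine Finset.sum_eq_zero fun y _ => ?_
      have h2 : (t ((σ : ℂ →+* ℂ).comp y) : ZMod p) = 0 := by
        rw [ZMod.natCast_eq_zero_iff]
        exact hdiv _
      rw [h2, zero_mul])
  have h2 := congrFun h1 τ₁
  simp only [Pi.sub_apply, Pi.single_apply, if_true, Pi.zero_apply] at h2
  rw [if_neg (cm_ne τ₁).symm, sub_zero] at h2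
  exact one_ne_zero h2

theorem sepY_goodB (hB : GoodB N t) (τ τ' : F →+* ℂ) (hne : τ ≠ τ') : ∃ σ : RingAut ℂ,
      t ((σ : ℂ →+* ℂ).comp τ) ≠ t ((σ : ℂ →+* ℂ).comp τ') := by
  classical
  obtain ⟨p, k, hp, hp2, hN, hB⟩ := hB
  have : Fact p.Prime := ⟨hp⟩
  have hgen := gen_goodB h3 hsum hp hp2 hN hB
  have hNodd := odd_pow hp hp2 hN
  let _ := embAct F
  exact t_sepY (G := RingAut ℂ) (p := p) (c' := fun τ : F →+* ℂ =>
    (starRingEnd ℂ).comp τ) (t := t) (N := N) KF.conj_conj (fun σ τ => cm_comm σ τ) hsum hNodd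
    hgen hne

theorem con_good (hA : GoodA N t ∨ GoodB N t) [DecidableEq (F →+* ℂ)]
    {X : Type} [Fintype X] [MulAction (RingAut ℂ) X]
    {H : Subgroup (RingAut ℂ)} {π : X → (F →+* ℂ)} {c : X → X} {r : X → ℕ} {n' : ℕ}
    (S : letI := embAct F
      Dat H π c (fun τ => (starRingEnd ℂ).comp τ) r n' t N) : Con (G := RingAut ℂ) c r n' := by
  rcases hA with h | h
  · exact con_goodA h3 hsum h S
  · exact con_goodB h3 hsum h S

theorem place_good (hA : GoodA N t ∨ GoodB N t) : ∃ τ, Nat.Coprime (t τ) N := by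
  rcases hA with h | h
  · exact place_goodA h3 hsum h
  · exact place_goodB h3 hsum h

theorem sepY_good (hA : GoodA N t ∨ GoodB N t)
    (htr : ∀ (τ τ' : F →+* ℂ), ∃ σ : RingAut ℂ, (σ : ℂ →+* ℂ).comp τ = τ')
    (τ τ' : F →+* ℂ) (hne : τ ≠ τ') : ∃ σ : RingAut ℂ,
      t ((σ : ℂ →+* ℂ).comp τ) ≠ t ((σ : ℂ →+* ℂ).comp τ') := by
  rcases hA with h | h
  · exact sepY_goodA h3 hsum h htr τ τ' hne
  · exact sepY_goodB h3 hsum h τ τ' hne

end

/-- Nondegenerate CM types. -/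
def GoodC {F : Type} [Field F] [NumberField F] (N : ℕ) (t : (F →+* ℂ) → ℕ) : Prop :=
  N = 1 ∧ ∀ L : (F →+* ℂ) → ℂ, (∀ τ, L ((starRingEnd ℂ).comp τ) = - L τ) →
    (∀ σ : ℂ ≃+* ℂ, ∑ τ, (t ((σ : ℂ →+* ℂ).comp τ) : ℂ) * L τ = 0) → L = 0

section

variable {F : Type} [Field F] [NumberField F] [IsCMField F] {N : ℕ} {t : (F →+* ℂ) → ℕ}
  (hsum : ∀ τ, t τ + t ((starRingEnd ℂ).comp τ) = N)
include hsum

theorem con_goodC (hC : GoodC N t) [DecidableEq (F →+* ℂ)]
    {X : Type} [Fintype X] [MulAction (RingAut ℂ) X]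
    {H : Subgroup (RingAut ℂ)} {π : X → (F →+* ℂ)} {c : X → X} {r : X → ℕ} {n' : ℕ}
    (S : letI := embAct F
      Dat H π c (fun τ => (starRingEnd ℂ).comp τ) r n' t N) : Con (G := RingAut ℂ) c r n' := by
  classical
  obtain ⟨rfl, hC⟩ := hC
  let _ := embAct F
  obtain ⟨τ₁⟩ : Nonempty (F →+* ℂ) := inferInstance
  have hn1 : n' = 1 := Nat.eq_one_of_mul_eq_one_right (S.card τ₁)
  have hc1 : ∀ τ, Fintype.card {x // π x = τ} = 1 := fun τ =>
    Nat.eq_one_of_mul_eq_one_left (S.card τ)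
  have hinj : Function.Injective π := by
    intro x z hxz
    obtain ⟨w, hw⟩ := Fintype.card_eq_one_iff.1 (hc1 (π z))
    have h1 := hw ⟨x, hxz⟩
    have h2 := hw ⟨z, rfl⟩
    exact congrArg Subtype.val (h1.trans h2.symm)
  have hr : ∀ x, r x = t (π x) := by
    intro x
    rw [← S.fib (π x), Fintype.sum_eq_single ⟨x, rfl⟩]
    rintro ⟨z, hz⟩ hne
    exact absurd (Subtype.ext (hinj hz)) hne
  let e : X ≃ (F →+* ℂ) := Equiv.ofBijective π ⟨hinj, S.surj⟩
  refine ⟨?_, ?_, ?_⟩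
  · intro x
    refine ⟨1, ?_⟩
    rw [one_smul]
    have h1 := S.sum x
    rcases Nat.eq_zero_or_pos (r x) with h2 | h2
    · have h3 : r (c x) = 1 := by omega
      rw [h3]
      exact Nat.coprime_one_right _
    · have h3 : r x = 1 := by omega
      rw [h3]
      exact Nat.coprime_one_left _
  · intro x y _ _ h1 _
    exact h1 hn1
  · intro lam hodd h
    have hes : ∀ τ, π (e.symm τ) = τ := fun τ => e.apply_symm_apply τ
    have hL := hC (fun τ => lam (e.symm τ)) (by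
      intro τ
      have h1 : e.symm ((starRingEnd ℂ).comp τ) = c (e.symm τ) := by
        apply hinj
        rw [hes, S.pc, hes]
      rw [h1, hodd]) (by
      intro σ
      have h1 := h σ
      have h2 : ∑ x, ((r (σ • x) : ℂ) - r (c (σ • x))) * lam x =
          ∑ τ, ((t ((σ : ℂ →+* ℂ).comp τ) : ℂ) -
            t ((σ : ℂ →+* ℂ).comp ((starRingEnd ℂ).comp τ))) * lam (e.symm τ) := by
        refine Fintype.sum_equiv e _ _ fun x => ?_
        have h3 : e.symm (e x) = x := e.symm_apply_apply x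
        rw [h3, hr, hr, S.pc, S.eqv]
        have h4 : (starRingEnd ℂ).comp (σ • π x) =
            (σ : ℂ →+* ℂ).comp ((starRingEnd ℂ).comp (π x)) := cm_comm σ (π x)
        rw [h4]
        rfl
      rw [h2] at h1
      have h3 : ∑ τ, (t ((σ : ℂ →+* ℂ).comp ((starRingEnd ℂ).comp τ)) : ℂ) * lam (e.symm τ) =
          - ∑ τ, (t ((σ : ℂ →+* ℂ).comp τ) : ℂ) * lam (e.symm τ) := by
        rw [← Finset.sum_neg_distrib]
        refine Fintype.sum_equiv
          { toFun := fun τ => (starRingEnd ℂ).comp τ, invFun := fun τ => (starRingEnd ℂ).comp τ,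
            left_inv := KF.conj_conj, right_inv := KF.conj_conj } _ _ fun τ => ?_
        change _ = - ((t ((σ : ℂ →+* ℂ).comp ((starRingEnd ℂ).comp τ)) : ℂ) *
          lam (e.symm ((starRingEnd ℂ).comp τ)))
        have h4 : e.symm ((starRingEnd ℂ).comp τ) = c (e.symm τ) := by
          apply hinj
          rw [hes, S.pc, hes]
        rw [h4, hodd]
        ring
      simp only [sub_mul, Finset.sum_sub_distrib] at h1
      rw [h3] at h1
      linear_combination h1 / 2)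
    funext x
    have h1 := congrFun hL (e x)
    have h3 : e.symm (e x) = x := e.symm_apply_apply x
    rw [← h3]
    exact h1

theorem sepY_goodC (hC : GoodC N t) (τ τ' : F →+* ℂ) (hne : τ ≠ τ') : ∃ σ : RingAut ℂ,
      t ((σ : ℂ →+* ℂ).comp τ) ≠ t ((σ : ℂ →+* ℂ).comp τ') := by
  classical
  obtain ⟨rfl, hC⟩ := hC
  by_contra hcon
  push Not at hcon
  have hid : ∀ τ : F →+* ℂ, ((RingEquiv.refl ℂ : RingAut ℂ) : ℂ →+* ℂ).comp τ = τ := by
    intro τ
    ext x
    rfl
  by_cases h1 : τ' = (starRingEnd ℂ).comp τ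
  · have h2 := hcon (RingEquiv.refl ℂ)
    rw [hid, hid, h1] at h2
    have h3 := hsum τ
    omega
  · have h2 : (starRingEnd ℂ).comp τ' ≠ τ := by
      intro h2
      apply h1
      rw [← h2, KF.conj_conj]
    have key := hC (Pi.single τ 1 - Pi.single ((starRingEnd ℂ).comp τ) 1 - Pi.single τ' 1 +
      Pi.single ((starRingEnd ℂ).comp τ') 1)
      (by
        intro z
        have e1 : ∀ w, ((starRingEnd ℂ).comp z = w) ↔ (z = (starRingEnd ℂ).comp w) := fun w =>
          ⟨fun h => by rw [← h, KF.conj_conj], fun h => by rw [h, KF.conj_conj]⟩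
        have e2 : ∀ w, ((starRingEnd ℂ).comp z = (starRingEnd ℂ).comp w) ↔ (z = w) := fun w =>
          ⟨fun h => by rw [← KF.conj_conj z, h, KF.conj_conj], fun h => by rw [h]⟩
        simp only [Pi.add_apply, Pi.sub_apply, Pi.single_apply, e2, e1]
        ring)
      (by
        intro σ
        simp only [Pi.add_apply, Pi.sub_apply, mul_add, mul_sub, Finset.sum_add_distrib,
          Finset.sum_sub_distrib, Pi.single_apply, mul_ite, mul_one, mul_zero, Finset.sum_ite_eq',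
          Finset.mem_univ, if_true]
        have e1 := hcon σ
        have e2 := hcon (conjEq.trans σ)
        change t ((σ : ℂ →+* ℂ).comp ((starRingEnd ℂ).comp τ)) =
          t ((σ : ℂ →+* ℂ).comp ((starRingEnd ℂ).comp τ')) at e2
        rw [e1, e2]
        ring)
    have h3 := congrFun key τ
    simp only [Pi.add_apply, Pi.sub_apply, Pi.single_apply, if_true, Pi.zero_apply] at h3
    rw [if_neg (cm_ne τ).symm, if_neg hne, if_neg h2.symm] at h3
    simp at h3

end

/-- The conditions on a factor. -/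
def Good3 {F : Type} [Field F] [NumberField F] (N : ℕ) (t : (F →+* ℂ) → ℕ) : Prop :=
  (3 ≤ N ∧ (GoodA N t ∨ GoodB N t)) ∨ GoodC N t

section

variable {F : Type} [Field F] [NumberField F] [IsCMField F] {N : ℕ} {t : (F →+* ℂ) → ℕ}
  (hsum : ∀ τ, t τ + t ((starRingEnd ℂ).comp τ) = N)
include hsum

theorem con_good3 (hA : Good3 N t) [DecidableEq (F →+* ℂ)]
    {X : Type} [Fintype X] [MulAction (RingAut ℂ) X]
    {H : Subgroup (RingAut ℂ)} {π : X → (F →+* ℂ)} {c : X → X} {r : X → ℕ} {n' : ℕ}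
    (S : letI := embAct F
      Dat H π c (fun τ => (starRingEnd ℂ).comp τ) r n' t N) : Con (G := RingAut ℂ) c r n' := by
  rcases hA with ⟨h3, h⟩ | h
  · exact con_good h3 hsum h S
  · exact con_goodC hsum h S

theorem place_good3 (hA : Good3 N t) : ∃ τ, Nat.Coprime (t τ) N := by
  rcases hA with ⟨h3, h⟩ | ⟨rfl, -⟩
  · exact place_good h3 hsum h
  · obtain ⟨τ₁⟩ : Nonempty (F →+* ℂ) := inferInstance
    exact ⟨τ₁, Nat.coprime_one_right _⟩

theorem sepY_good3 (hA : Good3 N t)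
    (htr : ∀ (τ τ' : F →+* ℂ), ∃ σ : RingAut ℂ, (σ : ℂ →+* ℂ).comp τ = τ')
    (τ τ' : F →+* ℂ) (hne : τ ≠ τ') : ∃ σ : RingAut ℂ,
      t ((σ : ℂ →+* ℂ).comp τ) ≠ t ((σ : ℂ →+* ℂ).comp τ') := by
  rcases hA with ⟨h3, h⟩ | h
  · exact sepY_good h3 hsum h htr τ τ' hne
  · exact sepY_goodC hsum h τ τ' hne

omit [IsCMField F] hsum in
theorem pos_good3 (hA : Good3 N t) : 0 < N := by
  rcases hA with ⟨h3, h⟩ | ⟨rfl, -⟩
  · omega
  · exact one_pos

end

/-- The factors of the data. -/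
theorem dat_factor {ι : Type} [Fintype ι] {F : ι → Type} [∀ i, Field (F i)]
    [∀ i, NumberField (F i)] [DecidableEq (Em F)] {i : ι} [DecidableEq (F i →+* ℂ)]
    {X : Type} [Fintype X] [MulAction (RingAut ℂ) X] {H : Subgroup (RingAut ℂ)}
    {π : X → Em F} {c : X → X} {r : X → ℕ} {n' : ι → ℕ} {t : ∀ i, (F i →+* ℂ) → ℕ} {N : ι → ℕ}
    [Fintype {x // (π x).1 = i}]
    (S : letI := emAct F
       DatM (Sigma.fst : Em F → ι) H π c
        (fun y => (⟨y.1, (starRingEnd ℂ).comp y.2⟩ : Em F)) r n' (fun y => t y.1 y.2) N) :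
    ∃ (_ : MulAction (RingAut ℂ) {x // (π x).1 = i}) (π' : {x // (π x).1 = i} → (F i →+* ℂ))
      (c' : {x // (π x).1 = i} → {x // (π x).1 = i}),
      (∀ (σ : RingAut ℂ) (x : {x // (π x).1 = i}), (σ • x).1 = σ • x.1) ∧
      (∀ x, (c' x).1 = c x.1) ∧
      (letI := embAct (F i)
       Dat H π' c' (fun τ => (starRingEnd ℂ).comp τ) (fun x => r x.1) (n' i) (t i) (N i)) := by
  classical
  let _ := emAct F
  let _ := embAct (F i)
  have hact : ∀ (σ : RingAut ℂ) (τ : F i →+* ℂ), σ • (⟨i, τ⟩ : Em F) = ⟨i, σ • τ⟩ :=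
    fun _ _ => rfl
  have hinj : ∀ {τ τ' : F i →+* ℂ}, (⟨i, τ⟩ : Em F) = ⟨i, τ'⟩ → τ = τ' :=
    fun h => eq_of_heq (Sigma.mk.inj h).2
  let A : MulAction (RingAut ℂ) {x // (π x).1 = i} :=
    { smul := fun σ x => ⟨σ • x.1, by
        rw [S.eqv]
        exact x.2⟩
      one_smul := fun x => Subtype.ext (one_smul _ x.1)
      mul_smul := fun σ ρ x => Subtype.ext (mul_smul σ ρ x.1) }
  have hA : ∀ (σ : RingAut ℂ) (x : {x // (π x).1 = i}), (σ • x).1 = σ • x.1 := fun _ _ => rfl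
  have hπ : ∀ x : {x // (π x).1 = i}, ∃ τ : F i →+* ℂ, π x.1 = ⟨i, τ⟩ := by
    rintro ⟨x, hx⟩
    subst hx
    exact ⟨(π x).2, rfl⟩
  choose π' hπ' using hπ
  let c' : {x // (π x).1 = i} → {x // (π x).1 = i} := fun x => ⟨c x.1, by
    rw [S.pc]
    exact x.2⟩
  have hfib : ∀ τ : F i →+* ℂ, ∃ e : {x // π' x = τ} ≃ {x // π x = (⟨i, τ⟩ : Em F)},
      ∀ x, (e x).1 = x.1.1 := by
    intro τ
    exact ⟨{ toFun := fun x => ⟨x.1.1, by rw [hπ', x.2]⟩
             invFun := fun x => ⟨⟨x.1, by rw [x.2]⟩, hinj (by rw [← hπ']; exact x.2)⟩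
             left_inv := fun x => rfl
             right_inv := fun x => rfl }, fun x => rfl⟩
  refine ⟨A, π', c', hA, fun x => rfl, ?_⟩
  exact
    { normal := S.normal
      triv := by
        intro σ hσ τ
        apply hinj
        rw [← hact]
        exact S.triv σ hσ _
      cop := by
        intro τ
        have h1 := S.cop ⟨i, τ⟩
        have h2 : MulAction.stabilizer (RingAut ℂ) (⟨i, τ⟩ : Em F) =
            MulAction.stabilizer (RingAut ℂ) τ := by
          ext σ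
          rw [MulAction.mem_stabilizer_iff, MulAction.mem_stabilizer_iff, hact]
          exact ⟨fun h => hinj h, fun h => by rw [h]⟩
        rw [h2] at h1
        exact h1
      eqv := by
        intro σ x
        apply hinj
        rw [← hact, ← hπ', ← hπ', hA, S.eqv]
      tr := by
        intro x x'
        obtain ⟨σ, hσ⟩ := S.tr x.1 x'.1 (by rw [x.2, x'.2])
        exact ⟨σ, Subtype.ext hσ⟩
      surj := by
        intro τ
        obtain ⟨x, hx⟩ := S.surj ⟨i, τ⟩
        exact ⟨⟨x, by rw [hx]⟩, hinj (by rw [← hπ']; exact hx)⟩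
      cc := fun x => Subtype.ext (S.cc x.1)
      cg := fun σ x => Subtype.ext (S.cg σ x.1)
      pc := by
        intro x
        apply hinj
        rw [← hπ']
        change π (c x.1) = _
        rw [S.pc, hπ']
      trH := by
        intro x z hxz
        obtain ⟨σ, h1, h2⟩ := S.trH x.1 z.1 (by rw [hπ', hπ', hxz])
        exact ⟨σ, h1, Subtype.ext h2⟩
      sum := by
        intro x
        have h1 := S.sum x.1
        rw [x.2] at h1
        exact h1
      fib := by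
        intro τ
        obtain ⟨e, he⟩ := hfib τ
        rw [← S.fib ⟨i, τ⟩]
        exact Fintype.sum_equiv e _ _ fun x => by rw [he]
      card := by
        intro τ
        obtain ⟨e, he⟩ := hfib τ
        rw [Fintype.card_congr e]
        exact S.card ⟨i, τ⟩ }

end Pool.Agent.H943.KP
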