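import Mathlib
import Pool.Agent.H943.KP.Blocks
import Pool.Agent.H943.KP.Fac

/-!
# The Hodge classes on the products
-/

set_option autoImplicit false
set_option linter.unusedSectionVars false

namespace Pool.Agent.H943.KP

open Matrix Module Pool.Agent.H204R3.CM Pool.Agent.H194R3.CM Pool.Agent.W437.HC
  Pool.Agent.W437.HD Pool.Agent.W437.HQ Pool.Agent.W548.Odd Pool.Agent.TH125 Pool.Agent.Y4
  Pool.Agent.Y4.G Pool.Agent.Y4.K Pool.Agent.H943.KS Pool.Agent.H943.KF

open NumberField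

variable {g : ℕ} {Z : Matrix (Fin g) (Fin g) ℂ}

variable {ι : Type} [Fintype ι] {D : ι → Type} [∀ i, DivisionRing (D i)]
  {F : ι → Type} [∀ i, Field (F i)] [∀ i, NumberField (F i)]

/-- The sums of the translates over the embeddings separate the odd functions, supported on the
factors of `A`, with values in `R`. -/
def SepR (R : Type) [CommRing R] (A : ι → Prop) (t : ∀ i, (F i →+* ℂ) → ℕ) : Prop :=
  ∀ L : Em F → R, (∀ y, L ⟨y.1, (starRingEnd ℂ).comp y.2⟩ = - L y) → (∀ y, ¬ A y.1 → L y = 0) →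
    (∀ σ : ℂ ≃+* ℂ, ∑ y : Em F, (t y.1 ((σ : ℂ →+* ℂ).comp y.2) : R) * L y = 0) → L = 0

variable {ρ : ∀ i, D i →ₙ+* MQ g} {j : ∀ i, F i →+* D i} (M : Pol Z) (hB : ∀ i, Bk Z (ρ i))
  (horth : ∀ i k, i ≠ k → ρ i 1 * ρ k 1 = 0) (hsum : ∑ i, ρ i 1 = 1)
include M hB horth hsum

/-- **The conditions for a product.** -/
theorem conds_prod [∀ i, IsCMField (F i)] [∀ i, Algebra ℚ (D i)] [∀ i, Module.Finite ℚ (D i)]
    (hj : ∀ i a x, j i a * x = x * j i a) (n N : ι → ℕ) (t : ∀ i, (F i →+* ℂ) → ℕ)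
    (hdeg : ∀ i, finrank ℚ (D i) = n i ^ 2 * finrank ℚ (Subalgebra.center ℚ (D i)))
    (hdim : ∀ i, (ρ i 1).rank = finrank ℚ (F i) * (n i * N i))
    (hsig : ∀ i τ, finrank ℂ (TFn Z (fj (ρ i) (j i)) τ) = n i * t i τ)
    (hcop : ∀ y : Em F, Nat.Coprime (N y.1) (Nat.card
      {π : (@MulAction.toPermHom (RingAut ℂ) (Em F) _ (emAct F)).range //
        (π : Equiv.Perm (Em F)) y = y}))
    (hgood : ∀ i, Good3 (N i) (t i))
    (hpp : ∀ i k, i ≠ k → Nat.Coprime (N i) (N k) ∨
      ∃ p : ℕ, p.Prime ∧ p ≠ 2 ∧ (∃ a, N i = p ^ a) ∧ ∃ b, N k = p ^ b)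
    (hQ : (∀ i τ, t i τ + t i ((starRingEnd ℂ).comp τ) = N i) → (∃ i k : ι, i ≠ k) →
      SepR ℂ (fun _ => True) t)
    (hM : (∀ i τ, t i τ + t i ((starRingEnd ℂ).comp τ) = N i) → ∀ p : ℕ, p.Prime → p ≠ 2 →
      (∃ i k : ι, i ≠ k ∧ p ∣ N i ∧ p ∣ N k) → SepR (ZMod p) (fun i => p ∣ N i) t) :
    M.Cop ∧ M.Sep ∧ M.Nd := by
  classical
  let _ := emAct F
  obtain ⟨i1, H, π, n', tsum, htr, S⟩ := dat_main M hB horth hsum hj n N t hdeg hdim hsig
    (fun i => pos_good3 (hgood i)) hcop (fun h i => place_good3 (h i) (hgood i)) (by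
      rintro h1 h2 ⟨i, τ⟩ ⟨k, τ'⟩ hne
      by_cases hik : i = k
      · subst hik
        exact sepY_good3 (h1 i) (hgood i) (h2 i) τ τ' fun h => hne (by rw [h])
      · by_contra hcon
        push Not at hcon
        have hne1 : ∀ y : Em F, (⟨y.1, (starRingEnd ℂ).comp y.2⟩ : Em F) ≠ y := by
          rintro ⟨l, τ''⟩ h
          exact cm_ne τ'' (eq_of_heq (Sigma.mk.inj h).2)
        obtain ⟨b, hb⟩ : ∃ b : Em F → Em F,
            b = fun y => ⟨y.1, (starRingEnd ℂ).comp y.2⟩ := ⟨_, rfl⟩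
        have hbb : ∀ y, b (b y) = y := by
          intro y
          rw [hb]
          change (⟨y.1, (starRingEnd ℂ).comp ((starRingEnd ℂ).comp y.2)⟩ : Em F) = y
          rw [KF.conj_conj]
        have key := hQ h1 ⟨i, k, hik⟩
          (Pi.single ⟨i, τ⟩ 1 - Pi.single (b ⟨i, τ⟩) 1 - Pi.single ⟨k, τ'⟩ 1 +
            Pi.single (b ⟨k, τ'⟩) 1) (by
            intro z
            have e1 : ∀ w, (b z = w) ↔ (z = b w) := fun w =>
              ⟨fun h => by rw [← h, hbb], fun h => by rw [h, hbb]⟩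
            have e2 : ∀ w, (b z = b w) ↔ (z = w) := fun w =>
              ⟨fun h => by rw [← hbb z, h, hbb], fun h => by rw [h]⟩
            have e3 : (⟨z.1, (starRingEnd ℂ).comp z.2⟩ : Em F) = b z := by rw [hb]
            rw [e3]
            simp only [Pi.add_apply, Pi.sub_apply, Pi.single_apply, e2, e1]
            ring) (fun z hz => absurd trivial hz) (by
            intro σ
            simp only [Pi.add_apply, Pi.sub_apply, mul_add, mul_sub, Finset.sum_add_distrib,
              Finset.sum_sub_distrib, Pi.single_apply, mul_ite, mul_one, mul_zero,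
              Finset.sum_ite_eq', Finset.mem_univ, if_true]
            rw [hb]
            have e1 := hcon σ
            have e2 := hcon (conjEq.trans σ)
            change t i ((σ : ℂ →+* ℂ).comp τ) = t k ((σ : ℂ →+* ℂ).comp τ') at e1
            change t i ((σ : ℂ →+* ℂ).comp ((starRingEnd ℂ).comp τ)) =
              t k ((σ : ℂ →+* ℂ).comp ((starRingEnd ℂ).comp τ')) at e2
            change (t i ((σ : ℂ →+* ℂ).comp τ) : ℂ) -
              t i ((σ : ℂ →+* ℂ).comp ((starRingEnd ℂ).comp τ)) -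
              t k ((σ : ℂ →+* ℂ).comp τ') +
              t k ((σ : ℂ →+* ℂ).comp ((starRingEnd ℂ).comp τ')) = 0
            rw [e1, e2]
            ring)
        have h5 := congrFun key ⟨i, τ⟩
        have e1 : (⟨i, τ⟩ : Em F) ≠ b ⟨i, τ⟩ := by
          rw [hb]
          exact (hne1 ⟨i, τ⟩).symm
        have e2 : (⟨i, τ⟩ : Em F) ≠ ⟨k, τ'⟩ := hne
        have e3 : (⟨i, τ⟩ : Em F) ≠ b ⟨k, τ'⟩ := by
          rw [hb]
          intro h
          exact hik (congrArg Sigma.fst h)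
        simp only [Pi.add_apply, Pi.sub_apply, Pi.single_apply, if_true, Pi.zero_apply,
          if_neg e1, if_neg e2, if_neg e3] at h5
        simp at h5)
  let _ := clAct M
  refine conds_of_conM M ?_
  -- the factors
  have hfac : ∀ i, ∃ (_ : MulAction (RingAut ℂ) {x // (π x).1 = i})
      (c' : {x // (π x).1 = i} → {x // (π x).1 = i}),
      (∀ (σ : RingAut ℂ) (x : {x // (π x).1 = i}), (σ • x).1 = σ • x.1) ∧
      (∀ x, (c' x).1 = clBar M x.1) ∧
      Con (G := RingAut ℂ) c' (fun x => clMu M x.1) (n' i) := by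
    intro i
    obtain ⟨A, π', c', h1, h2, h3⟩ := dat_factor (i := i) S
    exact ⟨A, c', h1, h2, con_good3 (tsum i) (hgood i) h3⟩
  refine conM (κ := (Sigma.fst : Em F → ι)) S ?_ ?_ ?_ hpp ?_ ?_
  · intro x
    obtain ⟨A, c', h1, h2, C⟩ := hfac (π x).1
    obtain ⟨σ, hσ⟩ := C.cop ⟨x, rfl⟩
    refine ⟨σ, ?_⟩
    rw [h2, h1] at hσ
    exact hσ
  · intro x y hxy hne1 hne2 hn' hσ
    obtain ⟨A, c', h1, h2, C⟩ := hfac (π x).1
    refine C.sep ⟨x, rfl⟩ ⟨y, hxy.symm⟩ (fun h => hne1 (congrArg Subtype.val h))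
      (fun h => hne2 (by
        have h3 := congrArg Subtype.val h
        rw [h2] at h3
        exact h3)) hn' (fun σ => ?_)
    rw [h2, h2, h1, h1]
    exact hσ σ
  · intro i lam hodd hsupp h
    obtain ⟨A, c', h1, h2, C⟩ := hfac i
    have h3 : (fun x : {x // (π x).1 = i} => lam x.1) = 0 := by
      refine C.nd _ (fun x => ?_) (fun σ => ?_)
      · rw [h2, hodd]
      · rw [← h σ]
        symm
        rw [← Finset.sum_filter_add_sum_filter_not Finset.univ (fun x => (π x).1 = i)]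
        have h4 : ∑ x ∈ Finset.univ.filter (fun x => ¬ (π x).1 = i),
            ((clMu M (σ • x) : ℂ) - clMu M (clBar M (σ • x))) * lam x = 0 := by
          refine Finset.sum_eq_zero fun x hx => ?_
          rw [hsupp x (Finset.mem_filter.1 hx).2, mul_zero]
        rw [h4, add_zero, Finset.sum_subtype (p := fun x => (π x).1 = i) _ (fun x => by simp)]
        refine Finset.sum_congr rfl fun x _ => ?_
        rw [h2, h1]
    funext x
    by_cases hx : (π x).1 = i
    · exact congrFun h3 ⟨x, hx⟩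
    · exact hsupp x hx
  · intro hik L h1 h2
    exact hQ tsum hik L h1 (fun _ h => absurd trivial h) h2
  · intro p hp hp2 hik L h1 h2 h3
    exact hM tsum p hp hp2 hik L h1 h2 h3

end Pool.Agent.H943.KP
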