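import Mathlib
import Pool.Agent.H943.KP.Main
import Pool.Graph.R_seed8.Y90.Pie4

/-!
# Imaginary quadratic fields
-/

set_option autoImplicit false
set_option linter.unusedSectionVars false

namespace Pool.Agent.H943.KP

open Module Pool.Agent.Y4 Pool.Agent.H943.KF NumberField

section

variable {F : Type} [Field F] [NumberField F] [IsCMField F] (h2 : finrank ℚ F = 2)
include h2

theorem emb_two (τ τ' : F →+* ℂ) : τ' = τ ∨ τ' = (starRingEnd ℂ).comp τ := by
  classical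
  by_contra hcon
  push Not at hcon
  have h3 : ({τ, (starRingEnd ℂ).comp τ, τ'} : Finset (F →+* ℂ)).card = 3 := by
    rw [Finset.card_eq_three]
    exact ⟨_, _, _, (cm_ne τ).symm, fun h => hcon.1 h.symm, fun h => hcon.2 h.symm, rfl⟩
  have h4 := Finset.card_le_univ ({τ, (starRingEnd ℂ).comp τ, τ'} : Finset (F →+* ℂ))
  rw [h3, NumberField.Embeddings.card, h2] at h4
  omega

theorem sum_two {R : Type} [AddCommMonoid R] (τ : F →+* ℂ) (f : (F →+* ℂ) → R) :
    ∑ τ', f τ' = f τ + f ((starRingEnd ℂ).comp τ) := by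
  classical
  have h3 : (Finset.univ : Finset (F →+* ℂ)) = {τ, (starRingEnd ℂ).comp τ} := by
    ext τ'
    simp only [Finset.mem_univ, Finset.mem_insert, Finset.mem_singleton, true_iff]
    exact emb_two h2 τ τ'
  rw [h3, Finset.sum_pair (cm_ne τ).symm]

/-- A nonzero element of trace zero. -/
theorem exists_imag (τ : F →+* ℂ) : ∃ a : F, a ≠ 0 ∧ (starRingEnd ℂ).comp τ a = - τ a := by
  obtain ⟨x, hx⟩ : ∃ x, (starRingEnd ℂ).comp τ x ≠ τ x := by
    by_contra hcon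
    push Not at hcon
    exact cm_ne τ (RingHom.ext hcon)
  have h3 := sum_emb x
  rw [sum_two h2 τ] at h3
  refine ⟨2 * x - algebraMap ℚ F (Algebra.trace ℚ F x), ?_, ?_⟩
  · intro h
    apply hx
    have h4 := congrArg τ h
    rw [map_sub, map_mul, map_ofNat, map_zero, eq_ratCast, map_ratCast, ← h3] at h4
    linear_combination -h4
  · rw [map_sub, map_sub, map_mul, map_mul, map_ofNat, map_ofNat, eq_ratCast, map_ratCast,
      map_ratCast, ← h3]
    ring

end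

/-- Two imaginary quadratic fields with the same stabilizers are isomorphic. -/
theorem iso_of_stab {F E : Type} [Field F] [NumberField F] [IsCMField F] [Field E] [NumberField E]
    [IsCMField E] (hF : finrank ℚ F = 2) (hE : finrank ℚ E = 2) (τ : F →+* ℂ) (υ : E →+* ℂ)
    (h : ∀ σ : ℂ ≃+* ℂ, (σ : ℂ →+* ℂ).comp τ = τ ↔ (σ : ℂ →+* ℂ).comp υ = υ) :
    Nonempty (F ≃+* E) := by
  classical
  obtain ⟨a, ha0, ha⟩ := exists_imag hF τ
  obtain ⟨b, hb0, hb⟩ := exists_imag hE υ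
  obtain ⟨q, hq⟩ := Pool.Agent.Y90.exists_rat (z := τ a * υ b) (by
    intro σ
    rw [map_mul]
    by_cases h1 : (σ : ℂ →+* ℂ).comp τ = τ
    · have h3 := (h σ).1 h1
      have e1 : σ (τ a) = τ a := congrArg (fun f : F →+* ℂ => f a) h1
      have e2 : σ (υ b) = υ b := congrArg (fun f : E →+* ℂ => f b) h3
      rw [e1, e2]
    · have h3 : (σ : ℂ →+* ℂ).comp υ ≠ υ := fun h4 => h1 ((h σ).2 h4)
      have e1 := (emb_two hF τ ((σ : ℂ →+* ℂ).comp τ)).resolve_left h1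
      have e2 := (emb_two hE υ ((σ : ℂ →+* ℂ).comp υ)).resolve_left h3
      have e3 : σ (τ a) = - τ a := by
        rw [← ha, ← e1]
        rfl
      have e4 : σ (υ b) = - υ b := by
        rw [← hb, ← e2]
        rfl
      rw [e3, e4]
      ring)
  have hτa : τ a ≠ 0 := fun h => ha0 ((map_eq_zero τ).1 h)
  have hυb : υ b ≠ 0 := fun h => hb0 ((map_eq_zero υ).1 h)
  -- `F` is generated by `a`
  have hspan : ∀ x : F, ∃ u v : ℚ, x = algebraMap ℚ F u + algebraMap ℚ F v * a := by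
    intro x
    have hli : LinearIndependent ℚ ![(1 : F), a] := by
      rw [LinearIndependent.pair_iff]
      intro s t hst
      have e1 : (s : ℂ) + t * τ a = 0 := by
        have e2 := congrArg τ hst
        rw [map_add, map_rat_smul, map_rat_smul, map_one, map_zero, Rat.smul_def, Rat.smul_def,
          mul_one] at e2
        exact e2
      have e3 : (s : ℂ) - t * τ a = 0 := by
        have e2 := congrArg ((starRingEnd ℂ).comp τ) hst
        rw [map_add, map_rat_smul, map_rat_smul, map_one, map_zero, Rat.smul_def, Rat.smul_def,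
          mul_one, ha] at e2
        linear_combination e2
      have e4 : (s : ℂ) = 0 := by linear_combination (e1 + e3) / 2
      have e5 : (t : ℂ) * τ a = 0 := by linear_combination (e1 - e3) / 2
      refine ⟨by exact_mod_cast e4, ?_⟩
      have e6 := (mul_eq_zero.1 e5).resolve_right hτa
      exact_mod_cast e6
    have hsp : Submodule.span ℚ (Set.range ![(1 : F), a]) = ⊤ := by
      apply LinearIndependent.span_eq_top_of_card_eq_finrank hli
      rw [hF, Fintype.card_fin]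
    have hx : x ∈ Submodule.span ℚ (Set.range ![(1 : F), a]) := by
      rw [hsp]
      trivial
    rw [Matrix.range_cons, Matrix.range_cons, Matrix.range_empty, Set.union_empty,
      Set.singleton_union, Submodule.mem_span_pair] at hx
    obtain ⟨u, v, huv⟩ := hx
    refine ⟨u, v, ?_⟩
    rw [← huv, Algebra.smul_def, Algebra.smul_def, mul_one]
  -- the image of `F` is contained in the image of `E`
  have hsub : ∀ x : F, ∃ y : E, υ y = τ x := by
    intro x
    obtain ⟨u, v, rfl⟩ := hspan x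
    refine ⟨algebraMap ℚ E u + algebraMap ℚ E v * (algebraMap ℚ E q * b⁻¹), ?_⟩
    have e1 : τ a = q * (υ b)⁻¹ := by
      rw [eq_mul_inv_iff_mul_eq₀ hυb, hq]
    simp only [map_add, map_mul, eq_ratCast, map_ratCast, map_inv₀]
    rw [e1]
  choose f hf using hsub
  have hυ : Function.Injective υ := υ.injective
  let φ : F →+* E :=
    { toFun := f
      map_one' := hυ (by rw [hf, map_one, map_one])
      map_mul' := fun x y => hυ (by rw [hf, map_mul, map_mul, hf, hf])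
      map_zero' := hυ (by rw [hf, map_zero, map_zero])
      map_add' := fun x y => hυ (by rw [hf, map_add, map_add, hf, hf]) }
  have hsurj : Function.Surjective φ := by
    have h1 : Function.Injective φ.toRatAlgHom.toLinearMap := φ.injective
    exact (LinearMap.injective_iff_surjective_of_finrank_eq_finrank (hF.trans hE.symm)).1 h1
  exact ⟨RingEquiv.ofBijective φ ⟨φ.injective, hsurj⟩⟩

section

variable {ι : Type} [Fintype ι] {F : ι → Type} [∀ i, Field (F i)] [∀ i, NumberField (F i)]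
  [∀ i, IsCMField (F i)] (hquad : ∀ i, finrank ℚ (F i) = 2)
include hquad

/-- The quadratic character of an imaginary quadratic field. -/
theorem exists_char {R : Type} [CommRing R] (i : ι) (τ : F i →+* ℂ) :
    ∃ χ : RingAut ℂ →* R, ∀ σ : RingAut ℂ,
      ((σ : ℂ →+* ℂ).comp τ = τ ∧ χ σ = 1) ∨
      ((σ : ℂ →+* ℂ).comp τ = (starRingEnd ℂ).comp τ ∧ χ σ = -1) := by
  classical
  let f : RingAut ℂ → R := fun σ => if (σ : ℂ →+* ℂ).comp τ = τ then 1 else -1
  have hf : ∀ σ : RingAut ℂ, ((σ : ℂ →+* ℂ).comp τ = τ ∧ f σ = 1) ∨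
      ((σ : ℂ →+* ℂ).comp τ = (starRingEnd ℂ).comp τ ∧ f σ = -1) := by
    intro σ
    by_cases h : (σ : ℂ →+* ℂ).comp τ = τ
    · exact Or.inl ⟨h, if_pos h⟩
    · exact Or.inr ⟨(emb_two (hquad i) τ _).resolve_left h, if_neg h⟩
  refine ⟨{ toFun := f, map_one' := ?_, map_mul' := ?_ }, hf⟩
  · apply if_pos
    ext x
    rfl
  · intro σ σ'
    have h0 : ((σ * σ' : RingAut ℂ) : ℂ →+* ℂ).comp τ =
        (σ : ℂ →+* ℂ).comp ((σ' : ℂ →+* ℂ).comp τ) := by
      ext x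
      rfl
    have hcc : (starRingEnd ℂ).comp τ ≠ τ := cm_ne τ
    have hcm : (σ : ℂ →+* ℂ).comp ((starRingEnd ℂ).comp τ) =
        (starRingEnd ℂ).comp ((σ : ℂ →+* ℂ).comp τ) := (cm_comm σ τ).symm
    change (if ((σ * σ' : RingAut ℂ) : ℂ →+* ℂ).comp τ = τ then (1 : R) else -1) = f σ * f σ'
    rw [h0]
    rcases hf σ with ⟨h1, h2⟩ | ⟨h1, h2⟩ <;> rcases hf σ' with ⟨h3, h4⟩ | ⟨h3, h4⟩
    · rw [h3, h1, h2, h4, if_pos rfl, one_mul]
    · rw [h3, hcm, h1, h2, h4, if_neg hcc, one_mul]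
    · rw [h3, h1, h2, h4, if_neg hcc, mul_one]
    · rw [h3, hcm, h1, h2, h4, KF.conj_conj, if_pos rfl, neg_mul_neg, one_mul]

/-- **Separation for imaginary quadratic fields.** -/
theorem sepR_quad {R : Type} [CommRing R] [IsDomain R] (h2 : (2 : R) ≠ 0)
    (hiso : ∀ i k, i ≠ k → IsEmpty (F i ≃+* F k)) (A : ι → Prop) (t : ∀ i, (F i →+* ℂ) → ℕ)
    (hd : ∀ i, A i → ∀ τ, (t i τ : R) ≠ t i ((starRingEnd ℂ).comp τ)) : SepR R A t := by
  classical
  intro L hodd hsupp h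
  obtain ⟨τ₀⟩ : Nonempty (∀ i, F i →+* ℂ) := inferInstance
  choose χ hχ using fun i => exists_char (R := R) hquad i (τ₀ i)
  have h1m : (1 : R) ≠ -1 := by
    intro h1
    apply h2
    linear_combination h1
  have hinj : Function.Injective χ := by
    intro i k hik
    by_contra hne
    obtain ⟨e⟩ := iso_of_stab (hquad i) (hquad k) (τ₀ i) (τ₀ k) (by
      intro σ
      have e1 : χ i σ = χ k σ := by rw [hik]
      rcases hχ i σ with ⟨a1, a2⟩ | ⟨a1, a2⟩ <;> rcases hχ k σ with ⟨b1, b2⟩ | ⟨b1, b2⟩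
      · exact ⟨fun _ => b1, fun _ => a1⟩
      · rw [a2, b2] at e1
        exact absurd e1 h1m
      · rw [a2, b2] at e1
        exact absurd e1.symm h1m
      · rw [a1, b1]
        exact ⟨fun h => absurd h (cm_ne _), fun h => absurd h (cm_ne _)⟩)
    exact (hiso i k hne).false e
  have hli := (linearIndependent_monoidHom (RingAut ℂ) R).comp χ hinj
  have hz := Fintype.linearIndependent_iff.1 hli
    (fun i => ((t i (τ₀ i) : R) - t i ((starRingEnd ℂ).comp (τ₀ i))) * L ⟨i, τ₀ i⟩) (by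
      funext σ
      rw [Finset.sum_apply, Pi.zero_apply, ← h σ, Fintype.sum_sigma]
      refine Finset.sum_congr rfl fun i _ => ?_
      rw [sum_two (hquad i) (τ₀ i)]
      have e1 : L ⟨i, (starRingEnd ℂ).comp (τ₀ i)⟩ = - L ⟨i, τ₀ i⟩ := hodd ⟨i, τ₀ i⟩
      have hcm : (σ : ℂ →+* ℂ).comp ((starRingEnd ℂ).comp (τ₀ i)) =
          (starRingEnd ℂ).comp ((σ : ℂ →+* ℂ).comp (τ₀ i)) := (cm_comm σ _).symm
      change ((t i (τ₀ i) : R) - t i ((starRingEnd ℂ).comp (τ₀ i))) * L ⟨i, τ₀ i⟩ * χ i σ =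
        (t i ((σ : ℂ →+* ℂ).comp (τ₀ i)) : R) * L ⟨i, τ₀ i⟩ +
        (t i ((σ : ℂ →+* ℂ).comp ((starRingEnd ℂ).comp (τ₀ i))) : R) *
          L ⟨i, (starRingEnd ℂ).comp (τ₀ i)⟩
      rw [e1, hcm]
      rcases hχ i σ with ⟨a1, a2⟩ | ⟨a1, a2⟩
      · rw [a1, a2]
        ring
      · rw [a1, a2, KF.conj_conj]
        ring)
  have hL0 : ∀ i, L ⟨i, τ₀ i⟩ = 0 := by
    intro i
    by_cases hi : A i
    · have h3 := hz i
      exact (mul_eq_zero.1 h3).resolve_left (sub_ne_zero.2 (hd i hi _))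
    · exact hsupp ⟨i, τ₀ i⟩ hi
  funext y
  obtain ⟨i, τ⟩ := y
  rcases emb_two (hquad i) (τ₀ i) τ with h3 | h3
  · rw [h3, hL0]
    rfl
  · rw [h3]
    have e1 : L ⟨i, (starRingEnd ℂ).comp (τ₀ i)⟩ = - L ⟨i, τ₀ i⟩ := hodd ⟨i, τ₀ i⟩
    rw [e1, hL0, neg_zero]
    rfl

/-- The Galois group of a compositum of imaginary quadratic fields has no elements of odd
order. -/
theorem cop_quad {N : ℕ} (hN : ¬ 2 ∣ N) (y : Em F) : Nat.Coprime N (Nat.card
    {π : (@MulAction.toPermHom (RingAut ℂ) (Em F) _ (emAct F)).range //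
      (π : Equiv.Perm (Em F)) y = y}) := by
  classical
  let _ := emAct F
  let Γ := (MulAction.toPermHom (RingAut ℂ) (Em F)).range
  have hsq : ∀ γ : Γ, γ * γ = 1 := by
    rintro ⟨_, ⟨σ, rfl⟩⟩
    apply Subtype.ext
    refine Equiv.ext fun y => ?_
    obtain ⟨i, τ⟩ := y
    change (⟨i, (σ : ℂ →+* ℂ).comp ((σ : ℂ →+* ℂ).comp τ)⟩ : Em F) = ⟨i, τ⟩
    have hcm : (σ : ℂ →+* ℂ).comp ((starRingEnd ℂ).comp τ) =
        (starRingEnd ℂ).comp ((σ : ℂ →+* ℂ).comp τ) := (cm_comm σ τ).symm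
    rcases emb_two (hquad i) τ ((σ : ℂ →+* ℂ).comp τ) with h | h
    · rw [h, h]
    · rw [h, hcm, h, KF.conj_conj]
  let K : Subgroup Γ :=
    { carrier := {γ | (γ : Equiv.Perm (Em F)) y = y}
      mul_mem' := by
        intro a b ha hb
        change (a : Equiv.Perm (Em F)) ((b : Equiv.Perm (Em F)) y) = y
        rw [hb, ha]
      one_mem' := rfl
      inv_mem' := by
        intro a ha
        change (a : Equiv.Perm (Em F))⁻¹ y = y
        rw [Equiv.Perm.inv_eq_iff_eq]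
        exact ha.symm }
  have hfin : Finite K := inferInstance
  have hK : Nat.card {π : Γ // (π : Equiv.Perm (Em F)) y = y} = Nat.card K := rfl
  change Nat.Coprime N (Nat.card K)
  by_contra hcon
  obtain ⟨q, hq, hq1, hq2⟩ := Nat.Prime.not_coprime_iff_dvd.1 hcon
  have : Fact q.Prime := ⟨hq⟩
  obtain ⟨k, hk⟩ := exists_prime_orderOf_dvd_card' q hq2
  have h1 : k ^ 2 = 1 := by
    rw [sq]
    exact Subtype.ext (hsq k.1)
  have h2 := orderOf_dvd_of_pow_eq_one h1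
  rw [hk] at h2
  have h3 := (Nat.prime_dvd_prime_iff_eq hq Nat.prime_two).1 h2
  rw [h3] at hq1
  exact hN hq1

/-- The values of the signature at an imaginary quadratic field. -/
theorem cop_all {i : ι} {N : ℕ} {t : (F i →+* ℂ) → ℕ}
    (hsum : ∀ τ, t τ + t ((starRingEnd ℂ).comp τ) = N) (h : ∃ τ, Nat.Coprime (t τ) N)
    (τ : F i →+* ℂ) : Nat.Coprime (t τ) N := by
  obtain ⟨τ₁, h1⟩ := h
  rcases emb_two (hquad i) τ₁ τ with h2 | h2
  · rw [h2]
    exact h1
  · rw [h2]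
    have h3 := hsum τ₁
    rw [← h3] at h1 ⊢
    rw [Nat.coprime_add_self_right]
    exact ((Nat.coprime_self_add_right).1 h1).symm

theorem hQ_quad (hiso : ∀ i k, i ≠ k → IsEmpty (F i ≃+* F k)) {N : ι → ℕ}
    {t : ∀ i, (F i →+* ℂ) → ℕ} (hodd : ∀ i, ¬ 2 ∣ N i)
    (hsum : ∀ i τ, t i τ + t i ((starRingEnd ℂ).comp τ) = N i) :
    SepR ℂ (fun _ => True) t := by
  refine sepR_quad hquad two_ne_zero hiso _ t fun i _ τ h => ?_
  have h1 : t i τ = t i ((starRingEnd ℂ).comp τ) := by exact_mod_cast h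
  have h2 := hsum i τ
  exact hodd i ⟨t i τ, by omega⟩

theorem hM_quad (hiso : ∀ i k, i ≠ k → IsEmpty (F i ≃+* F k)) {N : ι → ℕ}
    {t : ∀ i, (F i →+* ℂ) → ℕ}
    (hsum : ∀ i τ, t i τ + t i ((starRingEnd ℂ).comp τ) = N i)
    (hcop : ∀ i, ∃ τ, Nat.Coprime (t i τ) (N i)) {p : ℕ} (hp : p.Prime) (hp2 : p ≠ 2) :
    SepR (ZMod p) (fun i => p ∣ N i) t := by
  have : Fact p.Prime := ⟨hp⟩
  refine sepR_quad hquad (two_neP hp2) hiso _ t fun i hi τ h => ?_
  have h2 := congrArg (fun m : ℕ => (m : ZMod p)) (hsum i τ)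
  simp only [Nat.cast_add] at h2
  rw [(ZMod.natCast_eq_zero_iff _ _).2 hi, ← h, ← two_mul] at h2
  have h3 := (mul_eq_zero.1 h2).resolve_left (two_neP hp2)
  rw [ZMod.natCast_eq_zero_iff] at h3
  exact absurd (Nat.eq_one_of_dvd_coprimes (cop_all hquad (hsum i) (hcop i) τ) h3 hi)
    hp.one_lt.ne'

end

/-- **The Hodge classes on the powers of a product.** -/
theorem hodge_prod {g : ℕ} {Z : Matrix (Fin g) (Fin g) ℂ} (hsymm : Z.transpose = Z)
    (hpos : (Z.map Complex.im).PosDef) {ι : Type} [Fintype ι] {D : ι → Type}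
    [∀ i, DivisionRing (D i)]
    {F : ι → Type} [∀ i, Field (F i)] [∀ i, NumberField (F i)]
    {ρ : ∀ i, D i →ₙ+* KS.MQ g} {j : ∀ i, F i →+* D i} (hB : ∀ i, Bk Z (ρ i))
    (horth : ∀ i k, i ≠ k → ρ i 1 * ρ k 1 = 0) (hsum : ∑ i, ρ i 1 = 1)
    [∀ i, IsCMField (F i)] [∀ i, Algebra ℚ (D i)] [∀ i, Module.Finite ℚ (D i)]
    (hj : ∀ i a x, j i a * x = x * j i a) (n N : ι → ℕ) (t : ∀ i, (F i →+* ℂ) → ℕ)
    (hdeg : ∀ i, finrank ℚ (D i) = n i ^ 2 * finrank ℚ (Subalgebra.center ℚ (D i)))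
    (hdim : ∀ i, (ρ i 1).rank = finrank ℚ (F i) * (n i * N i))
    (hsig : ∀ i τ, finrank ℂ (TFn Z (fj (ρ i) (j i)) τ) = n i * t i τ)
    (hgood : ∀ i, Good3 (N i) (t i))
    (hpp : ∀ i k, i ≠ k → Nat.Coprime (N i) (N k) ∨
      ∃ p : ℕ, p.Prime ∧ p ≠ 2 ∧ (∃ a, N i = p ^ a) ∧ ∃ b, N k = p ^ b)
    (hind : ((∀ y : Em F, Nat.Coprime (N y.1) (Nat.card
        {π : (@MulAction.toPermHom (RingAut ℂ) (Em F) _ (emAct F)).range //
          (π : Equiv.Perm (Em F)) y = y})) ∧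
        ((∃ i k : ι, i ≠ k) → SepR ℂ (fun _ => True) t) ∧
        (∀ p : ℕ, p.Prime → p ≠ 2 → (∃ i k : ι, i ≠ k ∧ p ∣ N i ∧ p ∣ N k) →
          SepR (ZMod p) (fun i => p ∣ N i) t)) ∨
      ((∀ i, finrank ℚ (F i) = 2) ∧ (∀ i k, i ≠ k → IsEmpty (F i ≃+* F k)) ∧
        ∀ i, ¬ 2 ∣ N i))
    {k m : ℕ} (f : (Fin k → Fin g ⊕ Fin g → ℚ) [⋀^Fin m × Fin 2]→ₗ[ℚ] ℚ)
    (hf : Pool.Agent.H204R3.CM.IsHodge (Pool.Agent.W437.HC.perPow Z k) f) :
    f ∈ Pool.Agent.H194R3.CM.divisorial (Pool.Agent.W437.HC.perPow Z k) m := by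
  have M : Pool.Agent.Y4.K.Pol Z := ⟨hsymm, hpos⟩
  obtain ⟨c1, c2, c3⟩ : M.Cop ∧ M.Sep ∧ M.Nd := by
    rcases hind with ⟨h1, h2, h3⟩ | ⟨h1, h2, h3⟩
    · exact conds_prod M hB horth hsum hj n N t hdeg hdim hsig h1 hgood hpp (fun _ => h2)
        (fun _ => h3)
    · exact conds_prod M hB horth hsum hj n N t hdeg hdim hsig (fun y => cop_quad h1 (h3 y.1) y)
        hgood hpp (fun hs _ => hQ_quad h1 h2 h3 hs)
        (fun hs p hp hp2 _ => hM_quad h1 h2 hs (fun i => place_good3 (hs i) (hgood i)) hp hp2)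
  exact M.divisorial_all c1 c2 c3 f hf

end Pool.Agent.H943.KP
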